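import Pool.Agent.MP_0e9fac_pr.Defs
import Pool.Agent.MP_0e9fac_pr.Resolve

-- part MP_0e9fac_pr.Clock
section

/-! Deterministic properties of one walk; gluing two walks at a deterministic time. -/

set_option autoImplicit false
open Finset
open scoped Classical

namespace Pool.Agent.MP_0e9fac_pr

variable {d : ℕ}

/-- Positive holding times and no explosion. -/
def Good (w : Clock d) : Prop := (∀ i, 0 < (w i).1) ∧ ∀ t : ℝ, ∃ n, t < jumpTime w n

variable {w w' : Clock d}

@[simp] lemma jumpTime_zero : jumpTime w 0 = 0 := by simp [jumpTime]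

lemma jumpTime_succ (n : ℕ) : jumpTime w (n + 1) = jumpTime w n + (w n).1 := by
  simp [jumpTime, sum_range_succ]

lemma jumpTime_succ' (n : ℕ) :
    jumpTime w (n + 1) = (w 0).1 + jumpTime (fun i => w (i + 1)) n := by
  simp [jumpTime, sum_range_succ', add_comm]

lemma Good.strictMono (h : Good w) : StrictMono (jumpTime w) :=
  strictMono_nat_of_lt_succ fun n => by rw [jumpTime_succ]; linarith [h.1 n]

lemma Good.bdd (h : Good w) (t : ℝ) : BddAbove {n | jumpTime w n ≤ t} := by
  obtain ⟨m, hm⟩ := h.2 t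
  refine ⟨m, fun n hn => ?_⟩
  by_contra hh
  have := h.strictMono (not_le.1 hh)
  have hn' : jumpTime w n ≤ t := hn
  linarith

lemma Good.le_jumpCount_iff (h : Good w) {t : ℝ} (ht : 0 ≤ t) {n : ℕ} :
    n ≤ jumpCount w t ↔ jumpTime w n ≤ t := by
  constructor
  · intro hn
    have hm : jumpCount w t ∈ {n | jumpTime w n ≤ t} :=
      Nat.sSup_mem ⟨0, by simpa using ht⟩ (h.bdd t)
    exact (h.strictMono.monotone hn).trans hm
  · intro hn
    exact le_csSup (h.bdd t) hn

lemma Good.jumpTime_jumpCount_le (h : Good w) {t : ℝ} (ht : 0 ≤ t) :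
    jumpTime w (jumpCount w t) ≤ t := (h.le_jumpCount_iff ht).1 le_rfl

lemma Good.lt_jumpTime_succ (h : Good w) {t : ℝ} (ht : 0 ≤ t) :
    t < jumpTime w (jumpCount w t + 1) := by
  by_contra hh
  have := (h.le_jumpCount_iff ht).2 (not_lt.1 hh)
  omega

lemma Good.jumpCount_eq (h : Good w) {t : ℝ} {n : ℕ} (h1 : jumpTime w n ≤ t)
    (h2 : t < jumpTime w (n + 1)) : jumpCount w t = n := by
  have h0 : 0 ≤ t := le_trans (by simpa using h.strictMono.monotone (Nat.zero_le n)) h1
  have a := (h.le_jumpCount_iff h0).2 h1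
  have b : ¬ (n + 1 ≤ jumpCount w t) := fun hh => not_le.2 h2 ((h.le_jumpCount_iff h0).1 hh)
  omega

lemma Good.jumpCount_zero (h : Good w) : jumpCount w 0 = 0 :=
  h.jumpCount_eq (by simp) (by simpa [jumpTime_succ] using h.1 0)

lemma Good.disp_zero (h : Good w) : disp w 0 = 0 := by simp [disp, h.jumpCount_zero]

lemma Good.jumpCount_mono (h : Good w) {s t : ℝ} (hs : 0 ≤ s) (hst : s ≤ t) :
    jumpCount w s ≤ jumpCount w t :=
  (h.le_jumpCount_iff (hs.trans hst)).2 ((h.jumpTime_jumpCount_le hs).trans hst)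

/-- The taxicab norm. -/
def nrm (x : Site d) : ℕ := ∑ i, (x i).natAbs

lemma nrm_add_le (x y : Site d) : nrm (x + y) ≤ nrm x + nrm y := by
  unfold nrm
  rw [← sum_add_distrib]
  exact sum_le_sum fun i _ => Int.natAbs_add_le _ _

lemma nrm_neg (x : Site d) : nrm (-x) = nrm x := by simp [nrm]

lemma nrm_sub_comm (x y : Site d) : nrm (x - y) = nrm (y - x) := by
  rw [← nrm_neg, neg_sub]

lemma nrm_step (e : Fin d × Bool) : nrm (step e) = 1 := by
  unfold nrm step
  rw [sum_eq_single e.1]
  · cases e.2 <;> simp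
  · intro b _ hb; simp [hb]
  · simp

lemma nrm_sum_step (w : Clock d) (s : Finset ℕ) : nrm (∑ i ∈ s, step (w i).2) ≤ s.card := by
  induction s using Finset.induction_on with
  | empty => simp [nrm]
  | insert a s ha ih =>
    rw [sum_insert ha, card_insert_of_notMem ha]
    have := nrm_add_le (step (w a).2) (∑ i ∈ s, step (w i).2)
    rw [nrm_step] at this
    omega

lemma Good.nrm_disp_sub (h : Good w) {s t : ℝ} (hs : 0 ≤ s) (hst : s ≤ t) :
    nrm (disp w t - disp w s) ≤ jumpCount w t - jumpCount w s := by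
  have hm := h.jumpCount_mono hs hst
  unfold disp
  rw [← sum_Ico_eq_sub _ hm]
  simpa using nrm_sum_step w (Ico (jumpCount w s) (jumpCount w t))

lemma nrm_disp_le (w : Clock d) (t : ℝ) : nrm (disp w t) ≤ jumpCount w t := by
  simpa [disp] using nrm_sum_step w (range (jumpCount w t))

lemma natAbs_le_nrm (x : Site d) (i : Fin d) : (x i).natAbs ≤ nrm x :=
  single_le_sum (f := fun i => (x i).natAbs) (fun _ _ => Nat.zero_le _) (mem_univ i)

/-- The `n`-th entry of the walk that follows `w` up to time `s` and `w'` afterwards. -/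
noncomputable def glueAux : ℕ → ℝ → Clock d → Clock d → ℝ × (Fin d × Bool)
  | 0, s, w, w' => if (w 0).1 ≤ s then w 0 else (s + (w' 0).1, (w' 0).2)
  | n + 1, s, w, w' =>
      if (w 0).1 ≤ s then glueAux n (s - (w 0).1) (fun i => w (i + 1)) w' else w' (n + 1)

/-- The walk that follows `w` up to time `s` and `w'` afterwards. -/
noncomputable def glue (s : ℝ) (w w' : Clock d) : Clock d := fun n => glueAux n s w w'

lemma glueAux_explicit (w' : Clock d) (N : ℕ) : ∀ (s : ℝ) (w : Clock d), (∀ i, 0 < (w i).1) →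
    jumpTime w N ≤ s → s < jumpTime w (N + 1) →
    (∀ n < N, glueAux n s w w' = w n) ∧
    glueAux N s w w' = (s - jumpTime w N + (w' 0).1, (w' 0).2) ∧
    ∀ j, glueAux (N + 1 + j) s w w' = w' (j + 1) := by
  induction N with
  | zero =>
    intro s w _ _ h2
    have h3 : ¬ (w 0).1 ≤ s := by simpa [jumpTime_succ] using h2
    refine ⟨fun n hn => absurd hn (Nat.not_lt_zero n), by simp [glueAux, h3], fun j => ?_⟩
    rw [show 0 + 1 + j = j + 1 by omega]
    simp [glueAux, h3]
  | succ N ih =>
    intro s w hp h1 h2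
    rw [jumpTime_succ'] at h1 h2
    have h0 : 0 ≤ jumpTime (fun i => w (i + 1)) N := sum_nonneg fun i _ => (hp (i + 1)).le
    have h3 : (w 0).1 ≤ s := by linarith
    obtain ⟨a, b, c⟩ := ih (s - (w 0).1) (fun i => w (i + 1)) (fun i => hp (i + 1))
      (by linarith) (by linarith)
    refine ⟨fun n hn => ?_, ?_, fun j => ?_⟩
    · cases n with
      | zero => simp [glueAux, h3]
      | succ n => simp only [glueAux, if_pos h3]; exact a n (by omega)
    · simp only [glueAux, if_pos h3]
      rw [b, jumpTime_succ']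
      congr 1; ring
    · rw [show N + 1 + 1 + j = (N + 1 + j) + 1 by omega]
      simp only [glueAux, if_pos h3]
      exact c j

section
variable (h : Good w) (h' : Good w') {s : ℝ} (hs : 0 ≤ s)
include h hs

lemma glue_lt {n : ℕ} (hn : n < jumpCount w s) : glue s w w' n = w n :=
  (glueAux_explicit w' _ s w h.1 (h.jumpTime_jumpCount_le hs) (h.lt_jumpTime_succ hs)).1 n hn

lemma glue_eq : glue s w w' (jumpCount w s) =
    (s - jumpTime w (jumpCount w s) + (w' 0).1, (w' 0).2) :=
  (glueAux_explicit w' _ s w h.1 (h.jumpTime_jumpCount_le hs) (h.lt_jumpTime_succ hs)).2.1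

lemma glue_gt (j : ℕ) : glue s w w' (jumpCount w s + 1 + j) = w' (j + 1) :=
  (glueAux_explicit w' _ s w h.1 (h.jumpTime_jumpCount_le hs) (h.lt_jumpTime_succ hs)).2.2 j

lemma glue_dir (j : ℕ) : (glue s w w' (jumpCount w s + j)).2 = (w' j).2 := by
  cases j with
  | zero => rw [add_zero, glue_eq h hs]
  | succ j => rw [show jumpCount w s + (j + 1) = jumpCount w s + 1 + j by omega, glue_gt h hs]

lemma jumpTime_glue_le {n : ℕ} (hn : n ≤ jumpCount w s) :
    jumpTime (glue s w w') n = jumpTime w n := by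
  unfold jumpTime
  exact sum_congr rfl fun i hi => by rw [glue_lt h hs (lt_of_lt_of_le (mem_range.1 hi) hn)]

lemma jumpTime_glue_gt (j : ℕ) :
    jumpTime (glue s w w') (jumpCount w s + 1 + j) = s + jumpTime w' (j + 1) := by
  induction j with
  | zero =>
    rw [add_zero, jumpTime_succ, jumpTime_glue_le h hs le_rfl, glue_eq h hs, jumpTime_succ]
    simp only [jumpTime_zero]
    ring
  | succ j ih =>
    rw [← add_assoc, jumpTime_succ, ih, glue_gt h hs, jumpTime_succ (j + 1)]
    ring

include h'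

lemma good_glue : Good (glue s w w') := by
  constructor
  · intro i
    rcases lt_trichotomy i (jumpCount w s) with hi | hi | hi
    · rw [glue_lt h hs hi]; exact h.1 i
    · rw [hi, glue_eq h hs]
      have := h.jumpTime_jumpCount_le hs
      have := h'.1 0
      simp only
      linarith
    · obtain ⟨j, rfl⟩ : ∃ j, i = jumpCount w s + 1 + j := ⟨i - (jumpCount w s + 1), by omega⟩
      rw [glue_gt h hs]; exact h'.1 _
  · intro t
    obtain ⟨n, hn⟩ := h'.2 t
    refine ⟨jumpCount w s + 1 + n, ?_⟩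
    rw [jumpTime_glue_gt h hs]
    have := h'.strictMono (Nat.lt_succ_self n)
    linarith

lemma jumpCount_glue_le {u : ℝ} (hu : 0 ≤ u) (hus : u ≤ s) :
    jumpCount (glue s w w') u = jumpCount w u := by
  have hm := h.jumpCount_mono hu hus
  apply (good_glue h h' hs).jumpCount_eq
  · rw [jumpTime_glue_le h hs hm]; exact h.jumpTime_jumpCount_le hu
  · rcases hm.lt_or_eq with h1 | h1
    · rw [jumpTime_glue_le h hs h1]; exact h.lt_jumpTime_succ hu
    · rw [h1, ← add_zero (jumpCount w s + 1), jumpTime_glue_gt h hs]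
      have := h'.strictMono (Nat.lt_succ_self 0)
      rw [jumpTime_zero] at this
      linarith

lemma jumpCount_glue_add {u : ℝ} (hu : 0 ≤ u) :
    jumpCount (glue s w w') (s + u) = jumpCount w s + jumpCount w' u := by
  apply (good_glue h h' hs).jumpCount_eq
  · rcases Nat.eq_zero_or_pos (jumpCount w' u) with h1 | h1
    · rw [h1, add_zero, jumpTime_glue_le h hs le_rfl]
      linarith [h.jumpTime_jumpCount_le hs]
    · obtain ⟨j, hj⟩ : ∃ j, jumpCount w' u = j + 1 := ⟨jumpCount w' u - 1, by omega⟩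
      have := h'.jumpTime_jumpCount_le hu
      rw [hj] at this ⊢
      rw [show jumpCount w s + (j + 1) = jumpCount w s + 1 + j by omega, jumpTime_glue_gt h hs]
      linarith
  · rw [show jumpCount w s + jumpCount w' u + 1 = jumpCount w s + 1 + jumpCount w' u by omega,
      jumpTime_glue_gt h hs]
    linarith [h'.lt_jumpTime_succ hu]

lemma disp_glue_le {u : ℝ} (hu : 0 ≤ u) (hus : u ≤ s) :
    disp (glue s w w') u = disp w u := by
  unfold disp
  rw [jumpCount_glue_le h h' hs hu hus]
  exact sum_congr rfl fun i hi => by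
    rw [glue_lt h hs (lt_of_lt_of_le (mem_range.1 hi) (h.jumpCount_mono hu hus))]

lemma disp_glue_add {u : ℝ} (hu : 0 ≤ u) :
    disp (glue s w w') (s + u) = disp w s + disp w' u := by
  unfold disp
  rw [jumpCount_glue_add h h' hs hu, sum_range_add]
  congr 1
  · exact sum_congr rfl fun i hi => by rw [glue_lt h hs (mem_range.1 hi)]
  · exact sum_congr rfl fun i _ => by rw [glue_dir h hs]

end

/-- Reversing all directions. -/
def flip (w : Clock d) : Clock d := fun n => ((w n).1, ((w n).2.1, !(w n).2.2))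

lemma disp_flip (w : Clock d) (t : ℝ) : disp (flip w) t = - disp w t := by
  have e : jumpCount (flip w) t = jumpCount w t := rfl
  unfold disp
  rw [e, ← sum_neg_distrib]
  refine sum_congr rfl fun i _ => ?_
  unfold step flip
  ext j
  cases (w i).2.2 <;> simp [Pi.single_apply] <;> split_ifs <;> simp

end Pool.Agent.MP_0e9fac_pr

end

-- part MP_0e9fac_pr.Chain
section

/-! The finite system is the limit of the systems in which annihilation happens on a time grid. -/

set_option autoImplicit false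
open Finset Filter
open scoped Classical

namespace Pool.Agent.MP_0e9fac_pr

variable {d : ℕ}

/-- The colours. -/
def col (ω : Conf d) : Site d → Bool := fun z => (ω z).1

/-- All walks are good. -/
def GoodC (ω : Conf d) : Prop := ∀ z, Good (ω z).2

variable [P : Prio d]

/-- Annihilation applied at the times `δ, 2 δ, ...`. -/
noncomputable def grid (c : Site d → Bool) (X : ℝ → Site d → Site d) (A : Finset (Site d))
    (δ : ℝ) : ℕ → Finset (Site d)
  | 0 => A
  | i + 1 => resolve P.pr c (X ((i + 1 : ℕ) * δ)) (grid c X A δ i)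

section grid
variable {c c' : Site d → Bool} {X X' : ℝ → Site d → Site d} {A B : Finset (Site d)} {δ : ℝ}

lemma grid_subset (i : ℕ) : grid c X A δ i ⊆ A := by
  induction i with
  | zero => exact Subset.rfl
  | succ i ih => exact resolve_subset.trans ih

lemma grid_congr (i : ℕ) (hc : ∀ w ∈ A, c w = c' w)
    (hX : ∀ j : ℕ, j ≤ i → ∀ w ∈ A, X (j * δ) w = X' (j * δ) w) :
    grid c X A δ i = grid c' X' A δ i := by
  induction i with
  | zero => rfl
  | succ i ih =>
    simp only [grid]
    rw [← ih fun j hj => hX j (by omega)]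
    exact resolve_congr (fun w hw => hc w (grid_subset i hw))
      (fun w hw => hX (i + 1) le_rfl w (grid_subset i hw))

lemma grid_dom {κ : Bool} (h : Dom κ c A B) (i : ℕ) : Dom κ c (grid c X A δ i) (grid c X B δ i) := by
  induction i with
  | zero => exact h
  | succ i ih => exact ih.resolve

lemma grid_SS_one (x : Site d → Site d) (i : ℕ) :
    SS c x (grid c X A δ i) (fun _ => 1) = SS c x A (fun _ => 1) := by
  induction i with
  | zero => rfl
  | succ i ih => exact (SS_resolve (x := X ((i + 1 : ℕ) * δ)) (fun _ => 1)).trans ih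

lemma grid_loss {w : Site d} (hw : w ∈ A) (i : ℕ) (h : w ∉ grid c X A δ i) :
    ∃ j : ℕ, j ≤ i ∧ ∃ v ∈ A, X (j * δ) v = X (j * δ) w ∧ c v ≠ c w := by
  induction i with
  | zero => exact absurd hw h
  | succ i ih =>
    by_cases hi : w ∈ grid c X A δ i
    · obtain ⟨v, hv, h1⟩ := exists_of_not_mem_resolve hi h
      exact ⟨i + 1, le_rfl, v, grid_subset i hv, h1⟩
    · obtain ⟨j, hj, h1⟩ := ih hi
      exact ⟨j, by omega, h1⟩

omit P in
lemma grid_shift (P Q : Prio d) (a : Site d) (hp : ∀ w, Q.pr (w + a) = P.pr w)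
    (hc : ∀ w, c' (w + a) = c w) (hX : ∀ r w, X' r (w + a) = X r w + a)
    (i : ℕ) : grid (P := Q) c' X' (A.map (addRightEmbedding a)) δ i =
      (grid (P := P) c X A δ i).map (addRightEmbedding a) := by
  induction i with
  | zero => rfl
  | succ i ih =>
    simp only [grid]
    rw [ih]
    exact resolve_shift a hp hc (hX _)

lemma grid_succ' (i : ℕ) : grid c X A δ (i + 1) =
    grid c (fun r => X (δ + r)) (resolve P.pr c (X δ) A) δ i := by
  induction i with
  | zero => simp [grid]
  | succ i ih =>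
    rw [grid, ih, grid]
    congr 2
    push_cast; ring

end grid

variable {ω : Conf d} {F : Finset (Site d)}

lemma mem_times (h : GoodC ω) {t r : ℝ} (ht : 0 ≤ t) :
    r ∈ times ω F t ↔ r ≤ t ∧ ∃ z ∈ F, ∃ n, 1 ≤ n ∧ jumpTime (ω z).2 n = r := by
  simp only [times, mem_biUnion, mem_image, mem_Icc]
  constructor
  · rintro ⟨z, hz, n, ⟨h1, h2⟩, rfl⟩
    exact ⟨((h z).le_jumpCount_iff ht).1 h2, z, hz, n, h1, rfl⟩
  · rintro ⟨hr, z, hz, n, h1, rfl⟩
    exact ⟨z, hz, n, ⟨h1, ((h z).le_jumpCount_iff ht).2 hr⟩, rfl⟩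

lemma pos_of_mem_times (h : GoodC ω) {t r : ℝ} (ht : 0 ≤ t) (hr : r ∈ times ω F t) : 0 < r := by
  obtain ⟨_, z, _, n, h1, rfl⟩ := (mem_times h ht).1 hr
  simpa using (h z).strictMono (show 0 < n by omega)

lemma times_mono (h : GoodC ω) {u t : ℝ} (hu : 0 ≤ u) (hut : u ≤ t) :
    times ω F u = (times ω F t).filter (· ≤ u) := by
  ext r
  rw [mem_filter, mem_times h hu, mem_times h (hu.trans hut)]
  constructor
  · rintro ⟨h1, h2⟩; exact ⟨⟨h1.trans hut, h2⟩, h1⟩
  · rintro ⟨⟨_, h2⟩, h1⟩; exact ⟨h1, h2⟩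

lemma pos_eq_of_no_jump (h : GoodC ω) {u t : ℝ} (hu : 0 ≤ u) (hut : u ≤ t)
    (hno : ∀ r ∈ times ω F t, r ≤ u) {z : Site d} (hz : z ∈ F) : pos ω t z = pos ω u z := by
  have : jumpCount (ω z).2 t = jumpCount (ω z).2 u := by
    refine le_antisymm ?_ ((h z).jumpCount_mono hu hut)
    rcases Nat.eq_zero_or_pos (jumpCount (ω z).2 t) with h0 | h0
    · omega
    · rw [(h z).le_jumpCount_iff hu]
      exact hno _ ((mem_times h (hu.trans hut)).2
        ⟨(h z).jumpTime_jumpCount_le (hu.trans hut), z, hz, _, h0, rfl⟩)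
  unfold pos disp
  rw [this]

lemma pos_zero (h : GoodC ω) (z : Site d) : pos ω 0 z = z := by
  simp [pos, (h z).disp_zero]

lemma sort_insert_max (s : Finset ℝ) {j : ℝ} (hj : ∀ r ∈ s, r < j) :
    (insert j s).sort (· ≤ ·) = s.sort (· ≤ ·) ++ [j] := by
  have hjs : j ∉ s := fun h => lt_irrefl _ (hj j h)
  have hn : (s.sort (· ≤ ·) ++ [j]).Nodup := by
    rw [List.nodup_append]
    refine ⟨sort_nodup _ _, List.nodup_singleton _, ?_⟩
    intro a ha b hb
    rw [List.mem_singleton] at hb
    rw [mem_sort] at ha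
    rw [hb]
    exact (hj a ha).ne
  have e : insert j s = (s.sort (· ≤ ·) ++ [j]).toFinset := by
    ext a; simp [or_comm]
  rw [e, List.toFinset_sort _ hn, List.pairwise_append]
  refine ⟨pairwise_sort _ _, List.pairwise_singleton _ _, ?_⟩
  intro a ha b hb
  rw [List.mem_singleton] at hb
  rw [mem_sort] at ha
  rw [hb]
  exact (hj a ha).le

lemma foldl_subset (L : List ℝ) (A : Finset (Site d)) :
    L.foldl (fun A s => resolve P.pr (fun z => (ω z).1) (pos ω s) A) A ⊆ A := by
  induction L generalizing A with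
  | nil => exact Subset.rfl
  | cons a L ih => exact (ih _).trans resolve_subset

lemma alive_subset (t : ℝ) : alive P.pr ω F t ⊆ F := foldl_subset _ _

lemma alive_of_times_empty {t : ℝ} (h0 : times ω F t = ∅) : alive P.pr ω F t = F := by
  simp [alive, h0]

lemma times_zero (h : GoodC ω) : times ω F 0 = ∅ :=
  eq_empty_of_forall_notMem fun r hr =>
    absurd ((mem_times h le_rfl).1 hr).1 (not_le.2 (pos_of_mem_times h le_rfl hr))

lemma alive_zero (h : GoodC ω) : alive P.pr ω F 0 = F := alive_of_times_empty (times_zero h)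

lemma alive_mono (h : GoodC ω) {t : ℝ} (ht : 0 ≤ t) : Mono (col ω) (pos ω t) (alive P.pr ω F t) := by
  rcases (times ω F t).eq_empty_or_nonempty with h0 | hne
  · rw [alive_of_times_empty h0]
    intro v hv w hw hvw
    rw [pos_eq_of_no_jump h le_rfl ht (by simp [h0]) hv,
      pos_eq_of_no_jump h le_rfl ht (by simp [h0]) hw, pos_zero h, pos_zero h] at hvw
    rw [hvw]
  · set j := (times ω F t).max' hne with hj
    have hjm : j ∈ times ω F t := max'_mem _ _
    have e : times ω F t = insert j ((times ω F t).erase j) := (insert_erase hjm).symm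
    have hlt : ∀ r ∈ (times ω F t).erase j, r < j := fun r hr =>
      lt_of_le_of_ne (le_max' _ _ (mem_of_mem_erase hr)) (ne_of_mem_erase hr)
    have e2 : alive P.pr ω F t = resolve P.pr (col ω) (pos ω j)
        ((((times ω F t).erase j).sort (· ≤ ·)).foldl
          (fun A s => resolve P.pr (fun z => (ω z).1) (pos ω s) A) F) := by
      unfold alive
      conv_lhs => rw [e, sort_insert_max _ hlt, List.foldl_append]
      rfl
    have hm : Mono (col ω) (pos ω j) (alive P.pr ω F t) := by rw [e2]; exact mono_resolve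
    refine hm.congr fun w hw => ?_
    exact (pos_eq_of_no_jump h (pos_of_mem_times h ht hjm).le ((mem_times h ht).1 hjm).1
      (fun r hr => le_max' _ _ hr) (alive_subset t hw)).symm

lemma alive_eq_of_no_jump (h : GoodC ω) {u t : ℝ} (hu : 0 ≤ u) (hut : u ≤ t)
    (hno : ∀ r ∈ times ω F t, r ≤ u) : alive P.pr ω F t = alive P.pr ω F u := by
  have : times ω F u = times ω F t := by
    rw [times_mono h hu hut]; exact filter_true_of_mem hno
  unfold alive
  rw [this]

lemma alive_step (h : GoodC ω) {u t : ℝ} (hu : 0 ≤ u) (hut : u ≤ t)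
    (h1 : ∀ a ∈ times ω F t, ∀ b ∈ times ω F t, u < a → u < b → a = b) :
    alive P.pr ω F t = resolve P.pr (col ω) (pos ω t) (alive P.pr ω F u) := by
  by_cases hno : ∀ r ∈ times ω F t, r ≤ u
  · rw [alive_eq_of_no_jump h hu hut hno, resolve_of_mono]
    exact (alive_mono h hu).congr fun w hw =>
      (pos_eq_of_no_jump h hu hut hno (alive_subset u hw)).symm
  · push Not at hno
    obtain ⟨j, hj, huj⟩ := hno
    have e : times ω F t = insert j (times ω F u) := by
      rw [times_mono h hu hut]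
      ext r
      rw [mem_insert, mem_filter]
      constructor
      · intro hr
        by_cases hru : r ≤ u
        · exact Or.inr ⟨hr, hru⟩
        · exact Or.inl (h1 r hr j hj (not_le.1 hru) huj)
      · rintro (rfl | hr)
        exacts [hj, hr.1]
    have hlt : ∀ r ∈ times ω F u, r < j := fun r hr => lt_of_le_of_lt ((mem_times h hu).1 hr).1 huj
    have e2 : alive P.pr ω F t = resolve P.pr (col ω) (pos ω j) (alive P.pr ω F u) := by
      unfold alive
      conv_lhs => rw [e, sort_insert_max _ hlt, List.foldl_append]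
      rfl
    rw [e2]
    refine resolve_congr (fun _ _ => rfl) fun w hw => ?_
    refine (pos_eq_of_no_jump h (hu.trans huj.le) ((mem_times h (hu.trans hut)).1 hj).1
      (fun r hr => ?_) (alive_subset u hw)).symm
    by_cases hru : r ≤ u
    · exact hru.trans huj.le
    · exact (h1 r hr j hj (not_le.1 hru) huj).le

lemma chain_alive (h : GoodC ω) {u t : ℝ} (hu : 0 ≤ u) (ht : 0 ≤ t) :
    ∀ᶠ m : ℕ in atTop, alive P.pr ω F (u + t) =
      grid (col ω) (fun r => pos ω (u + r)) (alive P.pr ω F u) (t / m) m := by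
  have hsep : ∀ᶠ m : ℕ in atTop, ∀ a ∈ times ω F (u + t), ∀ b ∈ times ω F (u + t),
      a ≠ b → t / m < |a - b| := by
    rw [eventually_all_finset]
    intro a _
    rw [eventually_all_finset]
    intro b _
    by_cases hab : a = b
    · simp [hab]
    · have := (tendsto_const_div_atTop_nhds_zero_nat t).eventually
        (gt_mem_nhds (abs_pos.2 (sub_ne_zero.2 hab)))
      filter_upwards [this] with m hm _ using hm
  filter_upwards [hsep, eventually_gt_atTop 0] with m hm hm0
  have hm0' : (0 : ℝ) < m := by exact_mod_cast hm0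
  have hδ : 0 ≤ t / m := div_nonneg ht hm0'.le
  have key : ∀ i : ℕ, i ≤ m → alive P.pr ω F (u + i * (t / m)) =
      grid (col ω) (fun r => pos ω (u + r)) (alive P.pr ω F u) (t / m) i := by
    intro i
    induction i with
    | zero => intro _; simp [grid]
    | succ i ih =>
      intro hi
      have hi0 : 0 ≤ u + i * (t / m) := by positivity
      have hle : u + i * (t / m) ≤ u + (i + 1 : ℕ) * (t / m) := by
        push_cast; nlinarith
      have hle2 : u + (i + 1 : ℕ) * (t / m) ≤ u + t := by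
        have : ((i + 1 : ℕ) : ℝ) ≤ m := by exact_mod_cast hi
        have h2 : ((i + 1 : ℕ) : ℝ) * (t / m) ≤ m * (t / m) := mul_le_mul_of_nonneg_right this hδ
        rw [mul_div_cancel₀ _ hm0'.ne'] at h2
        linarith
      rw [alive_step h hi0 hle, ih (by omega)]
      · rfl
      · intro a ha b hb h1 h2
        by_contra hab
        have ha2 := ((mem_times h (hi0.trans hle)).1 ha).1
        have hb2 := ((mem_times h (hi0.trans hle)).1 hb).1
        rw [times_mono h (hi0.trans hle) hle2] at ha hb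
        have := hm a (mem_filter.1 ha).1 b (mem_filter.1 hb).1 hab
        push_cast at ha2 hb2
        rcases abs_cases (a - b) with h3 | h3 <;> nlinarith [h3.1]
  have := key m le_rfl
  rwa [mul_div_cancel₀ _ hm0'.ne'] at this

/-- A measurable version of `alive`. -/
noncomputable def al (ω : Conf d) (F : Finset (Site d)) (t : ℝ) : Finset (Site d) :=
  F.filter fun w => ∀ᶠ m : ℕ in atTop, w ∈ grid (col ω) (pos ω) F (t / m) m

lemma al_subset (t : ℝ) : al ω F t ⊆ F := filter_subset _ _

lemma al_eq (h : GoodC ω) {t : ℝ} (ht : 0 ≤ t) : al ω F t = alive P.pr ω F t := by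
  have := chain_alive (F := F) h le_rfl ht
  simp only [zero_add, alive_zero h] at this
  ext w
  rw [al, mem_filter]
  constructor
  · rintro ⟨_, hw⟩
    obtain ⟨m, h1, h2⟩ := (this.and hw).exists
    rw [h1]; exact h2
  · intro hw
    refine ⟨alive_subset t hw, ?_⟩
    filter_upwards [this] with m hm
    rw [← hm]; exact hw

lemma chain (h : GoodC ω) {u t : ℝ} (hu : 0 ≤ u) (ht : 0 ≤ t) :
    ∀ᶠ m : ℕ in atTop, al ω F (u + t) =
      grid (col ω) (fun r => pos ω (u + r)) (al ω F u) (t / m) m := by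
  rw [al_eq h hu, al_eq h (add_nonneg hu ht)]
  exact chain_alive h hu ht

lemma al_zero (h : GoodC ω) : al ω F 0 = F := by rw [al_eq h le_rfl, alive_zero h]

lemma chain0 (h : GoodC ω) {t : ℝ} (ht : 0 ≤ t) :
    ∀ᶠ m : ℕ in atTop, al ω F t = grid (col ω) (pos ω) F (t / m) m := by
  have := chain (F := F) h le_rfl ht
  simpa only [zero_add, al_zero h] using this

lemma al_mono (h : GoodC ω) {t : ℝ} (ht : 0 ≤ t) : Mono (col ω) (pos ω t) (al ω F t) := by
  rw [al_eq h ht]; exact alive_mono h ht

lemma al_anti (h : GoodC ω) {u t : ℝ} (hu : 0 ≤ u) (hut : u ≤ t) : al ω F t ⊆ al ω F u := by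
  obtain ⟨m, hm⟩ := (chain (F := F) h hu (sub_nonneg.2 hut)).exists
  rw [add_sub_cancel] at hm
  rw [hm]; exact grid_subset m

lemma al_loss (h : GoodC ω) {u t : ℝ} (hu : 0 ≤ u) (hut : u ≤ t) {w : Site d} (hw : w ∈ al ω F u)
    (hw' : w ∉ al ω F t) : ∃ r, u ≤ r ∧ r ≤ t ∧ ∃ v ∈ al ω F u,
      pos ω r v = pos ω r w ∧ col ω v ≠ col ω w := by
  obtain ⟨m, hm, hm0⟩ := ((chain (F := F) h hu (sub_nonneg.2 hut)).and (eventually_gt_atTop 0)).exists
  rw [add_sub_cancel] at hm
  rw [hm] at hw'
  obtain ⟨j, hj, v, hv, h1⟩ := grid_loss hw m hw'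
  have hm0' : (0 : ℝ) < m := by exact_mod_cast hm0
  have hδ : 0 ≤ (t - u) / m := div_nonneg (sub_nonneg.2 hut) hm0'.le
  refine ⟨u + j * ((t - u) / m), by nlinarith [Nat.cast_nonneg (α := ℝ) j], ?_, v, hv, h1⟩
  have : (j : ℝ) ≤ m := by exact_mod_cast hj
  have h2 : (j : ℝ) * ((t - u) / m) ≤ m * ((t - u) / m) := mul_le_mul_of_nonneg_right this hδ
  rw [mul_div_cancel₀ _ hm0'.ne'] at h2
  linarith

lemma al_tracer (h : GoodC ω) {t : ℝ} (ht : 0 ≤ t) {z : Site d} (hz : z ∉ F) :
    ∃ u, (∀ g, sg (col ω z) * (SS (col ω) (pos ω t) (al ω (insert z F) t) g -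
        SS (col ω) (pos ω t) (al ω F t) g) = g (pos ω t u)) ∧
      (∀ κ g, |UU κ (col ω) (pos ω t) (al ω (insert z F) t) g -
        UU κ (col ω) (pos ω t) (al ω F t) g| ≤ |g (pos ω t u)|) ∧
      (z ∈ al ω (insert z F) t → al ω (insert z F) t = insert z (al ω F t)) := by
  obtain ⟨m, h1, h2⟩ := ((chain0 (F := F) h ht).and (chain0 (F := insert z F) h ht)).exists
  have hd : Dom (col ω z) (col ω) (insert z F) F := by
    refine ⟨fun w hw _ => mem_insert_of_mem hw, fun w hw hc => ?_⟩
    rcases mem_insert.1 hw with rfl | hw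
    · exact absurd rfl hc
    · exact hw
  have hd' : Dom (col ω z) (col ω) (al ω (insert z F) t) (al ω F t) := by
    rw [h1, h2]; exact grid_dom hd m
  have hs : SS (col ω) (pos ω t) (al ω (insert z F) t) (fun _ => 1) -
      SS (col ω) (pos ω t) (al ω F t) (fun _ => 1) = sg (col ω z) := by
    rw [h1, h2, grid_SS_one, grid_SS_one]
    unfold SS
    rw [sum_insert hz]; ring
  obtain ⟨u, a, b, c⟩ := tracer' hd' hs
  exact ⟨u, a, b, fun hh => c z hh fun h3 => hz (al_subset t h3)⟩

lemma al_congr {ω' : Conf d} {t : ℝ} (ht : 0 ≤ t) (hc : ∀ z ∈ F, col ω z = col ω' z)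
    (hp : ∀ r, 0 ≤ r → r ≤ t → ∀ z ∈ F, pos ω r z = pos ω' r z) : al ω F t = al ω' F t := by
  unfold al
  refine filter_congr fun w _ => eventually_congr ?_
  filter_upwards [eventually_gt_atTop 0] with m hm0
  have hm0' : (0 : ℝ) < m := by exact_mod_cast hm0
  have hδ : 0 ≤ t / m := div_nonneg ht hm0'.le
  rw [grid_congr (c' := col ω') (X' := pos ω') m hc]
  intro j hj
  refine hp _ (by positivity) ?_
  have : (j : ℝ) ≤ m := by exact_mod_cast hj
  have h2 : (j : ℝ) * (t / m) ≤ m * (t / m) := mul_le_mul_of_nonneg_right this hδ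
  rwa [mul_div_cancel₀ _ hm0'.ne'] at h2

lemma al_depends {ω' : Conf d} (t : ℝ) (hω : ∀ z ∈ F, ω z = ω' z) : al ω F t = al ω' F t := by
  unfold al
  refine filter_congr fun w _ => eventually_congr (Eventually.of_forall fun m => ?_)
  rw [grid_congr (c' := col ω') (X' := pos ω') m]
  · intro z hz; simp [col, hω z hz]
  · intro j _ z hz; simp [pos, hω z hz]

omit P in
lemma al_shift (P Q : Prio d) (a : Site d) (hp : ∀ w, Q.pr (w + a) = P.pr w) (t : ℝ) :
    al (P := Q) (fun z => ω (z - a)) (F.map (addRightEmbedding a)) t =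
      (al (P := P) ω F t).map (addRightEmbedding a) := by
  unfold al
  rw [filter_map]
  congr 1
  refine filter_congr fun w _ => eventually_congr (Eventually.of_forall fun m => ?_)
  rw [grid_shift P Q (c := col ω) (X := pos ω) a hp]
  · simp
  · intro w; simp [col]
  · intro r w; simp only [pos, add_sub_cancel_right]; abel

lemma al_right (h : GoodC ω) {t : ℝ} (ht : 0 ≤ t) : ∃ ε > 0, ∀ r, t ≤ r → r < t + ε →
    al ω F r = al ω F t ∧ ∀ z ∈ F, pos ω r z = pos ω t z := by
  have : ∃ ε > 0, ε ≤ 1 ∧ ∀ a ∈ times ω F (t + 1), t < a → t + ε ≤ a := by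
    rcases ((times ω F (t + 1)).filter (t < ·)).eq_empty_or_nonempty with h0 | hne
    · refine ⟨1, one_pos, le_rfl, fun a ha hta => ?_⟩
      exact absurd (mem_filter.2 ⟨ha, hta⟩) (by rw [h0]; exact notMem_empty _)
    · have hm := min'_mem _ hne
      rw [mem_filter] at hm
      refine ⟨min' _ hne - t, sub_pos.2 hm.2, ?_, fun a ha hta => ?_⟩
      · linarith [((mem_times h (by linarith)).1 hm.1).1]
      · have := min'_le _ a (mem_filter.2 ⟨ha, hta⟩ : a ∈ (times ω F (t + 1)).filter (t < ·))
        linarith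
  obtain ⟨ε, h0, h1, h2⟩ := this
  refine ⟨ε, h0, fun r h3 h4 => ?_⟩
  have hno : ∀ a ∈ times ω F r, a ≤ t := by
    intro a ha
    by_contra hh
    have ha2 := ((mem_times h (ht.trans h3)).1 ha).1
    rw [times_mono h (ht.trans h3) (show r ≤ t + 1 by linarith)] at ha
    have := h2 a (mem_filter.1 ha).1 (not_le.1 hh)
    linarith
  refine ⟨?_, fun z hz => pos_eq_of_no_jump h ht h3 hno hz⟩
  rw [al_eq h ht, al_eq h (ht.trans h3), alive_eq_of_no_jump h ht h3 hno]

end Pool.Agent.MP_0e9fac_pr

end
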