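import Pool.Agent.MP_0e9fac_pr.Mg.Heat

-- part MP_0e9fac_pr.Minority
section

/-! For `p > 1/2` the density of the minority colour is summable. -/

set_option autoImplicit false
open MeasureTheory ProbabilityTheory Filter Set
open scoped Classical ENNReal Topology

namespace Pool.Agent.MP_0e9fac_pr

variable {d : ℕ} [P : Prio d] [NeZero d] (p : unitInterval)

lemma Pt_exp_le {f : Site d → ℝ} (hf : NS f) {b θ : ℝ} (hb : ∀ y, f y ≤ b) (hθ : |θ| * b ≤ 1)
    (s : ℝ) (w : Site d) :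
    Pt s (fun y => Real.exp (θ * f y)) w ≤ 1 + (θ + θ ^ 2 * b) * Pt s f w := by
  have h1 : ∀ y, Real.exp (θ * f y) ≤ 1 + (θ + θ ^ 2 * b) * f y := by
    intro y
    have a : |θ * f y| ≤ 1 := by
      rw [abs_mul, abs_of_nonneg (hf.nonneg y)]
      exact (mul_le_mul_of_nonneg_left (hb y) (abs_nonneg θ)).trans hθ
    have c := (le_abs_self _).trans (Real.abs_exp_sub_one_sub_id_le a)
    have e : f y * f y ≤ b * f y := mul_le_mul_of_nonneg_right (hb y) (hf.nonneg y)
    nlinarith [sq_nonneg θ]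
  refine (Pt_mono (hf.bm.const_mul θ).exp ((BM.const 1).add (hf.bm.const_mul _)) h1 s w).trans
    (le_of_eq ?_)
  unfold Pt
  rw [integral_add (integrable_const _) ((bm_disp hf.bm w s).const_mul _).integrable,
    integral_const_mul]
  simp

omit [NeZero d] in
lemma SF_const_mul (c : ℝ) (f : Site d → ℝ) (F : Finset (Site d)) (s : ℝ) (ω : Conf d) :
    SF F s (fun y => c * f y) ω = c * SF F s f ω := by
  unfold SF SS
  rw [Finset.mul_sum]
  exact Finset.sum_congr rfl fun w _ => by ring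

lemma bad_one {m : ℝ} (hm : m = 2 * p - 1) (hm0 : 0 < m) {f : Site d → ℝ} (hf : NS f) {b : ℝ}
    (hb0 : 0 < b) (hb : ∀ y, f y ≤ b) (F : Finset (Site d)) {s : ℝ} (hs : 0 ≤ s)
    (hσ : 7 / 8 ≤ ∑ w ∈ F, Pt s f w) :
    (law d p).real {ω | SF F s f ω ≤ m / 2} ≤ Real.exp (- (5 * m ^ 2 / 128 / b)) := by
  have p0 : (0 : ℝ) ≤ p := p.2.1
  have p1 : (p : ℝ) ≤ 1 := p.2.2
  have hm1 : m ≤ 1 := by linarith
  set θ := m / (4 * b) with hθ
  have hθ0 : 0 < θ := by positivity
  have hθb : θ * b = m / 4 := by rw [hθ]; field_simp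
  have h1 := exp_SF_le p (hf.bm.const_mul (-θ)) F hs
  have h2 : ∀ w ∈ F, p * Pt s (fun y => Real.exp (-θ * f y)) w +
      (1 - p) * Pt s (fun y => Real.exp (- (-θ * f y))) w ≤
        Real.exp ((-θ * m + θ ^ 2 * b) * Pt s f w) := by
    intro w _
    have a1 := Pt_exp_le hf hb (θ := -θ) (by rw [abs_neg, abs_of_pos hθ0]; linarith) s w
    have a2 := Pt_exp_le hf hb (θ := θ) (by rw [abs_of_pos hθ0]; linarith) s w
    simp only [neg_mul, neg_neg] at a1 a2 ⊢
    refine le_trans ?_ (Real.add_one_le_exp _)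
    have a3 := mul_le_mul_of_nonneg_left a1 p0
    have a4 := mul_le_mul_of_nonneg_left a2 (sub_nonneg.2 p1)
    rw [hm]
    nlinarith
  have h3 := h1.trans (Finset.prod_le_prod (fun w _ => add_nonneg
    (mul_nonneg p0 (Pt_nonneg (fun _ => (Real.exp_pos _).le) _ _))
    (mul_nonneg (sub_nonneg.2 p1) (Pt_nonneg (fun _ => (Real.exp_pos _).le) _ _))) h2)
  rw [← Real.exp_sum, ← Finset.mul_sum] at h3
  have h4 := markov (μ := law d p) (bm_SF (hf.bm.const_mul (-θ)) F s).exp
    (fun _ => (Real.exp_pos _).le) (Real.exp_pos (-θ * (m / 2)))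
  refine le_trans (measureReal_mono fun ω hω => ?_) (h4.trans ?_)
  · simp only [mem_ofPred_eq, SF_const_mul, Real.exp_le_exp] at hω ⊢
    nlinarith
  · rw [div_le_iff₀ (Real.exp_pos _), ← Real.exp_add]
    refine h3.trans (Real.exp_le_exp.2 ?_)
    have e1 : θ ^ 2 * b = θ * (m / 4) := by rw [← hθb]; ring
    have e2 : 5 * m ^ 2 / 128 / b = 5 / 32 * (θ * m) := by rw [hθ]; field_simp; ring
    rw [e1, e2]
    have : 0 < θ * m := by positivity
    nlinarith

lemma bad_two {f : Site d → ℝ} (hf : NS f) (hf1 : ∑' y, f y ≤ 1) {b : ℝ}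
    (hb0 : 0 < b) (hb : ∀ y, f y ≤ b) (F : Finset (Site d)) (s : ℝ) :
    (law d p).real {ω | 2 ≤ ∑ w ∈ F, f (pos ω s w)} ≤ Real.exp (- (1 / 4 / b)) := by
  set θ := 1 / (2 * b) with hθ
  have hθ0 : 0 < θ := by positivity
  have hθb : θ * b = 1 / 2 := by rw [hθ]; field_simp
  have h1 := free_exp_SS p (hf.bm.const_mul θ) (fun _ => true) (fun w => w) F s
  have e : ∀ ω : Conf d, SS (fun _ => true) (fun w => w + disp (ω w).2 s) F (fun y => θ * f y) =
      θ * ∑ w ∈ F, f (pos ω s w) := fun ω => by simp [SS, sg, pos, Finset.mul_sum]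
  simp only [e, sg, if_true, one_mul] at h1
  have h2 : ∏ w ∈ F, Pt s (fun y => Real.exp (θ * f y)) w ≤ Real.exp (3 / 2 * θ) := by
    refine (Finset.prod_le_prod (fun w _ => Pt_nonneg (fun _ => (Real.exp_pos _).le) _ _)
      (g := fun w => Real.exp ((θ + θ ^ 2 * b) * Pt s f w)) fun w _ => ?_).trans ?_
    · refine (Pt_exp_le hf hb (by rw [abs_of_pos hθ0]; linarith) s w).trans ?_
      rw [add_comm]; exact Real.add_one_le_exp _
    · rw [← Real.exp_sum, ← Finset.mul_sum, Real.exp_le_exp]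
      have e1 : θ ^ 2 * b = θ * (1 / 2) := by rw [← hθb]; ring
      have := (sum_Pt_le hf s F).trans hf1
      rw [e1]
      nlinarith
  have hb' : BM fun ω : Conf d => Real.exp (θ * ∑ w ∈ F, f (pos ω s w)) :=
    ((BM.sum F fun w _ => bm_pos hf.bm s w).const_mul θ).exp
  have h4 := markov (μ := law d p) hb' (fun _ => (Real.exp_pos _).le) (Real.exp_pos (θ * 2))
  refine le_trans (measureReal_mono fun ω hω => ?_) (h4.trans ?_)
  · simp only [mem_ofPred_eq, Real.exp_le_exp] at hω ⊢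
    nlinarith
  · rw [div_le_iff₀ (Real.exp_pos _), ← Real.exp_add, h1]
    refine h2.trans (Real.exp_le_exp.2 (le_of_eq ?_))
    rw [hθ]; field_simp; ring

lemma one_step {m : ℝ} (hm0 : 0 < m) {ω : Conf d} (hω : GoodC ω) (F : Finset (Site d)) {s : ℝ}
    (hs : 0 ≤ s) (l : ℕ) (x : Site d) (h1 : m / 2 ≤ SF F s (Pt l (dl x)) ω)
    (h2 : ∑ w ∈ F, Pt l (dl x) (pos ω s w) ≤ 2) :
    ∫ ω', ind (UF true F (s + l) (dl x) (Gam s (ω, ω')) = 0) ∂law d p ≤ 1 - m ^ 2 / 96 := by
  have hb := bm_Gam (bm_UF (ns_dl x).bm true F (s + l)) hs ω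
  have a1 : m / 2 ≤ ∫ ω', UF true F (s + l) (dl x) (Gam s (ω, ω')) ∂law d p := by
    rw [← cond_SF p (ns_dl x).bm hω F hs (Nat.cast_nonneg l)] at h1
    refine h1.trans ((bm_Gam (bm_SF (ns_dl x).bm F _) hs ω).integral_mono hb
      (Eventually.of_forall fun ω' => ?_))
    have e : SF F (s + l) (dl x) (Gam s (ω, ω')) = UF true F (s + l) (dl x) (Gam s (ω, ω')) -
      UF false F (s + l) (dl x) (Gam s (ω, ω')) := SS_eq_UU _
    linarith [UF_nonneg (ns_dl x).nonneg false F (s + l) (Gam s (ω, ω'))]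
  have a2 := cond_sq p hω true F hs {l} x (G := 1) fun y => by
    simp only [Finset.sum_singleton, one_mul]
    refine le_of_eq (integral_congr_ae (Eventually.of_forall fun w => ?_))
    simp only [dl, ind]
    split_ifs <;> simp
  simp only [OC, Finset.sum_singleton, one_mul] at a2
  have a3 : UF true F s (fun y => Pt l (dl x) y) ω ≤ 2 :=
    ((UU_le_sum ((ns_dl x).Pt l).nonneg).trans (Finset.sum_le_sum_of_subset_of_nonneg (al_subset s)
      fun w _ _ => ((ns_dl x).Pt l).nonneg _)).trans h2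
  have a4 := UF_nonneg ((ns_dl x).Pt l).nonneg true F s ω
  have a5 : ∫ ω', UF true F (s + l) (dl x) (Gam s (ω, ω')) ^ 2 ∂law d p ≤ 6 := by nlinarith
  have a6 := pz (μ := law d p) hb le_rfl (L := 24 / m) (by positivity)
  have hm : MeasurableSet {ω' | 0 < UF true F (s + l) (dl x) (Gam s (ω, ω'))} :=
    measurableSet_lt measurable_const hb.meas
  have a7 : ∫ ω', ind (UF true F (s + l) (dl x) (Gam s (ω, ω')) = 0) ∂law d p =
      1 - (law d p).real {ω' | 0 < UF true F (s + l) (dl x) (Gam s (ω, ω'))} := by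
    rw [← probReal_compl_eq_one_sub hm, Set.compl_ofPred, ← integral_ind (p := fun ω' =>
      ¬ 0 < UF true F (s + l) (dl x) (Gam s (ω, ω'))) hm.compl]
    refine integral_congr_ae (Eventually.of_forall fun ω' => ind_congr ?_)
    have := UF_nonneg (ns_dl x).nonneg true F (s + l) (Gam s (ω, ω'))
    constructor
    · intro h; rw [h]; exact lt_irrefl _
    · intro h; exact le_antisymm (not_lt.1 h) this
  rw [a7]
  have a8 : (∫ ω', UF true F (s + l) (dl x) (Gam s (ω, ω')) ^ 2 ∂law d p) / (24 / m) ≤ m / 4 := by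
    rw [div_le_iff₀ (by positivity)]
    refine a5.trans (le_of_eq ?_)
    field_simp; norm_num
  have a9 : m / 4 ≤ 24 / m * (law d p).real {ω' | 0 < UF true F (s + l) (dl x) (Gam s (ω, ω'))} := by
    linarith
  rw [div_mul_eq_mul_div, le_div_iff₀ hm0] at a9
  nlinarith

lemma iteration {m : ℝ} (hm : m = 2 * p - 1) (hm0 : 0 < m) {l : ℕ} {b : ℝ} (hb0 : 0 < b)
    (hb : ∀ x y : Site d, Pt l (dl x) y ≤ b) (F : Finset (Site d)) (x : ℕ → Site d) (K : ℕ)
    (hσ : ∀ i < K, 7 / 8 ≤ ∑ w ∈ F, Pt ((i + 1 : ℕ) * l) (dl (x i)) w) :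
    ∫ ω, ind (∀ i < K, UF true F ((i + 1 : ℕ) * l) (dl (x i)) ω = 0) ∂law d p ≤
      (1 - m ^ 2 / 96) ^ K + 2 * K * Real.exp (- (5 * m ^ 2 / 128 / b)) := by
  have hm1 : m ≤ 1 := by linarith [p.2.2]
  have hc : 0 ≤ 1 - m ^ 2 / 96 := by nlinarith
  have hme : ∀ i, MeasurableSet {ω | UF true F ((i + 1 : ℕ) * l) (dl (x i)) ω = 0} := fun i =>
    (bm_UF (ns_dl _).bm true F _).meas (measurableSet_singleton 0)
  have hmE : ∀ K, MeasurableSet {ω | ∀ i < K, UF true F ((i + 1 : ℕ) * l) (dl (x i)) ω = 0} :=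
    fun K => measurableSet_setOfPred.2 (Measurable.forall fun i =>
      measurable_const.imp (measurableSet_setOfPred.1 (hme i)))
  induction K with
  | zero => simp [ind]
  | succ K ih =>
    have ih' := ih fun i hi => hσ i (by omega)
    have hs : (0 : ℝ) ≤ K * l := by positivity
    have e : ((K + 1 : ℕ) : ℝ) * l = K * l + l := by push_cast; ring
    have hf := (ns_dl (x K)).Pt l
    have m1 : MeasurableSet {ω | SF F (K * l) (Pt l (dl (x K))) ω ≤ m / 2} :=
      measurableSet_le (bm_SF hf.bm F _).meas measurable_const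
    have m2 : MeasurableSet {ω : Conf d | 2 ≤ ∑ w ∈ F, Pt l (dl (x K)) (pos ω (K * l) w)} :=
      measurableSet_le measurable_const (BM.sum F fun w _ => bm_pos hf.bm _ w).meas
    have b1 := (BM.ind (hmE K)).const_mul (1 - m ^ 2 / 96)
    have h1 := le_of_glue p (BM.ind (hmE (K + 1))) ((b1.add (BM.ind m1)).add (BM.ind m2)) hs
      fun ω hω => by
        have e2 : ∫ ω', ind (∀ i < K + 1,
            UF true F ((i + 1 : ℕ) * l) (dl (x i)) (Gam (K * l) (ω, ω')) = 0) ∂law d p =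
            ind (∀ i < K, UF true F ((i + 1 : ℕ) * l) (dl (x i)) ω = 0) *
              ∫ ω', ind (UF true F (K * l + l) (dl (x K)) (Gam (K * l) (ω, ω')) = 0) ∂law d p := by
          rw [← integral_const_mul]
          refine integral_congr_ae ?_
          filter_upwards [ae_goodC p] with ω' hω'
          rw [← ind_and, ← e]
          refine ind_congr (Nat.forall_lt_succ_right.trans (and_congr_left fun _ =>
            forall_congr' fun i => imp_congr_right fun hi => ?_))
          rw [UF_Gam_le hω hω' hs _ _ _ (by positivity)]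
          exact mul_le_mul_of_nonneg_right (by exact_mod_cast hi) (Nat.cast_nonneg l)
        rw [e2]
        have i0 := ind_nonneg (∀ i < K, UF true F ((i + 1 : ℕ) * l) (dl (x i)) ω = 0)
        have i1 := ind_le_one (∀ i < K, UF true F ((i + 1 : ℕ) * l) (dl (x i)) ω = 0)
        have i2 := ind_nonneg (SF F (K * l) (Pt l (dl (x K))) ω ≤ m / 2)
        have i3 := ind_nonneg (2 ≤ ∑ w ∈ F, Pt l (dl (x K)) (pos ω (K * l) w))
        have j1 : ∫ ω', ind (UF true F (K * l + l) (dl (x K)) (Gam (K * l) (ω, ω')) = 0) ∂law d p ≤ 1 :=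
          (le_abs_self _).trans (abs_integral_le fun _ => abs_ind_le _)
        by_cases c1 : SF F (K * l) (Pt l (dl (x K))) ω ≤ m / 2
        · rw [ind_pos c1]; nlinarith [mul_nonneg hc i0]
        by_cases c2 : 2 ≤ ∑ w ∈ F, Pt l (dl (x K)) (pos ω (K * l) w)
        · rw [ind_pos c2]; nlinarith [mul_nonneg hc i0]
        have := one_step p hm0 hω F hs l (x K) (not_le.1 c1).le (not_le.1 c2).le
        nlinarith [mul_le_mul_of_nonneg_left this i0]
    rw [integral_add (b1.add (BM.ind m1)).integrable (BM.ind m2).integrable,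
      integral_add b1.integrable (BM.ind m1).integrable, integral_const_mul, integral_ind m1,
      integral_ind m2] at h1
    have h2 := bad_one p hm hm0 hf hb0 (hb _) F hs (by
      have := hσ K (by omega)
      rw [e] at this
      simpa only [Pt_add (ns_dl (x K)).bm hs (Nat.cast_nonneg l)] using this)
    have h3 := bad_two p hf (by rw [tsum_Pt (ns_dl _), (hasSum_dl _).tsum_eq]) hb0 (hb _) F (K * l)
    have h4 : Real.exp (- (1 / 4 / b)) ≤ Real.exp (- (5 * m ^ 2 / 128 / b)) := by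
      rw [Real.exp_le_exp, neg_le_neg_iff]
      exact div_le_div_of_nonneg_right (by nlinarith) hb0.le
    have h5 := mul_le_mul_of_nonneg_left ih' hc
    have h6 : 0 ≤ 2 * K * Real.exp (- (5 * m ^ 2 / 128 / b)) := by positivity
    have h7 : (1 - m ^ 2 / 96) * (2 * K * Real.exp (- (5 * m ^ 2 / 128 / b))) ≤
        2 * K * Real.exp (- (5 * m ^ 2 / 128 / b)) :=
      mul_le_of_le_one_left h6 (by nlinarith)
    refine h1.trans ?_
    rw [pow_succ (1 - m ^ 2 / 96) K, Nat.cast_succ]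
    rw [mul_add] at h5
    linarith

lemma tagged {m : ℝ} (hm : m = 2 * p - 1) (hm0 : 0 < m) {l : ℕ} {b : ℝ} (hb0 : 0 < b)
    (hb1 : b ≤ 1 / 16) (hb : ∀ x y : Site d, Pt l (dl x) y ≤ b) (K : ℕ) {t : ℝ} (ht : K * l ≤ t)
    (F : Finset (Site d)) {z : Site d} (hz : z ∈ F) :
    ∫ ω, (if z ∈ al ω F t then if col ω z = false then dl 0 (pos ω t z) else 0 else 0) ∂law d p ≤
      ∫ w, dl 0 (z + disp w t) *
        (((1 - m ^ 2 / 96) ^ K + 2 * K * Real.exp (- (5 * m ^ 2 / 128 / b))) +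
          ind (∃ i < K, ∑ v ∈ F, Pt ((i + 1 : ℕ) * l)
            (dl (disp w ((i + 1 : ℕ) * l) - disp w t)) v < 15 / 16)) ∂clockLaw d := by
  have hm1 : m ≤ 1 := by linarith [p.2.2]
  have hc : 0 ≤ 1 - m ^ 2 / 96 := by nlinarith
  have ht0 : 0 ≤ t := le_trans (by positivity) ht
  set B := (1 - m ^ 2 / 96) ^ K + 2 * K * Real.exp (- (5 * m ^ 2 / 128 / b)) with hB
  have hB0 : 0 ≤ B := by positivity
  have m1 : ∀ s, MeasurableSet {ω : Conf d | UF true (F.erase z) s (dl (pos ω s z)) ω = 0} :=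
    fun s => measurable_index (f := fun y ω => UF true (F.erase z) s (dl y) ω)
      ((measurable_pi_apply z).comp (measurable_pos s))
      (fun y => (bm_UF (ns_dl y).bm true _ s).meas) (measurableSet_singleton 0)
  have m2 : MeasurableSet {ω : Conf d | ∀ i < K,
      UF true (F.erase z) ((i + 1 : ℕ) * l) (dl (pos ω ((i + 1 : ℕ) * l) z)) ω = 0} :=
    measurableSet_setOfPred.2 (Measurable.forall fun i =>
      measurable_const.imp (measurableSet_setOfPred.1 (m1 _)))
  have m3 : MeasurableSet {w : Clock d | ∃ i < K, ∑ v ∈ F, Pt ((i + 1 : ℕ) * l)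
      (dl (disp w ((i + 1 : ℕ) * l) - disp w t)) v < 15 / 16} :=
    measurableSet_setOfPred.2 (Measurable.exists fun i => measurable_const.and
      (measurableSet_setOfPred.1 (measurableSet_lt ((measurable_of_countable
        fun y : Site d => ∑ v ∈ F, Pt ((i + 1 : ℕ) * l) (dl y) v).comp
          ((measurable_disp _).sub (measurable_disp t))) measurable_const)))
  have b1 := (bm_pos (ns_dl (0 : Site d)).bm t z).mul (BM.ind m2)
  have b2 := (bm_disp (ns_dl (0 : Site d)).bm z t).mul ((BM.const B).add (BM.ind m3))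
  refine le_trans ((BM.ite (measurableSet_mem (measurable_al F t) z) (BM.ite
    (measurableSet_col z false) (bm_pos (ns_dl 0).bm t z) (BM.const 0)) (BM.const 0)).integral_mono
      b1 ?_) ?_
  · filter_upwards [ae_goodC p] with ω hω
    split_ifs with h1 h2
    · rw [ind_pos, mul_one]
      intro i hi
      have hs0 : (0 : ℝ) ≤ (i + 1 : ℕ) * l := by positivity
      have hst : ((i + 1 : ℕ) : ℝ) * l ≤ t :=
        le_trans (mul_le_mul_of_nonneg_right (by exact_mod_cast hi) (Nat.cast_nonneg l)) ht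
      have hz' := al_anti hω hs0 hst h1
      obtain ⟨u, _, _, h3⟩ := al_tracer hω hs0 (Finset.notMem_erase z F)
      rw [Finset.insert_erase hz] at h3
      refine Finset.sum_eq_zero fun v hv => ?_
      split_ifs with hc
      · refine ind_neg fun hp => ?_
        have := al_mono hω hs0 v (by rw [h3 hz']; exact Finset.mem_insert_of_mem hv) z hz' hp
        rw [hc, h2] at this
        exact absurd this (by simp)
      · rfl
    · exact mul_nonneg (ind_nonneg _) (ind_nonneg _)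
    · exact mul_nonneg (ind_nonneg _) (ind_nonneg _)
  · rw [← integral_clock p b2.meas z, law_eq, integral_eq_iter' (mp_rs (nu d p) {z}) b1]
    refine ((b1.comp ((mp_rs (nu d p) {z}).measurable.comp measurable_swap)).integral _).integral_mono
      (b2.comp (φ := fun ω : Conf d => (ω z).2) (by fun_prop)) (Eventually.of_forall fun ω' => ?_)
    have e1 : ∀ (ω : Conf d) s, pos (rs {z} (ω, ω')) s z = z + disp (ω' z).2 s := fun ω s => by
      simp [pos, rs]
    have e2 : ∀ (ω : Conf d) s g, UF true (F.erase z) s g (rs {z} (ω, ω')) =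
        UF true (F.erase z) s g ω := fun ω s g =>
      dependsOn_UF g true _ s fun v hv => if_neg (Finset.ne_of_mem_erase hv)
    simp only [Function.comp, Prod.swap_prod_mk, e1, e2, integral_const_mul]
    by_cases h0 : z + disp (ω' z).2 t = 0
    swap
    · simp [dl, ind_neg h0]
    refine mul_le_mul_of_nonneg_left ?_ (ind_nonneg _)
    by_cases h1 : ∃ i < K, ∑ v ∈ F, Pt ((i + 1 : ℕ) * l)
      (dl (disp (ω' z).2 ((i + 1 : ℕ) * l) - disp (ω' z).2 t)) v < 15 / 16
    · rw [ind_pos h1]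
      exact ((le_abs_self _).trans (abs_integral_le fun _ => abs_ind_le _)).trans
        (le_add_of_nonneg_left hB0)
    · rw [ind_neg h1, add_zero]
      push Not at h1
      refine iteration p hm hm0 hb0 hb (F.erase z) (fun i => z + disp (ω' z).2 ((i + 1 : ℕ) * l)) K
        fun i hi => ?_
      have a1 := h1 i hi
      have a2 : disp (ω' z).2 ((i + 1 : ℕ) * l) - disp (ω' z).2 t =
          z + disp (ω' z).2 ((i + 1 : ℕ) * l) := by
        rw [eq_neg_of_add_eq_zero_right h0]; abel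
      rw [a2, ← Finset.add_sum_erase F _ hz] at a1
      have a3 : Pt ((i + 1 : ℕ) * l) (dl (z + disp (ω' z).2 ((i + 1 : ℕ) * l))) z ≤ b := by
        have e : ((i + 1 : ℕ) : ℝ) * l = i * l + l := by push_cast; ring
        generalize z + disp (ω' z).2 ((i + 1 : ℕ) * l) = y
        rw [e, Pt_add (ns_dl y).bm (by positivity) (Nat.cast_nonneg l)]
        exact Pt_le ((ns_dl y).Pt l).bm (hb y) _ _
      linarith

lemma rho_minority {m : ℝ} (hm : m = 2 * p - 1) (hm0 : 0 < m) {l : ℕ} {b : ℝ} (hb0 : 0 < b)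
    (hb1 : b ≤ 1 / 16) (hb : ∀ x y : Site d, Pt l (dl x) y ≤ b) (K : ℕ) {t : ℝ} (ht : K * l ≤ t) :
    rho d p false t ≤ (1 - m ^ 2 / 96) ^ K + 2 * K * Real.exp (- (5 * m ^ 2 / 128 / b)) := by
  have hm1 : m ≤ 1 := by linarith [p.2.2]
  have hc : 0 ≤ 1 - m ^ 2 / 96 := by nlinarith
  have ht0 : 0 ≤ t := le_trans (by positivity) ht
  set B := (1 - m ^ 2 / 96) ^ K + 2 * K * Real.exp (- (5 * m ^ 2 / 128 / b)) with hB
  have hB0 : 0 ≤ B := by positivity
  have m3 : ∀ F : Finset (Site d), MeasurableSet {w : Clock d | ∃ i < K, ∑ v ∈ F,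
      Pt ((i + 1 : ℕ) * l) (dl (disp w ((i + 1 : ℕ) * l) - disp w t)) v < 15 / 16} := fun F =>
    measurableSet_setOfPred.2 (Measurable.exists fun i => measurable_const.and
      (measurableSet_setOfPred.1 (measurableSet_lt ((measurable_of_countable
        fun y : Site d => ∑ v ∈ F, Pt ((i + 1 : ℕ) * l) (dl y) v).comp
          ((measurable_disp _).sub (measurable_disp t))) measurable_const)))
  have hlim : Tendsto (fun F : Finset (Site d) => ∫ w, (B + ind (∃ i < K, ∑ v ∈ F,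
      Pt ((i + 1 : ℕ) * l) (dl (disp w ((i + 1 : ℕ) * l) - disp w t)) v < 15 / 16)) ∂clockLaw d)
      atTop (𝓝 (∫ _ : Clock d, B ∂clockLaw d)) := by
    refine tendsto_integral_filter_of_dominated_convergence (fun _ => B + 1)
      (Eventually.of_forall fun F => ((BM.const B).add (BM.ind (m3 F))).meas.aestronglyMeasurable)
      (Eventually.of_forall fun F => Eventually.of_forall fun w => ?_) (integrable_const _)
      (Eventually.of_forall fun w => tendsto_const_nhds.congr' ?_)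
    · rw [Real.norm_of_nonneg (add_nonneg hB0 (ind_nonneg _))]
      exact add_le_add le_rfl (ind_le_one _)
    · have : ∀ᶠ F : Finset (Site d) in atTop, ∀ i ∈ Finset.range K, 15 / 16 < ∑ v ∈ F,
          Pt ((i + 1 : ℕ) * l) (dl (disp w ((i + 1 : ℕ) * l) - disp w t)) v := by
        rw [eventually_all_finset]
        intro i _
        have := hasSum_Pt (ns_dl (disp w ((i + 1 : ℕ) * l) - disp w t)) ((i + 1 : ℕ) * l)
        rw [(hasSum_dl _).tsum_eq] at this
        exact Tendsto.eventually this (lt_mem_nhds (by norm_num))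
      filter_upwards [this] with F hF
      rw [ind_neg, add_zero]
      rintro ⟨i, hi, h⟩
      exact absurd h (not_lt.2 (hF i (Finset.mem_range.2 hi)).le)
  simp only [integral_const, probReal_univ, one_smul] at hlim
  refine le_of_tendsto_of_tendsto' (tendsto_rho_dl p false ht0 0) hlim fun F => ?_
  have e : uu p false t (dl 0) F = ∑ z ∈ F, ∫ ω, (if z ∈ al ω F t then
      if col ω z = false then dl 0 (pos ω t z) else 0 else 0) ∂law d p := by
    rw [← integral_finsetSum _ fun z _ => (BM.ite (measurableSet_mem (measurable_al F t) z) (BM.ite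
      (measurableSet_col z false) (bm_pos (ns_dl 0).bm t z) (BM.const 0)) (BM.const 0)).integrable]
    refine integral_congr_ae (Eventually.of_forall fun ω => ?_)
    simp only
    rw [Finset.sum_ite_mem, Finset.inter_eq_right.2 (al_subset t)]
    rfl
  rw [e]
  refine (Finset.sum_le_sum fun z hz => tagged p hm hm0 hb0 hb1 hb K ht F hz).trans ?_
  have b2 := fun z => (bm_disp (ns_dl (0 : Site d)).bm z t).mul ((BM.const B).add (BM.ind (m3 F)))
  rw [← integral_finsetSum _ fun z _ => (b2 z).integrable]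
  refine (BM.sum F fun z _ => b2 z).integral_mono ((BM.const B).add (BM.ind (m3 F)))
    (Eventually.of_forall fun w => ?_)
  rw [← Finset.sum_mul]
  refine mul_le_of_le_one_left (add_nonneg hB0 (ind_nonneg _)) ?_
  have := (ns_dl (0 : Site d)).summable.sum_le_tsum (F.map (addRightEmbedding (disp w t)))
    fun y _ => (ns_dl 0).nonneg y
  rw [(hasSum_dl _).tsum_eq] at this
  simpa [Finset.sum_map] using this

omit [NeZero d] in
lemma exp_neg_le {x : ℝ} (hx : 0 < x) (n : ℕ) : Real.exp (-x) ≤ n.factorial / x ^ n := by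
  have := Real.pow_div_factorial_le_exp x hx.le n
  rw [Real.exp_neg, inv_eq_one_div, div_le_div_iff₀ (Real.exp_pos _) (by positivity), one_mul]
  rw [div_le_iff₀ (by positivity)] at this
  linarith

lemma HH_le {k : ℝ} (hk : 1 ≤ k) : HH d k ≤ (Real.sqrt k)⁻¹ :=
  pow_le_of_le_one (by positivity) (inv_le_one_of_one_le₀ (Real.one_le_sqrt.2 hk)) (NeZero.ne d)

lemma summable_minority (hp : 1 / 2 < (p : ℝ)) : Summable fun k : ℕ => rho d p false k := by
  obtain ⟨C, hC, h⟩ := heat_upper (d := d)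
  set m : ℝ := 2 * p - 1 with hm
  have hm0 : 0 < m := by linarith
  have hm1 : m ≤ 1 := by linarith [p.2.2]
  set c1 := m ^ 2 / 96 with hc1
  set c2 := 5 * m ^ 2 / 128 / C with hc2
  have c10 : 0 < c1 := by positivity
  have c20 : 0 < c2 := by positivity
  set A : ℝ := (Nat.factorial 4 : ℝ) / c1 ^ 4 + 2 * ((Nat.factorial 10 : ℝ) / c2 ^ 10) with hA
  have hA0 : 0 ≤ A := by positivity
  obtain ⟨J, hJ⟩ := exists_nat_ge ((16 * C) ^ 2 + 1)
  refine Summable.of_norm_bounded_eventually_nat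
    ((Real.summable_one_div_nat_pow.2 one_lt_two).mul_left (16 * A)) ?_
  filter_upwards [eventually_ge_atTop (J * J)] with k hk
  set j := Nat.sqrt k with hj
  have hJj : (J : ℝ) ≤ j := by exact_mod_cast Nat.le_sqrt.2 hk
  have hj1 : (1 : ℝ) ≤ j := by nlinarith [sq_nonneg (16 * C)]
  have hs0 : 0 < Real.sqrt j := Real.sqrt_pos.2 (by linarith)
  have hs : 16 * C ≤ Real.sqrt j := Real.le_sqrt_of_sq_le (by linarith)
  have h1 := rho_minority (d := d) p hm hm0 (l := j) (b := C / Real.sqrt j) (by positivity)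
    (by rw [div_le_iff₀ hs0]; linarith)
    (fun x y => (h j (by exact_mod_cast hj1) y x).trans (by
      rw [div_eq_mul_inv]; exact mul_le_mul_of_nonneg_left (HH_le hj1) hC.le)) j (t := k)
    (by exact_mod_cast Nat.sqrt_le k)
  rw [Real.norm_of_nonneg (rho_nonneg p false (Nat.cast_nonneg k))]
  refine h1.trans ?_
  have a1 : (1 - c1) ^ j ≤ (Nat.factorial 4 : ℝ) / c1 ^ 4 / (j : ℝ) ^ 4 := by
    refine (pow_le_pow_left₀ (by rw [hc1]; nlinarith) (Real.one_sub_le_exp_neg c1) j).trans ?_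
    rw [← Real.exp_nat_mul, mul_neg, div_div, ← mul_pow, mul_comm c1]
    exact exp_neg_le (by positivity) 4
  have a2 : 2 * j * Real.exp (- (5 * m ^ 2 / 128 / (C / Real.sqrt j))) ≤
      2 * ((Nat.factorial 10 : ℝ) / c2 ^ 10) / (j : ℝ) ^ 4 := by
    have e : 5 * m ^ 2 / 128 / (C / Real.sqrt j) = c2 * Real.sqrt j := by rw [hc2]; field_simp
    have e2 : Real.sqrt j ^ 10 = (j : ℝ) ^ 5 := by
      rw [show 10 = 2 * 5 by norm_num, pow_mul, Real.sq_sqrt (by linarith)]
    rw [e]
    refine (mul_le_mul_of_nonneg_left (exp_neg_le (by positivity) 10) (by positivity)).trans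
      (le_of_eq ?_)
    rw [mul_pow, e2]
    field_simp
  have a3 : (k : ℝ) ≤ 4 * (j : ℝ) ^ 2 := by
    have : k < (j + 1) * (j + 1) := Nat.lt_succ_sqrt k
    have h3 : (k : ℝ) < (j + 1) * (j + 1) := by exact_mod_cast this
    nlinarith
  have hk0 : (0 : ℝ) < k := by
    have : ((j * j : ℕ) : ℝ) ≤ k := by exact_mod_cast Nat.sqrt_le k
    push_cast at this
    nlinarith
  have a4 : A / (j : ℝ) ^ 4 ≤ 16 * A * (1 / (k : ℝ) ^ 2) := by
    rw [mul_one_div, div_le_div_iff₀ (by positivity) (by positivity)]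
    have : (k : ℝ) ^ 2 ≤ (4 * (j : ℝ) ^ 2) ^ 2 := pow_le_pow_left₀ hk0.le a3 2
    nlinarith
  refine le_trans ?_ a4
  rw [hA, add_div]
  exact add_le_add a1 a2

lemma not_visits_of_summable (κ : Bool) (hs : Summable fun k : ℕ => rho d p κ k) :
    ∀ᵐ ω ∂law d p, ¬ VisitsInfinitelyOften P.pr ω κ := by
  have h0 : ∀ k : ℕ, 0 ≤ rho d p κ k * ∑' y, phi (d := d) y + (1 / 2 : ℝ) ^ k := fun k =>
    add_nonneg (mul_nonneg (rho_nonneg p κ (Nat.cast_nonneg k)) ns_phi.tsum_nonneg) (by positivity)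
  have hs2 : Summable fun k : ℕ => rho d p κ k * ∑' y, phi (d := d) y + (1 / 2 : ℝ) ^ k :=
    (hs.mul_right _).add summable_geometric_two
  have h : ∀ᵐ ω ∂law d p, ∀ᶠ k : ℕ in atTop, ω ∉ {ω | ∀ᶠ n in atTop, ω ∈ {ω : Conf d |
      ∃ w ∈ al ω (cube d n) k, col ω w = κ ∧ nrm (pos ω k w) ≤ JN k w ω}} := by
    refine ae_eventually_notMem (ne_top_of_le_ne_top (hs2.tsum_ofReal_ne_top)
      (ENNReal.tsum_le_tsum fun k => ?_))
    rw [← ofReal_measureReal]
    refine ENNReal.ofReal_le_ofReal (measure_eventually_le ?_)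
    have h1 := ((tendsto_uu p (ns_phi (d := d)) κ (Nat.cast_nonneg k)).comp tendsto_cube).eventually
      (gt_mem_nhds (lt_add_of_pos_right _ (show (0 : ℝ) < (1 / 2) ^ k by positivity)))
    filter_upwards [h1] with n hn
    exact (range_bound p κ _ (Nat.cast_nonneg k)).trans hn.le
  filter_upwards [h, ae_goodC p] with ω hω hg hV
  obtain ⟨K, hK⟩ := eventually_atTop.1 hω
  obtain ⟨t, ht, h1⟩ := hV K
  have ht0 : 0 ≤ t := (Nat.cast_nonneg K).trans ht
  refine hK ⌊t⌋₊ (Nat.le_floor ht) ?_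
  filter_upwards [h1] with n hn
  obtain ⟨w, hw⟩ := Finset.card_pos.1 hn
  rw [Finset.mem_filter, ← al_eq hg ht0] at hw
  refine ⟨w, al_anti hg (Nat.cast_nonneg _) (Nat.floor_le ht0) hw.1, hw.2.1, ?_⟩
  have := nrm_pos_sub hg (Nat.cast_nonneg ⌊t⌋₊) le_rfl (Nat.floor_le ht0) (Nat.lt_floor_add_one t).le w
  rwa [hw.2.2, zero_sub, nrm_neg] at this

end Pool.Agent.MP_0e9fac_pr

end

-- part MP_0e9fac_pr.Scales
section

/-! The balanced case: lower bounds for the density and good scales. -/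

set_option autoImplicit false
open MeasureTheory ProbabilityTheory Filter Set
open scoped Classical ENNReal Topology

namespace Pool.Agent.MP_0e9fac_pr

lemma good_scales {r : ℕ → ℝ} {c β C : ℝ} (hc : 0 < c) (hβ : 0 < β) (hC : 0 < C)
    (h0 : ∀ j, 0 ≤ r j) (h1 : ∀ j, r j ≤ 1) (hlow : ∀ j, c * β ^ j ≤ r j ^ 2)
    (hrec : ∀ j, r (j + 1) - r (j + 2) ≤ C * 2 ^ j * r j ^ 2) :
    ∃ K > 0, ∃ ε > 0, ∀ J, ∃ j ≥ J, r j ≤ K * r (j + 1) ∧ ε ≤ 2 ^ j * r j := by
  have hpos : ∀ j, 0 < r j := fun j => by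
    have : 0 < r j ^ 2 := lt_of_lt_of_le (by positivity) (hlow j)
    exact lt_of_le_of_ne (h0 j) fun h => by rw [← h] at this; simp at this
  set K : ℝ := 2 + 1 / β with hK
  have hK2 : 2 ≤ K := by rw [hK]; exact le_add_of_nonneg_right (by positivity)
  have hK0 : 0 < K := by linarith
  have hKβ : 1 < β * K ^ 2 := by
    have : β * K = 2 * β + 1 := by rw [hK]; field_simp
    nlinarith
  refine ⟨K, hK0, 1 / (4 * C * K), by positivity, fun J => ?_⟩
  have step1 : ∃ j ≥ J, r j ≤ K * r (j + 1) := by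
    by_contra hh
    push Not at hh
    have a : ∀ i, K ^ i * r (J + i) ≤ 1 := by
      intro i
      induction i with
      | zero => simpa using h1 J
      | succ i ih =>
        have := hh (J + i) (by omega)
        rw [pow_succ, mul_assoc, ← add_assoc]
        exact (mul_le_mul_of_nonneg_left this.le (by positivity)).trans ih
    have b : ∀ i, (β * K ^ 2) ^ i ≤ 1 / (c * β ^ J) := by
      intro i
      have b1 : (K ^ i * r (J + i)) ^ 2 ≤ 1 := pow_le_one₀ (mul_nonneg (by positivity) (h0 _)) (a i)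
      have b2 := mul_le_mul_of_nonneg_left (hlow (J + i)) (show 0 ≤ (K ^ i) ^ 2 by positivity)
      rw [le_div_iff₀ (by positivity)]
      calc (β * K ^ 2) ^ i * (c * β ^ J) = (K ^ i) ^ 2 * (c * β ^ (J + i)) := by
            rw [mul_pow, pow_add, ← pow_mul, ← pow_mul, mul_comm 2 i]; ring
        _ ≤ _ := b2
        _ = (K ^ i * r (J + i)) ^ 2 := by ring
        _ ≤ 1 := b1
    obtain ⟨i, hi⟩ := ((tendsto_pow_atTop_atTop_of_one_lt hKβ).eventually_gt_atTop
      (1 / (c * β ^ J))).exists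
    exact absurd (b i) (not_le.2 hi)
  obtain ⟨j0, hj0, hP⟩ := step1
  by_contra hh
  push Not at hh
  have next : ∀ j ≥ J, r j ≤ K * r (j + 1) → 3 / 4 * r (j + 1) ≤ r (j + 2) := by
    intro j hj hPj
    have a := hh j hj hPj
    have b := hrec j
    have e : C * 2 ^ j * r j ^ 2 = C * (2 ^ j * r j) * r j := by ring
    have f : C * (2 ^ j * r j) * r j ≤ C * (1 / (4 * C * K)) * (K * r (j + 1)) :=
      mul_le_mul (mul_le_mul_of_nonneg_left a.le hC.le) hPj (h0 j) (by positivity)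
    have g : C * (1 / (4 * C * K)) * (K * r (j + 1)) = 1 / 4 * r (j + 1) := by field_simp
    linarith
  have a : ∀ i, r (j0 + i) ≤ K * r (j0 + i + 1) ∧ (3 / 4) ^ i * r (j0 + 1) ≤ r (j0 + i + 1) := by
    intro i
    induction i with
    | zero => exact ⟨hP, by simp⟩
    | succ i ih =>
      have := next (j0 + i) (by omega) ih.1
      rw [← add_assoc, pow_succ]
      constructor
      · nlinarith [h0 (j0 + i + 1)]
      · nlinarith [ih.2]
  have b : ∀ i, (3 / 2 : ℝ) ^ i ≤ 1 / (4 * C * K) / r (j0 + 1) := by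
    intro i
    have b1 := hh (j0 + (i + 1)) (by omega) (a (i + 1)).1
    have b2 := (a i).2
    rw [le_div_iff₀ (hpos _)]
    have b3 : (2 : ℝ) ^ i ≤ 2 ^ (j0 + (i + 1)) := pow_le_pow_right₀ one_le_two (by omega)
    calc (3 / 2 : ℝ) ^ i * r (j0 + 1) = 2 ^ i * ((3 / 4) ^ i * r (j0 + 1)) := by
          rw [← mul_assoc, ← mul_pow]; norm_num
      _ ≤ 2 ^ (j0 + (i + 1)) * r (j0 + (i + 1)) :=
          mul_le_mul b3 b2 (mul_nonneg (by positivity) (h0 _)) (by positivity)
      _ ≤ _ := b1.le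
  obtain ⟨i, hi⟩ := ((tendsto_pow_atTop_atTop_of_one_lt
    (show (1 : ℝ) < 3 / 2 by norm_num)).eventually_gt_atTop (1 / (4 * C * K) / r (j0 + 1))).exists
  exact absurd (b i) (not_le.2 hi)

variable {d : ℕ}

lemma HH_nonneg (k : ℝ) : 0 ≤ HH d k := by unfold HH; positivity

lemma HH_pos {k : ℝ} (hk : 0 < k) : 0 < HH d k := by
  have := Real.sqrt_pos.2 hk
  unfold HH; positivity

lemma HH_anti {k l : ℝ} (hk : 0 < k) (h : k ≤ l) : HH d l ≤ HH d k :=
  pow_le_pow_left₀ (by positivity) (inv_anti₀ (Real.sqrt_pos.2 hk) (Real.sqrt_le_sqrt h)) d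

lemma HH_two_pow (j : ℕ) : HH d ((2 ^ j : ℕ) : ℝ) = ((Real.sqrt 2)⁻¹ ^ d) ^ j := by
  have : Real.sqrt ((2 ^ j : ℕ) : ℝ) = Real.sqrt 2 ^ j := by
    rw [Real.sqrt_eq_iff_mul_self_eq (by positivity) (by positivity), ← mul_pow,
      Real.mul_self_sqrt zero_le_two]
    push_cast; rfl
  rw [HH, this, ← inv_pow, ← pow_mul, ← pow_mul, mul_comm]

lemma HH_double {k : ℝ} (hk : 0 < k) : HH d k ≤ 2 ^ d * HH d (2 * k) := by
  rw [HH, HH, ← mul_pow]
  refine pow_le_pow_left₀ (by positivity) ?_ d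
  have h1 := Real.sqrt_pos.2 hk
  have h2 : 0 < Real.sqrt (2 * k) := Real.sqrt_pos.2 (by linarith)
  have h3 : Real.sqrt (2 * k) ≤ 2 * Real.sqrt k := by
    rw [Real.sqrt_le_left (by positivity), mul_pow, Real.sq_sqrt hk.le]; linarith
  rw [← div_eq_mul_inv, inv_eq_one_div, div_le_div_iff₀ h1 h2]
  linarith

lemma sum_inv_sqrt (n : ℕ) : ∑ j ∈ Finset.range (n + 1), (Real.sqrt j)⁻¹ ≤ 2 * Real.sqrt n := by
  induction n with
  | zero => simp
  | succ n ih =>
    rw [Finset.sum_range_succ]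
    have h1 : 0 < Real.sqrt ((n + 1 : ℕ) : ℝ) := Real.sqrt_pos.2 (by positivity)
    have h2 := Real.sq_sqrt (Nat.cast_nonneg (α := ℝ) n)
    have h3 := Real.sq_sqrt (Nat.cast_nonneg (α := ℝ) (n + 1))
    have h4 : (Real.sqrt ((n + 1 : ℕ) : ℝ))⁻¹ ≤ 2 * Real.sqrt ((n + 1 : ℕ) : ℝ) - 2 * Real.sqrt n := by
      rw [inv_eq_one_div, div_le_iff₀ h1]
      have h5 : ((n + 1 : ℕ) : ℝ) = n + 1 := by push_cast; ring
      nlinarith [sq_nonneg (Real.sqrt ((n + 1 : ℕ) : ℝ) - Real.sqrt n)]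
    linarith

variable [P : Prio d] [NeZero d]

lemma sum_HH : ∃ D > 0, ∀ n : ℕ, 1 ≤ n →
    ∑ j ∈ Finset.range n, HH d j ≤ D * (1 + n * Real.sqrt (HH d n)) := by
  have z : HH d ((0 : ℕ) : ℝ) = 0 := by simp [HH, NeZero.ne d]
  rcases le_or_gt d 2 with hd | hd
  · refine ⟨2, two_pos, fun n hn => ?_⟩
    have hn' : (1 : ℝ) ≤ n := by exact_mod_cast hn
    have a : ∑ j ∈ Finset.range n, HH d j ≤ ∑ j ∈ Finset.range (n + 1), (Real.sqrt j)⁻¹ := by
      refine le_trans (Finset.sum_le_sum fun j _ => ?_) (Finset.sum_le_sum_of_subset_of_nonneg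
        (Finset.range_subset_range.2 (Nat.le_succ n)) fun j _ _ => by positivity)
      rcases Nat.eq_zero_or_pos j with rfl | hj
      · rw [z]; positivity
      · exact HH_le (by exact_mod_cast hj)
    have hs : 0 < Real.sqrt n := Real.sqrt_pos.2 (by linarith)
    have b : (Real.sqrt n)⁻¹ ≤ Real.sqrt (HH d n) := Real.le_sqrt_of_sq_le
      (pow_le_pow_of_le_one (by positivity) (inv_le_one_of_one_le₀ (Real.one_le_sqrt.2 hn')) hd)
    have c : Real.sqrt n ≤ n * Real.sqrt (HH d n) := by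
      refine le_trans (le_of_eq ?_) (mul_le_mul_of_nonneg_left b (Nat.cast_nonneg n))
      rw [← div_eq_mul_inv, Real.div_sqrt]
    linarith [sum_inv_sqrt n]
  · have hs : Summable fun j : ℕ => ((j : ℝ) ^ (3 / 2 : ℝ))⁻¹ :=
      Real.summable_nat_rpow_inv.2 (by norm_num)
    have t0 : 0 ≤ ∑' j : ℕ, ((j : ℝ) ^ (3 / 2 : ℝ))⁻¹ := tsum_nonneg fun j => by positivity
    refine ⟨∑' j : ℕ, ((j : ℝ) ^ (3 / 2 : ℝ))⁻¹ + 1, by linarith, fun n _ => ?_⟩
    have a : ∑ j ∈ Finset.range n, HH d j ≤ ∑' j : ℕ, ((j : ℝ) ^ (3 / 2 : ℝ))⁻¹ := by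
      refine le_trans (Finset.sum_le_sum fun j _ => ?_) (hs.sum_le_tsum _ fun j _ => by positivity)
      rcases Nat.eq_zero_or_pos j with rfl | hj
      · rw [z]; positivity
      · have hj' : (1 : ℝ) ≤ j := by exact_mod_cast hj
        refine (pow_le_pow_of_le_one (by positivity)
          (inv_le_one_of_one_le₀ (Real.one_le_sqrt.2 hj')) hd).trans (le_of_eq ?_)
        rw [inv_pow, Real.sqrt_eq_rpow, ← Real.rpow_natCast, ← Real.rpow_mul (by positivity)]
        norm_num
    have b : 0 ≤ (n : ℝ) * Real.sqrt (HH d n) := by positivity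
    nlinarith

variable {p : unitInterval} (hp : (p : ℝ) = 1 / 2)
include hp

lemma cos_sum (b : Site d → ℝ) (F : Finset (Site d)) : ∀ α : ℝ,
    ∫ ω, Real.cos (α + ∑ w ∈ F, sg (col ω w) * b w) ∂law d p = Real.cos α * ∏ w ∈ F, Real.cos (b w) := by
  induction F using Finset.induction_on with
  | empty => intro α; simp
  | insert z F hz ih =>
    intro α
    have m1 : Measurable fun ω : Conf d => α + sg (col ω z) * b z :=
      ((bm_sg_col z).meas.mul_const _).const_add _
    have m2 : Measurable fun ω : Conf d => ∑ w ∈ F, sg (col ω w) * b w :=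
      (BM.sum F fun w _ => (bm_sg_col w).mul (BM.const _)).meas
    have d1 : ∀ G : ℝ → ℝ, DependsOn (fun ω : Conf d => G (α + sg (col ω z) * b z)) {z} :=
      fun G x y h => by simp only [col, h z rfl]
    have d2 : ∀ G : ℝ → ℝ, DependsOn (fun ω : Conf d => G (∑ w ∈ F, sg (col ω w) * b w)) {z}ᶜ :=
      fun G x y h => by
        dsimp only
        congr 1
        refine Finset.sum_congr rfl fun w hw => ?_
        simp only [col, h w fun hh => hz (by rw [← mem_singleton_iff.1 hh]; exact hw)]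
    have s1 : ∫ ω, Real.sin (∑ w ∈ F, sg (col ω w) * b w) ∂law d p = 0 := by
      have := ih (-(Real.pi / 2))
      simp only [neg_add_eq_sub, Real.cos_sub_pi_div_two, Real.cos_neg, Real.cos_pi_div_two,
        zero_mul] at this
      exact this
    have s2 := ih 0
    simp only [zero_add, Real.cos_zero, one_mul] at s2
    have s3 := integral_col (d := d) p (fun c => Real.cos (α + sg c * b z)) z
    simp_rw [Finset.sum_insert hz, Finset.prod_insert hz, ← add_assoc, Real.cos_add (α + _)]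
    rw [integral_sub ((BM.cos m1).mul (BM.cos m2)).integrable ((BM.sin m1).mul (BM.sin m2)).integrable,
      law_eq, integral_mul_of_dependsOn (nu d p) (BM.cos m1) (BM.cos m2) (d1 _) (d2 _),
      integral_mul_of_dependsOn (nu d p) (BM.sin m1) (BM.sin m2) (d1 _) (d2 _), ← law_eq, s1, s2, s3,
      hp]
    simp only [sg, if_true, one_mul, Bool.false_eq_true, if_false, neg_mul, Real.cos_add,
      Real.cos_neg, Real.sin_neg]
    ring

lemma khintchine (a : Site d → ℝ) (F : Finset (Site d)) :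
    (1 - Real.exp (- (2 / Real.pi ^ 2))) * Real.sqrt (∑ w ∈ F, a w ^ 2) ≤
      ∫ ω, |∑ w ∈ F, sg (col ω w) * a w| ∂law d p := by
  have hS : 0 ≤ ∑ w ∈ F, a w ^ 2 := Finset.sum_nonneg fun _ _ => sq_nonneg _
  rcases hS.eq_or_lt with h0 | h0
  · rw [← h0, Real.sqrt_zero, mul_zero]
    exact integral_nonneg fun _ => abs_nonneg _
  set σ := Real.sqrt (∑ w ∈ F, a w ^ 2) with hσ
  have hσ0 : 0 < σ := Real.sqrt_pos.2 h0
  have hσ2 : σ ^ 2 = ∑ w ∈ F, a w ^ 2 := Real.sq_sqrt hS
  have h1 := cos_sum hp (fun w => a w / σ) F 0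
  simp only [zero_add, Real.cos_zero, one_mul] at h1
  have h2 : ∏ w ∈ F, Real.cos (a w / σ) ≤ Real.exp (- (2 / Real.pi ^ 2)) := by
    have hb : ∀ w ∈ F, |a w / σ| ≤ 1 := by
      intro w hw
      rw [abs_div, abs_of_pos hσ0, div_le_one hσ0]
      exact Real.abs_le_sqrt (Finset.single_le_sum (f := fun w => a w ^ 2)
        (fun _ _ => sq_nonneg _) hw)
    refine (Finset.prod_le_prod (fun w hw => ?_)
      (g := fun w => Real.exp (- (2 / Real.pi ^ 2 * (a w / σ) ^ 2))) fun w hw => ?_).trans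
      (le_of_eq ?_)
    · have := abs_le.1 (hb w hw)
      exact Real.cos_nonneg_of_mem_Icc ⟨by linarith [Real.pi_gt_three, this.1],
        by linarith [Real.pi_gt_three, this.2]⟩
    · exact (Real.cos_le_one_sub_mul_cos_sq ((hb w hw).trans (by linarith [Real.pi_gt_three]))).trans
        (Real.one_sub_le_exp_neg _)
    · rw [← Real.exp_sum, Finset.sum_neg_distrib, ← Finset.mul_sum]
      simp_rw [div_pow]
      rw [← Finset.sum_div, ← hσ2, div_self (by positivity), mul_one]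
  have b1 := BM.sum F fun w _ => (bm_sg_col w).mul (BM.const (a w / σ))
  have b2 := BM.sum F fun w _ => (bm_sg_col w).mul (BM.const (a w))
  have h3 := ((BM.const 1).sub (BM.cos b1.meas)).integral_mono (μ := law d p)
    (b2.abs.const_mul σ⁻¹) (Eventually.of_forall fun ω => by
      have e : ∑ w ∈ F, sg (col ω w) * (a w / σ) = σ⁻¹ * ∑ w ∈ F, sg (col ω w) * a w := by
        rw [Finset.mul_sum]
        exact Finset.sum_congr rfl fun w _ => by ring
      have := Real.abs_cos_sub_cos_le 0 (∑ w ∈ F, sg (col ω w) * (a w / σ))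
      rw [Real.cos_zero, zero_sub, abs_neg] at this
      refine (le_abs_self _).trans (this.trans (le_of_eq ?_))
      rw [e, abs_mul, abs_of_pos (inv_pos.2 hσ0)])
  rw [integral_sub (integrable_const _) (BM.cos b1.meas).integrable, h1, integral_const_mul,
    ← div_eq_inv_mul, le_div_iff₀ hσ0] at h3
  simp only [integral_const, probReal_univ, smul_eq_mul, mul_one] at h3
  exact le_trans (mul_le_mul_of_nonneg_right (by linarith) hσ0.le) h3

lemma rho_eq (κ : Bool) {t : ℝ} (ht : 0 ≤ t) : rho d p κ t = rho d p true t := by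
  cases κ
  · have := rho_sub (d := d) p ht
    rw [hp] at this
    linarith
  · rfl

lemma rho_lower : ∃ c > 0, ∀ k : ℕ, 1 ≤ k → c * HH d k ≤ rho d p true k ^ 2 := by
  obtain ⟨c, hc, h⟩ := heat_lower (d := d)
  set c0 := 1 - Real.exp (- (2 / Real.pi ^ 2)) with hc0
  have c00 : 0 < c0 := by
    have : Real.exp (- (2 / Real.pi ^ 2)) < 1 := Real.exp_lt_one_iff.2 (by
      have : 0 < 2 / Real.pi ^ 2 := by positivity
      linarith)
    linarith
  refine ⟨c0 ^ 2 * c / 4, by positivity, fun k hk => ?_⟩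
  obtain ⟨B, hB⟩ := h k hk
  have hk0 : (0 : ℝ) ≤ k := Nat.cast_nonneg k
  have h1 := (tendsto_rho_dl (d := d) p true hk0 0).add (tendsto_rho_dl p false hk0 0)
  rw [rho_eq hp false hk0] at h1
  have h2 : c0 * Real.sqrt (c * HH d k) ≤ rho d p true k + rho d p true k := by
    refine ge_of_tendsto h1 ?_
    filter_upwards [eventually_ge_atTop B] with F hF
    have a1 : Real.sqrt (c * HH d k) ≤ Real.sqrt (∑ w ∈ F, Pt k (dl 0) w ^ 2) :=
      Real.sqrt_le_sqrt (hB.trans (Finset.sum_le_sum_of_subset_of_nonneg hF fun _ _ _ => sq_nonneg _))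
    refine (mul_le_mul_of_nonneg_left a1 c00.le).trans ((khintchine hp _ F).trans ?_)
    have b1 := bm_UF (ns_dl (0 : Site d)).bm true F k
    have b2 := bm_UF (ns_dl (0 : Site d)).bm false F k
    rw [uu, uu, ← integral_add b1.integrable b2.integrable]
    refine ge_of_glue p (b1.add b2) (BM.sum F fun w _ => (bm_sg_col w).mul (BM.const _)).abs le_rfl
      fun ω hω => ?_
    rw [← cond_SF_zero p (ns_dl 0).bm hω F hk0]
    refine abs_integral_le_integral_abs.trans ((bm_Gam (bm_SF (ns_dl 0).bm F k).abs le_rfl ω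
      ).integral_mono (bm_Gam (b1.add b2) le_rfl ω) (Eventually.of_forall fun ω' => ?_))
    have e : SF F k (dl 0) (Gam 0 (ω, ω')) = UF true F k (dl 0) (Gam 0 (ω, ω')) -
      UF false F k (dl 0) (Gam 0 (ω, ω')) := SS_eq_UU _
    have n1 := UF_nonneg (ns_dl (0 : Site d)).nonneg true F k (Gam 0 (ω, ω'))
    have n2 := UF_nonneg (ns_dl (0 : Site d)).nonneg false F k (Gam 0 (ω, ω'))
    simp only [e, abs_le]
    constructor <;> linarith
  have h3 := pow_le_pow_left₀ (by positivity) h2 2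
  rw [mul_pow, Real.sq_sqrt (mul_nonneg hc.le (HH_nonneg _))] at h3
  nlinarith

lemma rho_loss {s j a : ℝ} (hs : 0 ≤ s) (hj : 0 ≤ j) (ha : ∀ x y : Site d, Pt j (dl y) x ≤ a) :
    rho d p true (s + j) ≤ rho d p true (s + j + 1) +
      2 * (∑' y, phi (d := d) y) ^ 2 * (rho d p true s ^ 2 + a) := by
  have hφ := (ns_phi (d := d)).Pt j
  have hk : 0 ≤ s + j := add_nonneg hs hj
  have t1 := tendsto_uu p ((ns_dl (0 : Site d)).Pt 1) true hk
  rw [tsum_Pt (ns_dl 0), (hasSum_dl 0).tsum_eq, mul_one] at t1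
  have t2 := tendsto_rho_dl (d := d) p true (t := s + j + 1) (by linarith) 0
  have t3 := tendsto_uu p hφ true hs
  have t4 := tendsto_uu p hφ false hs
  rw [rho_eq hp false hs] at t4
  rw [tsum_Pt ns_phi] at t3 t4
  set Φ := ∑' y, phi (d := d) y with hΦ
  have t5 := t2.add (((t3.pow 2).add_const (a * Φ * Φ)).add ((t4.pow 2).add_const (a * Φ * Φ)))
  refine (le_of_tendsto_of_tendsto' t1 t5 fun F => ?_).trans (le_of_eq (by ring))
  refine (loss_bound p true F hk).trans (add_le_add le_rfl ?_)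
  have q1 := sq_UF_le p hφ (Pt_le_of_dl ns_phi ha) true F hs
  have q2 := sq_UF_le p hφ (Pt_le_of_dl ns_phi ha) false F hs
  rw [tsum_Pt ns_phi] at q1 q2
  have b1 := bm_UF hφ.bm true F s
  have b2 := bm_UF hφ.bm false F s
  refine (mul_le_mul_of_nonneg_left (prod_bound p ns_phi true F hs hj) zero_le_two).trans
    (le_trans ?_ (add_le_add q1 q2))
  rw [← integral_const_mul, ← integral_add b1.sq.integrable b2.sq.integrable]
  refine ((b1.mul b2).const_mul 2).integral_mono (b1.sq.add b2.sq)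
    (Eventually.of_forall fun ω => ?_)
  nlinarith [sq_nonneg (UF true F s (Pt j phi) ω - UF false F s (Pt j phi) ω)]

lemma exists_good : ∃ K > 0, ∃ ε > 0, ∀ M : ℕ, ∃ m ≥ M, 1 ≤ m ∧
    rho d p true (2 * m : ℕ) ≤ K * rho d p true (4 * m : ℕ) ∧ ε ≤ 2 * m * rho d p true (2 * m : ℕ) := by
  obtain ⟨C, hC, hu⟩ := heat_upper (d := d)
  obtain ⟨c, hc, hl⟩ := rho_lower (d := d) hp
  set Φ := ∑' y, phi (d := d) y with hΦ
  set C1 := 2 * Φ ^ 2 * (1 + C / c) + 1 with hC1
  have C10 : 0 < C1 := by positivity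
  have step : ∀ m : ℕ, 1 ≤ m → ∀ k : ℕ, 2 * m ≤ k →
      rho d p true k - rho d p true (k + 1 : ℕ) ≤ C1 * rho d p true m ^ 2 := by
    intro m hm k hk
    have hm' : (0 : ℝ) < m := by exact_mod_cast hm
    have e : (k : ℝ) = m + (k - m : ℕ) := by rw [Nat.cast_sub (by omega)]; ring
    have h1 := rho_loss hp (Nat.cast_nonneg m) (Nat.cast_nonneg (k - m))
      (a := C / c * rho d p true m ^ 2) fun x y => by
        refine (hu (k - m) (by omega) x y).trans ?_
        have a1 : HH d ((k - m : ℕ) : ℝ) ≤ HH d m := HH_anti hm' (by exact_mod_cast (by omega))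
        have a2 := hl m hm
        rw [div_mul_eq_mul_div, le_div_iff₀ hc]
        nlinarith [mul_le_mul_of_nonneg_left a1 (mul_nonneg hC.le hc.le)]
    rw [← e] at h1
    rw [Nat.cast_succ, hC1]
    nlinarith [sq_nonneg (rho d p true m)]
  have tele : ∀ m : ℕ, 1 ≤ m → ∀ i : ℕ,
      rho d p true (2 * m : ℕ) - rho d p true (2 * m + i : ℕ) ≤ i * (C1 * rho d p true m ^ 2) := by
    intro m hm i
    induction i with
    | zero => simp
    | succ i ih =>
      have := step m hm (2 * m + i) (by omega)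
      rw [← add_assoc, Nat.cast_succ i]
      linarith
  obtain ⟨K, hK, ε, hε, h⟩ := good_scales (r := fun j => rho d p true (2 ^ j : ℕ)) hc
    (β := (Real.sqrt 2)⁻¹ ^ d) (by positivity) (C := 2 * C1) (by positivity)
    (fun j => rho_nonneg p true (Nat.cast_nonneg _)) (fun j => rho_le_one p true (Nat.cast_nonneg _))
    (fun j => by rw [← HH_two_pow]; exact hl _ Nat.one_le_two_pow)
    (fun j => by
      have := tele (2 ^ j) Nat.one_le_two_pow (2 * 2 ^ j)
      rw [show 2 * 2 ^ j + 2 * 2 ^ j = 2 ^ (j + 2) by ring, ← pow_succ'] at this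
      refine this.trans (le_of_eq ?_)
      push_cast; ring)
  refine ⟨K, hK, ε, hε, fun M => ?_⟩
  obtain ⟨j, hj, h1, h2⟩ := h (M + 1)
  obtain ⟨i, rfl⟩ : ∃ i, j = i + 1 := ⟨j - 1, by omega⟩
  refine ⟨2 ^ i, le_trans (by omega) (Nat.lt_two_pow_self (n := i)).le, Nat.one_le_two_pow, ?_, ?_⟩
  · rw [← pow_succ', show 4 * 2 ^ i = 2 ^ (i + 1 + 1) by ring]; exact h1
  · rw [← pow_succ']
    refine h2.trans (le_of_eq ?_)
    push_cast; ring

end Pool.Agent.MP_0e9fac_pr

end

-- part MP_0e9fac_pr.Critical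
section

/-! The balanced case: both colours visit the origin infinitely often. -/

set_option autoImplicit false
open MeasureTheory ProbabilityTheory Filter Set
open scoped Classical ENNReal Topology symmDiff

namespace Pool.Agent.MP_0e9fac_pr

variable {d : ℕ} [P : Prio d] [NeZero d] {p : unitInterval} (hp : (p : ℝ) = 1 / 2)
include hp

lemma second_OC {K ε : ℝ} (hK : 0 < K) (hε : 0 < ε) (κ : Bool) : ∃ C6 > 0, ∀ m : ℕ, 1 ≤ m →
    rho d p true (2 * m : ℕ) ≤ K * rho d p true (4 * m : ℕ) →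
    ε ≤ 2 * m * rho d p true (2 * m : ℕ) → ∀ᶠ F : Finset (Site d) in atTop,
      ∫ ω, OC κ F (2 * m : ℕ) (Finset.Ioc m (2 * m)) 0 ω ^ 2 ∂law d p ≤
        C6 * (m * rho d p true (4 * m : ℕ)) ^ 2 := by
  obtain ⟨C, hC, hu⟩ := heat_upper (d := d)
  obtain ⟨c, hc, hl⟩ := rho_lower (d := d) hp
  obtain ⟨D, hD, hs⟩ := sum_HH (d := d)
  set E := 2 ^ d / c with hE
  have E0 : 0 < E := by positivity
  set C3 := 2 * (2 / ε + C * (D * (2 / ε + Real.sqrt E))) with hC3
  have C30 : 0 < C3 := by positivity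
  refine ⟨(4 + C * E + 2 * C3) * K ^ 2, by positivity, fun m hm h1 h2 => ?_⟩
  have hm' : (0 : ℝ) < m := by exact_mod_cast hm
  set r := rho d p true (2 * m : ℕ) with hr
  have r0 : 0 < r := by
    by_contra hh
    have : 2 * m * r ≤ 0 := mul_nonpos_of_nonneg_of_nonpos (by positivity) (not_lt.1 hh)
    linarith
  have hH : HH d m ≤ E * r ^ 2 := by
    have a1 := HH_double (d := d) hm'
    have a2 := hl (2 * m) (by omega)
    rw [← hr] at a2
    push_cast at a2
    rw [hE, div_mul_eq_mul_div, le_div_iff₀ hc]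
    nlinarith [mul_le_mul_of_nonneg_left a2 (show (0 : ℝ) ≤ 2 ^ d by positivity)]
  set I := Finset.Ioc m (2 * m) with hI
  have hcard : (I.card : ℝ) = m := by rw [hI, Nat.card_Ioc]; congr 1; omega
  have hg : NS fun y : Site d => ∑ k ∈ I, Pt k (dl 0) y := NS.sum I fun k _ => (ns_dl 0).Pt k
  have hgt : ∑' y : Site d, ∑ k ∈ I, Pt k (dl 0) y = m := by
    rw [Summable.tsum_finsetSum fun (k : ℕ) _ => ((ns_dl (0 : Site d)).Pt (k : ℝ)).summable]
    simp only [tsum_Pt (ns_dl 0), (hasSum_dl 0).tsum_eq, Finset.sum_const, nsmul_eq_mul, mul_one]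
    exact hcard
  have hgb : ∀ y : Site d, ∑ k ∈ I, Pt k (dl 0) y ≤ m * (C * (E * r ^ 2)) := by
    intro y
    rw [← hcard, ← nsmul_eq_mul, ← Finset.sum_const]
    refine Finset.sum_le_sum fun k hk => ?_
    rw [hI, Finset.mem_Ioc] at hk
    refine (hu k (by omega) y 0).trans (mul_le_mul_of_nonneg_left (le_trans (HH_anti hm' ?_) hH) hC.le)
    exact_mod_cast hk.1.le
  have ha : ∀ (j : ℕ) (y : Site d), Pt j (dl 0) y ≤ C * HH d j + ind (j = 0) := by
    intro j y
    rcases Nat.eq_zero_or_pos j with rfl | hj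
    · rw [ind_pos rfl]
      exact (Pt_le (ns_dl 0).bm (fun _ => ind_le_one _) _ _).trans
        (le_add_of_nonneg_left (mul_nonneg hC.le (HH_nonneg _)))
    · exact (hu j hj y 0).trans (le_add_of_nonneg_right (ind_nonneg _))
  have hG : 2 * ∑ j ∈ Finset.range m, (C * HH d j + ind (j = 0)) ≤ C3 * (m * r) := by
    have a1 : ∑ j ∈ Finset.range m, ind (j = 0) = 1 := by
      rw [Finset.sum_eq_single 0, ind_pos rfl]
      · intro b _ hb; exact ind_neg hb
      · intro h; exact absurd (Finset.mem_range.2 hm) h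
    have a2 : 1 ≤ 2 / ε * (m * r) := by
      rw [div_mul_eq_mul_div, le_div_iff₀ hε]; linarith
    have a3 : Real.sqrt (HH d m) ≤ Real.sqrt E * r := by
      rw [Real.sqrt_le_left (by positivity), mul_pow, Real.sq_sqrt E0.le]; exact hH
    have a4 := hs m hm
    have a5 : 1 + m * Real.sqrt (HH d m) ≤ (2 / ε + Real.sqrt E) * (m * r) := by
      have := mul_le_mul_of_nonneg_left a3 hm'.le
      nlinarith
    have a6 := mul_le_mul_of_nonneg_left (a4.trans (mul_le_mul_of_nonneg_left a5 hD.le)) hC.le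
    rw [Finset.sum_add_distrib, ← Finset.mul_sum, a1, hC3]
    nlinarith
  have hY := fun y => (occ_sq I (0 : Site d) ha (n := m) (fun k hk k' hk' => by
    rw [hI, Finset.mem_Ioc] at hk hk'; omega) y).trans (mul_le_mul_of_nonneg_right hG (hg.nonneg y))
  have hlim := tendsto_uu p hg κ (Nat.cast_nonneg (2 * m))
  rw [rho_eq hp κ (Nat.cast_nonneg _), hgt, ← hr] at hlim
  have hlt : r * m < 2 * (m * r) := by nlinarith [mul_pos hm' r0]
  filter_upwards [hlim.eventually (gt_mem_nhds hlt)] with F hF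
  have b1 := bm_UF hg.bm κ F (2 * m : ℕ)
  have q1 := le_of_glue p (bm_OC κ F (2 * m : ℕ) I 0).sq (b1.sq.add (b1.const_mul (C3 * (m * r))))
    (Nat.cast_nonneg _) fun ω hω => cond_sq p hω κ F (Nat.cast_nonneg _) I 0 hY
  rw [integral_add b1.sq.integrable (b1.const_mul _).integrable, integral_const_mul] at q1
  have q2 := sq_UF_le p hg hgb κ F (Nat.cast_nonneg (2 * m))
  rw [hgt] at q2
  have q3 := uu_nonneg p hg.nonneg κ (2 * m : ℕ) F
  have q4 : ∫ ω, UF κ F (2 * m : ℕ) (fun y => ∑ k ∈ I, Pt k (dl 0) y) ω ∂law d p =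
      uu p κ (2 * m : ℕ) (fun y => ∑ k ∈ I, Pt k (dl 0) y) F := rfl
  rw [q4] at q1
  set u := uu p κ (2 * m : ℕ) (fun y => ∑ k ∈ I, Pt k (dl 0) y) F
  have q5 : u ^ 2 ≤ (2 * (m * r)) ^ 2 := pow_le_pow_left₀ q3 hF.le 2
  have q6 : C3 * (m * r) * u ≤ C3 * (m * r) * (2 * (m * r)) :=
    mul_le_mul_of_nonneg_left hF.le (by positivity)
  have q7 : (m * r) ^ 2 ≤ (m * (K * rho d p true (4 * m : ℕ))) ^ 2 :=
    pow_le_pow_left₀ (by positivity) (mul_le_mul_of_nonneg_left h1 hm'.le) 2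
  have q8 := mul_le_mul_of_nonneg_left q7 (show 0 ≤ 4 + C * E + 2 * C3 by positivity)
  calc _ ≤ (4 + C * E + 2 * C3) * (m * r) ^ 2 := by nlinarith
    _ ≤ _ := q8
    _ = _ := by ring

lemma pz_OC {K ε : ℝ} (hK : 0 < K) (hε : 0 < ε) (κ : Bool) : ∃ c0 > 0, ∀ m : ℕ, 1 ≤ m →
    rho d p true (2 * m : ℕ) ≤ K * rho d p true (4 * m : ℕ) →
    ε ≤ 2 * m * rho d p true (2 * m : ℕ) → ∀ᶠ F : Finset (Site d) in atTop,
      c0 ≤ (law d p).real {ω | m * rho d p true (4 * m : ℕ) / 2 <
        OC κ F (2 * m : ℕ) (Finset.Ioc m (2 * m)) 0 ω} := by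
  obtain ⟨C6, hC, h⟩ := second_OC (d := d) hp hK hε κ
  refine ⟨1 / (64 * C6), by positivity, fun m hm h1 h2 => ?_⟩
  have hm' : (0 : ℝ) < m := by exact_mod_cast hm
  have r0 : 0 < rho d p true (4 * m : ℕ) := by
    by_contra hh
    have a := mul_nonpos_of_nonneg_of_nonpos hK.le (not_lt.1 hh)
    have : 2 * m * rho d p true (2 * m : ℕ) ≤ 0 :=
      mul_nonpos_of_nonneg_of_nonpos (by positivity) (h1.trans a)
    linarith
  set w := m * rho d p true (4 * m : ℕ) with hw
  have w0 : 0 < w := by positivity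
  have hlim := tendsto_finsetSum (Finset.Ioc m (2 * m)) fun (k : ℕ) _ =>
    tendsto_rho_dl (d := d) p κ (t := (2 * m : ℕ) + k) (by positivity) 0
  have hlow : 3 / 4 * w < ∑ k ∈ Finset.Ioc m (2 * m), rho d p κ ((2 * m : ℕ) + k) := by
    have : w ≤ ∑ k ∈ Finset.Ioc m (2 * m), rho d p κ ((2 * m : ℕ) + k) := by
      have hcard : ((Finset.Ioc m (2 * m)).card : ℝ) = m := by rw [Nat.card_Ioc]; congr 1; omega
      rw [hw, ← rho_eq hp κ (Nat.cast_nonneg _)]
      nth_rewrite 1 [← hcard]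
      rw [← nsmul_eq_mul, ← Finset.sum_const]
      refine Finset.sum_le_sum fun k hk => rho_anti p κ (by positivity) ?_
      have := (Finset.mem_Ioc.1 hk).2
      exact_mod_cast (by omega)
    linarith
  filter_upwards [h m hm h1 h2, hlim.eventually (lt_mem_nhds hlow)] with F q1 q2
  have q3 := pz (μ := law d p) (bm_OC κ F (2 * m : ℕ) (Finset.Ioc m (2 * m)) 0) (θ := w / 2)
    (by positivity) (L := 8 * C6 * w) (by positivity)
  have q4 : ∫ ω, OC κ F (2 * m : ℕ) (Finset.Ioc m (2 * m)) 0 ω ∂law d p =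
      ∑ k ∈ Finset.Ioc m (2 * m), uu p κ ((2 * m : ℕ) + k) (dl 0) F :=
    integral_finsetSum _ fun k _ => (bm_UF (ns_dl 0).bm κ F _).integrable
  have q5 : (∫ ω, OC κ F (2 * m : ℕ) (Finset.Ioc m (2 * m)) 0 ω ^ 2 ∂law d p) / (8 * C6 * w) ≤
      w / 8 := by
    rw [div_le_iff₀ (by positivity)]
    exact q1.trans (le_of_eq (by ring))
  rw [q4] at q3
  rw [div_le_iff₀ (by positivity)]
  have q6 : w * 1 ≤ w * ((law d p).real {ω | w / 2 <
      OC κ F (2 * m : ℕ) (Finset.Ioc m (2 * m)) 0 ω} * (64 * C6)) := by linarith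
  exact le_of_mul_le_mul_left q6 w0

lemma remove_OC {K : ℝ} (hK : 0 < K) (κ : Bool) (B : Finset (Site d)) {δ : ℝ} (hδ : 0 < δ) :
    ∃ M : ℕ, ∀ m ≥ M, 1 ≤ m → rho d p true (2 * m : ℕ) ≤ K * rho d p true (4 * m : ℕ) →
      ∀ F : Finset (Site d), (law d p).real {ω | m * rho d p true (4 * m : ℕ) / 8 ≤
        |OC κ F (2 * m : ℕ) (Finset.Ioc m (2 * m)) 0 ω -
          OC κ (F \ B) (2 * m : ℕ) (Finset.Ioc m (2 * m)) 0 ω|} ≤ δ := by
  obtain ⟨C, hC, hu⟩ := heat_upper (d := d)
  obtain ⟨c, hc, hl⟩ := rho_lower (d := d) hp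
  set η := δ * Real.sqrt c / (8 * (B.card + 1) * C * K) with hη
  have sc : 0 < Real.sqrt c := Real.sqrt_pos.2 hc
  have η0 : 0 < η := by positivity
  obtain ⟨M, hM⟩ := exists_nat_ge ((1 / η ^ 2) ^ 2)
  refine ⟨M, fun m hmM hm h1 F => ?_⟩
  have hm' : (1 : ℝ) ≤ m := by exact_mod_cast hm
  have hmM' : (M : ℝ) ≤ m := by exact_mod_cast hmM
  have e2 : ((2 * m : ℕ) : ℝ) = 2 * m := by push_cast; ring
  have H0 : 0 < HH d (2 * m : ℕ) := HH_pos (by rw [e2]; linarith)
  have s1 : Real.sqrt (HH d (2 * m : ℕ)) ≤ η := by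
    rw [Real.sqrt_le_left η0.le]
    refine (HH_le (by rw [e2]; linarith)).trans ?_
    rw [inv_le_comm₀ (Real.sqrt_pos.2 (by rw [e2]; linarith)) (by positivity), inv_eq_one_div]
    exact Real.le_sqrt_of_sq_le (by rw [e2]; linarith)
  have s2 : Real.sqrt c * Real.sqrt (HH d (2 * m : ℕ)) ≤ K * rho d p true (4 * m : ℕ) := by
    rw [← Real.sqrt_mul hc.le]
    exact (Real.sqrt_le_iff.2 ⟨rho_nonneg p true (Nat.cast_nonneg _), hl _ (by omega)⟩).trans h1
  have s0 : 0 < Real.sqrt (HH d (2 * m : ℕ)) := Real.sqrt_pos.2 H0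
  have r0 : 0 < rho d p true (4 * m : ℕ) := 
    (mul_pos_iff_of_pos_left hK).1 (lt_of_lt_of_le (mul_pos sc s0) s2)
  have b := (bm_OC κ F (2 * m : ℕ) (Finset.Ioc m (2 * m)) 0).sub
    (bm_OC κ (F \ B) (2 * m : ℕ) (Finset.Ioc m (2 * m)) 0)
  refine (markov b.abs (fun _ => abs_nonneg _) (by positivity)).trans ?_
  have bk := fun k : ℕ => ((bm_UF (ns_dl (0 : Site d)).bm κ F ((2 * m : ℕ) + k)).sub
    (bm_UF (ns_dl (0 : Site d)).bm κ (F \ B) ((2 * m : ℕ) + k))).abs
  have q1 : ∫ ω, |OC κ F (2 * m : ℕ) (Finset.Ioc m (2 * m)) 0 ω -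
      OC κ (F \ B) (2 * m : ℕ) (Finset.Ioc m (2 * m)) 0 ω| ∂law d p ≤
        m * (B.card * (C * HH d (2 * m : ℕ))) := by
    refine (b.abs.integral_mono (BM.sum (Finset.Ioc m (2 * m)) fun k _ => bk k)
      (Eventually.of_forall fun ω => ?_)).trans ?_
    · simp only [OC]
      rw [← Finset.sum_sub_distrib]
      exact Finset.abs_sum_le_sum_abs _ _
    · have hcard : ((Finset.Ioc m (2 * m)).card : ℝ) = m := by rw [Nat.card_Ioc]; congr 1; omega
      rw [integral_finsetSum _ fun k _ => (bk k).integrable]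
      refine le_trans ?_ (le_of_eq (show ∑ _k ∈ Finset.Ioc m (2 * m),
        (B.card * (C * HH d (2 * m : ℕ)) : ℝ) = _ by rw [Finset.sum_const, nsmul_eq_mul, hcard]))
      refine Finset.sum_le_sum fun k _ => ?_
      refine (abs_UF_sub p (ns_dl 0).bm (ns_dl 0).nonneg κ Finset.sdiff_subset
        (by positivity)).trans ?_
      have hsub : F \ (F \ B) ⊆ B := fun z hz => by
        rw [Finset.mem_sdiff, Finset.mem_sdiff] at hz
        by_contra h
        exact hz.2 ⟨hz.1, h⟩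
      refine (Finset.sum_le_sum_of_subset_of_nonneg hsub fun z _ _ =>
        Pt_nonneg (ns_dl 0).nonneg _ _).trans ?_
      rw [← nsmul_eq_mul, ← Finset.sum_const]
      refine Finset.sum_le_sum fun z _ => ?_
      rw [← Nat.cast_add]
      refine (hu _ (by omega) z 0).trans (mul_le_mul_of_nonneg_left (HH_anti ?_ ?_) hC.le)
      · rw [e2]; linarith
      · exact_mod_cast Nat.le_add_right _ _
  rw [div_le_iff₀ (by positivity)]
  refine q1.trans ?_
  have q2 : HH d (2 * m : ℕ) ≤ η * (K * rho d p true (4 * m : ℕ) / Real.sqrt c) := by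
    rw [← Real.mul_self_sqrt H0.le]
    refine mul_le_mul s1 ?_ s0.le η0.le
    rw [le_div_iff₀ sc, mul_comm]; exact s2
  have q3 : η * (K * rho d p true (4 * m : ℕ) / Real.sqrt c) =
      δ * rho d p true (4 * m : ℕ) / (8 * (B.card + 1) * C) := by
    rw [hη]; field_simp
  have q4 : B.card * (C * HH d (2 * m : ℕ)) ≤ δ * rho d p true (4 * m : ℕ) / 8 := by
    rw [q3, le_div_iff₀ (by positivity)] at q2
    rw [le_div_iff₀ (by norm_num)]
    nlinarith [mul_pos hC H0]
  exact (mul_le_mul_of_nonneg_left q4 (Nat.cast_nonneg m)).trans (le_of_eq (by ring))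

lemma null_H (κ : Bool) (T : ℕ) : law d p {ω | ∀ k : ℕ, T ≤ k →
    ∀ᶠ n in atTop, UF κ (cube d n) k (dl 0) ω = 0} = 0 := by
  set H := {ω : Conf d | ∀ k : ℕ, T ≤ k → ∀ᶠ n in atTop, UF κ (cube d n) k (dl 0) ω = 0} with hH
  have mH : MeasurableSet H := by
    simp only [hH, eventually_atTop]
    exact measurableSet_setOfPred.2 (Measurable.forall fun k => measurable_const.imp
      (Measurable.exists fun N => Measurable.forall fun n => measurable_const.imp
        (measurableSet_setOfPred.1 ((bm_UF (ns_dl 0).bm κ _ _).meas (measurableSet_singleton 0)))))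
  obtain ⟨K, hK, ε, hε, hgood⟩ := exists_good (d := d) hp
  obtain ⟨c0, hc0, hpz⟩ := pz_OC (d := d) hp hK hε κ
  have key : ∀ δ > 0, (law d p).real H ≤ (4 / c0 + 1) * δ := by
    intro δ hδ
    obtain ⟨B, A, mA, dA, hA⟩ := exists_cylinder (nu d p) mH hδ
    rw [← law_eq] at hA
    obtain ⟨M, hM⟩ := remove_OC hp hK κ B hδ
    obtain ⟨m, hm, hm1, h1, h2⟩ := hgood (max M T)
    have hm' : (0 : ℝ) < m := by exact_mod_cast hm1
    set w := m * rho d p true (4 * m : ℕ) with hw
    have w0 : 0 ≤ w := mul_nonneg hm'.le (rho_nonneg p true (Nat.cast_nonneg _))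
    set W := fun F : Finset (Site d) => OC κ F (2 * m : ℕ) (Finset.Ioc m (2 * m)) 0 with hW
    have bW : ∀ F, BM (W F) := fun F => bm_OC _ _ _ _ _
    have mW : ∀ n, MeasurableSet {ω | ω ∈ H ∧ 0 < W (cube d n) ω} := fun n =>
      mH.inter (measurableSet_lt measurable_const (bW _).meas)
    have hlim : Tendsto (fun n => ∫ ω, ind (ω ∈ H ∧ 0 < W (cube d n) ω) ∂law d p) atTop
        (𝓝 (∫ _, (0 : ℝ) ∂law d p)) := by
      refine tendsto_integral_of_dominated_convergence (fun _ => 1)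
        (fun n => (BM.ind (mW n)).meas.aestronglyMeasurable) (integrable_const _)
        (fun n => Eventually.of_forall fun ω => abs_ind_le _)
        (Eventually.of_forall fun ω => tendsto_const_nhds.congr' ?_)
      by_cases hω : ω ∈ H
      · have : ∀ᶠ n in atTop, ∀ k ∈ Finset.Ioc m (2 * m),
            UF κ (cube d n) ((2 * m : ℕ) + k) (dl 0) ω = 0 := by
          rw [eventually_all_finset]
          intro k _
          rw [← Nat.cast_add]
          exact hω _ (by omega)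
        filter_upwards [this] with n hn
        rw [ind_neg]
        exact fun h => h.2.ne' (Finset.sum_eq_zero hn)
      · exact Eventually.of_forall fun n => (ind_neg fun h => hω h.1).symm
    rw [integral_zero] at hlim
    obtain ⟨n, q1, q2⟩ := ((hlim.eventually (gt_mem_nhds hδ)).and
      (tendsto_cube.eventually (hpz m hm1 h1 h2))).exists
    rw [integral_ind (mW n)] at q1
    have q3 := hM m (le_trans (le_max_left _ _) hm) hm1 h1 (cube d n)
    set F := cube d n
    have m4 : MeasurableSet {ω | w / 4 < W (F \ B) ω} := measurableSet_lt measurable_const (bW _).meas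
    have q4 : (law d p).real {ω | w / 2 < W F ω} ≤ (law d p).real {ω | w / 4 < W (F \ B) ω} +
        (law d p).real {ω | w / 8 ≤ |W F ω - W (F \ B) ω|} := by
      refine (measureReal_mono fun ω hω => ?_).trans (measureReal_union_le _ _)
      simp only [mem_ofPred_eq, mem_union] at hω ⊢
      by_contra hh
      push Not at hh
      linarith [hh.1, (abs_lt.1 hh.2).2]
    have q5 : (law d p).real {ω | ω ∈ A ∧ w / 4 < W (F \ B) ω} =
        (law d p).real A * (law d p).real {ω | w / 4 < W (F \ B) ω} := by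
      rw [← integral_ind (p := fun ω => ω ∈ A ∧ w / 4 < W (F \ B) ω) (mA.inter m4),
        ← integral_ind m4, show (law d p).real A = (law d p).real {ω | ω ∈ A} from rfl,
        ← integral_ind (p := fun ω => ω ∈ A) mA]
      simp_rw [ind_and]
      refine integral_mul_of_dependsOn (nu d p) (BM.ind mA) (BM.ind m4) dA fun x y h => ?_
      have : W (F \ B) x = W (F \ B) y := Finset.sum_congr rfl fun k _ =>
        dependsOn_UF _ κ _ _ fun v hv => h v (Finset.mem_sdiff.1 hv).2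
      simp only [this]
    have q6 : (law d p).real {ω | ω ∈ A ∧ w / 4 < W (F \ B) ω} ≤
        (law d p).real (A ∆ H) + (law d p).real {ω | ω ∈ H ∧ 0 < W F ω} +
          (law d p).real {ω | w / 8 ≤ |W F ω - W (F \ B) ω|} := by
      refine (measureReal_mono fun ω hω => ?_).trans ((measureReal_union_le _ _).trans
        (add_le_add (measureReal_union_le _ _) le_rfl))
      simp only [mem_ofPred_eq, mem_union, mem_symmDiff] at hω ⊢
      by_cases a1 : w / 8 ≤ |W F ω - W (F \ B) ω|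
      · exact Or.inr a1
      · by_cases a2 : ω ∈ H
        · exact Or.inl (Or.inr ⟨a2, by linarith [hω.2, (abs_lt.1 (not_le.1 a1)).1]⟩)
        · exact Or.inl (Or.inl (Or.inl ⟨hω.1, a2⟩))
    have q7 : (law d p).real H ≤ (law d p).real A + (law d p).real (A ∆ H) := by
      refine (measureReal_mono fun ω hω => ?_).trans (measureReal_union_le _ _)
      simp only [mem_union, mem_symmDiff]
      by_cases a : ω ∈ A
      · exact Or.inl a
      · exact Or.inr (Or.inr ⟨hω, a⟩)
    have a0 : 0 ≤ (law d p).real A := measureReal_nonneg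
    have a1 : (law d p).real A ≤ 1 := measureReal_le_one
    have q8 : c0 - δ ≤ (law d p).real {ω | w / 4 < W (F \ B) ω} := by linarith
    have q9 : (law d p).real A * (c0 - δ) ≤ 3 * δ := by
      have := mul_le_mul_of_nonneg_left q8 a0
      linarith
    have q10 : (law d p).real A ≤ 4 / c0 * δ := by
      rw [div_mul_eq_mul_div, le_div_iff₀ hc0]
      nlinarith
    linarith
  rw [← measureReal_eq_zero_iff]
  refine le_antisymm (le_of_forall_pos_le_add fun η hη => ?_) measureReal_nonneg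
  have := key (η / (4 / c0 + 1)) (by positivity)
  rwa [mul_div_cancel₀ _ (by positivity), ← zero_add η] at this

lemma ae_visits (κ : Bool) : ∀ᵐ ω ∂law d p, VisitsInfinitelyOften P.pr ω κ := by
  have h : ∀ᵐ ω ∂law d p, ∀ T : ℕ, ¬ ∀ k : ℕ, T ≤ k →
      ∀ᶠ n in atTop, UF κ (cube d n) k (dl 0) ω = 0 :=
    ae_all_iff.2 fun T => measure_eq_zero_iff_ae_notMem.1 (null_H hp κ T)
  filter_upwards [h, ae_goodC p, ae_stabilises p] with ω hω hg hs T
  obtain ⟨N, hN⟩ := exists_nat_ge T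
  have h1 := hω N
  push Not at h1
  obtain ⟨k, hk, h2⟩ := h1
  refine ⟨k, hN.trans (by exact_mod_cast hk), ?_⟩
  obtain ⟨m, hm⟩ := hs 0 k
  obtain ⟨n, h3, h4⟩ := (h2.and_eventually (eventually_ge_atTop m)).exists
  rw [← count_eq hg n κ (Nat.cast_nonneg k), hm n h4 k ⟨Nat.cast_nonneg k, le_rfl⟩ κ] at h3
  filter_upwards [eventually_ge_atTop m] with n' hn'
  rw [hm n' hn' k ⟨Nat.cast_nonneg k, le_rfl⟩ κ]
  exact Nat.pos_of_ne_zero (by exact_mod_cast h3)

end Pool.Agent.MP_0e9fac_pr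

end
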