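import Pool.Agent.MP_0e9fac_pr.Mg.Chain
import Pool.Agent.MP_0e9fac_pr.Tools

-- part MP_0e9fac_pr.ClockLaw
section

/-! The law of one walk: measurability, the Markov property at deterministic times, tails. -/

set_option autoImplicit false
open MeasureTheory ProbabilityTheory Filter Set
open scoped Classical ENNReal Topology

namespace Pool.Agent.MP_0e9fac_pr

variable {d : ℕ}

lemma measurable_index {Ω ι β : Type*} [MeasurableSpace Ω] [MeasurableSpace ι] [MeasurableSpace β]
    [Countable ι] [MeasurableSingletonClass ι] {N : Ω → ι} (hN : Measurable N) {f : ι → Ω → β}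
    (hf : ∀ i, Measurable (f i)) : Measurable fun ω => f (N ω) ω := by
  have h : Measurable fun q : ι × Ω => f q.1 q.2 := measurable_from_prod_countable_right hf
  exact h.comp (hN.prodMk measurable_id)

lemma measurable_jumpTime (n : ℕ) : Measurable fun w : Clock d => jumpTime w n := by
  unfold jumpTime
  fun_prop

lemma sSup_eq_iSup_ite (p : ℕ → Prop) : sSup {n | p n} = ⨆ n, if p n then n else 0 := by
  by_cases hb : BddAbove {n | p n}
  · have hb' : BddAbove (range fun n => if p n then n else 0) := by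
      obtain ⟨m, hm⟩ := hb
      refine ⟨m, ?_⟩
      rintro _ ⟨n, rfl⟩
      dsimp only
      split_ifs with h
      · exact hm h
      · exact Nat.zero_le _
    apply le_antisymm
    · refine csSup_le' fun n hn => ?_
      have := le_ciSup hb' n
      rwa [if_pos (show p n from hn)] at this
    · refine ciSup_le' fun n => ?_
      split_ifs with h
      · exact le_csSup hb h
      · exact Nat.zero_le _
  · have hb' : ¬ BddAbove (range fun n => if p n then n else 0) := by
      rintro ⟨m, hm⟩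
      refine hb ⟨m, fun n hn => ?_⟩
      have := hm ⟨n, rfl⟩
      dsimp only at this
      rwa [if_pos (show p n from hn)] at this
    rw [csSup_of_not_bddAbove hb, iSup, csSup_of_not_bddAbove hb']

lemma measurable_jumpCount (t : ℝ) : Measurable fun w : Clock d => jumpCount w t := by
  unfold jumpCount
  simp_rw [sSup_eq_iSup_ite]
  refine Measurable.iSup fun n => Measurable.ite ?_ measurable_const measurable_const
  exact measurableSet_le (measurable_jumpTime n) measurable_const

lemma measurable_disp (t : ℝ) : Measurable fun w : Clock d => disp w t := by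
  unfold disp
  refine measurable_index (f := fun n w => ∑ i ∈ Finset.range n, step (w i).2)
    (measurable_jumpCount t) fun n => ?_
  refine Finset.measurable_sum _ fun i _ => ?_
  exact (measurable_of_countable step).comp (by fun_prop)

lemma measurable_glueAux (n : ℕ) :
    Measurable fun q : ℝ × Clock d × Clock d => glueAux n q.1 q.2.1 q.2.2 := by
  induction n with
  | zero =>
    simp only [glueAux]
    exact Measurable.ite (measurableSet_le (by fun_prop) (by fun_prop)) (by fun_prop) (by fun_prop)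
  | succ n ih =>
    simp only [glueAux]
    refine Measurable.ite (measurableSet_le (by fun_prop) (by fun_prop)) ?_ (by fun_prop)
    exact ih.comp (f := fun q : ℝ × Clock d × Clock d =>
      (q.1 - (q.2.1 0).1, fun i => q.2.1 (i + 1), q.2.2)) (by fun_prop)

lemma measurable_glue (s : ℝ) : Measurable fun q : Clock d × Clock d => glue s q.1 q.2 := by
  refine measurable_pi_iff.2 fun n => ?_
  exact (measurable_glueAux n).comp (f := fun q : Clock d × Clock d => (s, q.1, q.2)) (by fun_prop)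

lemma measurableSet_good : MeasurableSet {w : Clock d | Good w} := by
  have : {w : Clock d | Good w} =
      (⋂ i, {w | 0 < (w i).1}) ∩ ⋂ t : ℕ, ⋃ n, {w | (t : ℝ) < jumpTime w n} := by
    ext w
    simp only [Good, mem_ofPred_eq, mem_inter_iff, mem_iInter, mem_iUnion]
    refine and_congr_right fun _ => ⟨fun h t => h t, fun h t => ?_⟩
    obtain ⟨m, hm⟩ := exists_nat_ge t
    obtain ⟨n, hn⟩ := h m
    exact ⟨n, lt_of_le_of_lt hm hn⟩
  rw [this]
  refine (MeasurableSet.iInter fun i => measurableSet_lt measurable_const (by fun_prop)).inter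
    (MeasurableSet.iInter fun t => MeasurableSet.iUnion fun n => ?_)
  exact measurableSet_lt measurable_const (measurable_jumpTime n)

instance : IsProbabilityMeasure (expMeasure 1) := isProbabilityMeasure_expMeasure one_pos

lemma exp_Iic (x : ℝ) :
    expMeasure 1 (Iic x) = ENNReal.ofReal (if 0 ≤ x then 1 - Real.exp (-x) else 0) := by
  rw [← ofReal_cdf, cdf_expMeasure_eq one_pos, one_mul]

lemma exp_Ioi {x : ℝ} (hx : 0 ≤ x) : expMeasure 1 (Ioi x) = ENNReal.ofReal (Real.exp (-x)) := by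
  rw [← compl_Iic, prob_compl_eq_one_sub measurableSet_Iic, exp_Iic, if_pos hx,
    ← ENNReal.ofReal_one, ← ENNReal.ofReal_sub]
  · congr 1; ring
  · have : Real.exp (-x) ≤ 1 := Real.exp_le_one_iff.2 (by linarith)
    linarith

lemma exp_memoryless {s : ℝ} (hs : 0 ≤ s) : (expMeasure 1).restrict (Ioi s) =
    ENNReal.ofReal (Real.exp (-s)) • (expMeasure 1).map (fun x => s + x) := by
  refine Measure.ext_of_Iic _ _ fun a => ?_
  rw [Measure.restrict_apply measurableSet_Iic, Measure.smul_apply,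
    Measure.map_apply (by fun_prop) measurableSet_Iic]
  have e1 : (fun x => s + x) ⁻¹' Iic a = Iic (a - s) := by
    ext x; simp only [mem_preimage, mem_Iic]; constructor <;> intro h <;> linarith
  rw [e1, exp_Iic, smul_eq_mul]
  by_cases ha : 0 ≤ a - s
  · have e2 : Iic a ∩ Ioi s = Iic a \ Iic s := by ext x; simp [and_comm]
    have e3 : Real.exp (-s) ≤ 1 := Real.exp_le_one_iff.2 (by linarith)
    rw [e2, measure_sdiff (Iic_subset_Iic.2 (by linarith)) measurableSet_Iic.nullMeasurableSet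
      (measure_ne_top _ _), exp_Iic, exp_Iic, if_pos ha, if_pos hs, if_pos (by linarith),
      ← ENNReal.ofReal_sub _ (by linarith), ← ENNReal.ofReal_mul (Real.exp_pos _).le]
    congr 1
    rw [mul_sub, mul_one, ← Real.exp_add]
    ring_nf
  · have e2 : Iic a ∩ Ioi s = ∅ := by
      ext x; simp only [mem_inter_iff, mem_Iic, mem_Ioi, mem_empty_iff_false, iff_false]
      intro h; linarith [h.1, h.2]
    rw [e2, if_neg ha]; simp

/-- The law of one holding time and direction. -/
noncomputable def nu1 (d : ℕ) : Measure (ℝ × (Fin d × Bool)) :=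
  (expMeasure 1).prod (uniformOn Set.univ)

variable [NeZero d]

instance : IsProbabilityMeasure (nu1 d) := by unfold nu1; infer_instance

instance : IsProbabilityMeasure (clockLaw d) := by unfold clockLaw; infer_instance

omit [NeZero d] in
lemma clockLaw_eq : clockLaw d = Measure.infinitePi fun _ => nu1 d := rfl

lemma nu1_fst (B : Set ℝ) : nu1 d {e | e.1 ∈ B} = expMeasure 1 B := by
  have : {e : ℝ × (Fin d × Bool) | e.1 ∈ B} = B ×ˢ univ := by ext; simp
  rw [this, nu1, Measure.prod_prod]; simp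

lemma nu1_memoryless {s : ℝ} (hs : 0 ≤ s) {B : Set (ℝ × (Fin d × Bool))} (hB : MeasurableSet B) :
    nu1 d (B ∩ {e | s < e.1}) = nu1 d {e | s < e.1} * nu1 d {e | (s + e.1, e.2) ∈ B} := by
  have e0 : {e : ℝ × (Fin d × Bool) | s < e.1} = Ioi s ×ˢ univ := by ext; simp
  have e1 : nu1 d {e | s < e.1} = ENNReal.ofReal (Real.exp (-s)) := by
    rw [← exp_Ioi hs]; exact nu1_fst (Ioi s)
  rw [e1, e0, ← Measure.restrict_apply hB, nu1, ← Measure.restrict_prod_eq_prod_univ,
    exp_memoryless hs, Measure.prod_smul_left, Measure.smul_apply, smul_eq_mul]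
  congr 1
  conv_lhs => rw [← Measure.map_id (μ := (uniformOn univ : Measure (Fin d × Bool)))]
  rw [Measure.map_prod_map _ _ (by fun_prop) measurable_id,
    Measure.map_apply (by fun_prop) hB]
  rfl

/-- Putting an entry in front of a walk. -/
def cons (q : (ℝ × (Fin d × Bool)) × Clock d) : Clock d := fun n => Nat.casesOn n q.1 q.2

omit [NeZero d] in
lemma measurable_cons : Measurable (cons (d := d)) := by
  refine measurable_pi_iff.2 fun n => ?_
  cases n with
  | zero => exact measurable_fst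
  | succ n => exact (measurable_pi_apply n).comp measurable_snd

lemma box_range (n : ℕ) (t : ℕ → Set (ℝ × (Fin d × Bool))) (ht : ∀ i, MeasurableSet (t i)) :
    clockLaw d {w | ∀ i < n, w i ∈ t i} = ∏ i ∈ Finset.range n, nu1 d (t i) := by
  rw [clockLaw_eq, ← Measure.infinitePi_pi _ (fun i _ => ht i)]
  congr 1
  ext w; simp [Set.mem_pi]

lemma eq_clockLaw {μ : Measure (Clock d)}
    (h : ∀ (n : ℕ) (t : ℕ → Set (ℝ × (Fin d × Bool))), (∀ i, MeasurableSet (t i)) →
      μ {w | ∀ i < n, w i ∈ t i} = ∏ i ∈ Finset.range n, nu1 d (t i)) : μ = clockLaw d := by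
  rw [clockLaw_eq]
  refine Measure.eq_infinitePi _ fun s t ht => ?_
  obtain ⟨n, hn⟩ := s.exists_nat_subset_range
  have := h n (fun i => if i ∈ s then t i else univ) (fun i => by
    split_ifs
    exacts [ht i, MeasurableSet.univ])
  have e1 : {w : Clock d | ∀ i < n, w i ∈ (if i ∈ s then t i else univ)} = Set.pi s t := by
    ext w
    simp only [mem_ofPred_eq, Set.mem_pi, Finset.mem_coe]
    constructor
    · intro h i hi
      have := h i (Finset.mem_range.1 (hn hi))
      rwa [if_pos hi] at this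
    · intro h i _
      split_ifs with hi
      exacts [h i hi, mem_univ _]
  rw [e1] at this
  rw [this, ← Finset.prod_subset hn]
  · exact Finset.prod_congr rfl fun i hi => by rw [if_pos hi]
  · intro i _ hi; rw [if_neg hi, measure_univ]

omit [NeZero d] in
lemma measurableSet_box (n : ℕ) (t : ℕ → Set (ℝ × (Fin d × Bool))) (ht : ∀ i, MeasurableSet (t i)) :
    MeasurableSet {w : Clock d | ∀ i < n, w i ∈ t i} := by
  have : {w : Clock d | ∀ i < n, w i ∈ t i} = ⋂ i, ⋂ _ : i < n, (fun w => w i) ⁻¹' t i := by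
    ext w; simp
  rw [this]
  exact MeasurableSet.iInter fun i => MeasurableSet.iInter fun _ => measurable_pi_apply i (ht i)

lemma mp_cons : MeasurePreserving (cons (d := d)) ((nu1 d).prod (clockLaw d)) (clockLaw d) := by
  refine ⟨measurable_cons, eq_clockLaw fun n t ht => ?_⟩
  rw [Measure.map_apply measurable_cons (measurableSet_box n t ht)]
  cases n with
  | zero => simp
  | succ n =>
    have : cons ⁻¹' {w : Clock d | ∀ i < n + 1, w i ∈ t i} =
        t 0 ×ˢ {w : Clock d | ∀ i < n, w i ∈ t (i + 1)} := by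
      ext q
      simp only [mem_preimage, mem_ofPred_eq, mem_prod, Nat.forall_lt_succ_left]
      rfl
    rw [this, Measure.prod_prod, box_range n _ (fun i => ht (i + 1)), Finset.prod_range_succ',
      mul_comm]

lemma glue_box (n : ℕ) : ∀ (s : ℝ), 0 ≤ s → ∀ (t : ℕ → Set (ℝ × (Fin d × Bool))),
    (∀ i, MeasurableSet (t i)) →
    ((clockLaw d).prod (clockLaw d)) {q | ∀ i < n, glueAux i s q.1 q.2 ∈ t i} =
      ∏ i ∈ Finset.range n, nu1 d (t i) := by
  induction n with
  | zero => intro s _ t _; simp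
  | succ n ih =>
    intro s hs t ht
    have hS : MeasurableSet {q : Clock d × Clock d | ∀ i < n + 1, glueAux i s q.1 q.2 ∈ t i} :=
      measurable_glue s (measurableSet_box (n + 1) t ht)
    have mp : MeasurePreserving
        (fun r : (ℝ × (Fin d × Bool)) × Clock d × Clock d => (cons (r.1, r.2.1), r.2.2))
        ((nu1 d).prod ((clockLaw d).prod (clockLaw d))) ((clockLaw d).prod (clockLaw d)) :=
      (mp_cons.prod (MeasurePreserving.id (clockLaw d))).comp
        (measurePreserving_prodAssoc (nu1 d) (clockLaw d) (clockLaw d)).symm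
    rw [← mp.measure_preimage hS.nullMeasurableSet, Measure.prod_apply (mp.measurable hS)]
    set Q : ℝ≥0∞ := ∏ i ∈ Finset.range n, nu1 d (t (i + 1)) with hQ
    set B : Set (ℝ × (Fin d × Bool)) := {e | (s + e.1, e.2) ∈ t 0} with hB
    have hBm : MeasurableSet B := (by fun_prop : Measurable fun e : ℝ × (Fin d × Bool) =>
      (s + e.1, e.2)) (ht 0)
    have hle : MeasurableSet {e : ℝ × (Fin d × Bool) | e.1 ≤ s} :=
      measurableSet_le (by fun_prop) measurable_const
    have hlt : MeasurableSet {e : ℝ × (Fin d × Bool) | s < e.1} :=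
      measurableSet_lt measurable_const (by fun_prop)
    have key : ∀ e : ℝ × (Fin d × Bool), ((clockLaw d).prod (clockLaw d))
        (Prod.mk e ⁻¹' ((fun r : (ℝ × (Fin d × Bool)) × Clock d × Clock d =>
          (cons (r.1, r.2.1), r.2.2)) ⁻¹'
            {q : Clock d × Clock d | ∀ i < n + 1, glueAux i s q.1 q.2 ∈ t i})) =
        (t 0 ∩ {e | e.1 ≤ s}).indicator (fun _ => Q) e +
          {e : ℝ × (Fin d × Bool) | s < e.1}.indicator (fun _ => nu1 d B * Q) e := by
      intro e
      by_cases he : e.1 ≤ s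
      · rw [indicator_of_notMem (s := {e : ℝ × (Fin d × Bool) | s < e.1}) (by simpa using he),
          add_zero]
        by_cases h0 : e ∈ t 0
        · rw [indicator_of_mem (by exact ⟨h0, he⟩), hQ,
            ← ih (s - e.1) (by linarith) (fun i => t (i + 1)) (fun i => ht (i + 1))]
          congr 1
          ext q
          simp only [mem_preimage, mem_ofPred_eq, Nat.forall_lt_succ_left, glueAux, cons,
            Nat.rec_zero, if_pos he, h0, true_and]
        · rw [indicator_of_notMem (fun h => h0 h.1)]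
          convert measure_empty (μ := (clockLaw d).prod (clockLaw d))
          ext q
          simp only [mem_preimage, mem_ofPred_eq, Nat.forall_lt_succ_left, glueAux, cons,
            Nat.rec_zero, if_pos he, h0, false_and, mem_empty_iff_false]
      · rw [indicator_of_notMem (fun h => he h.2), zero_add,
          indicator_of_mem (by simpa using he)]
        have := box_range (d := d) (n + 1) (fun i => Nat.casesOn i B fun j => t (j + 1))
          (fun i => by cases i; exacts [hBm, ht _])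
        rw [Finset.prod_range_succ', mul_comm] at this
        have e2 : (Prod.mk e ⁻¹' ((fun r : (ℝ × (Fin d × Bool)) × Clock d × Clock d =>
          (cons (r.1, r.2.1), r.2.2)) ⁻¹'
            {q : Clock d × Clock d | ∀ i < n + 1, glueAux i s q.1 q.2 ∈ t i})) =
            univ ×ˢ {w : Clock d | ∀ i < n + 1,
              w i ∈ (Nat.casesOn i B (fun j => t (j + 1)) : Set (ℝ × (Fin d × Bool)))} := by
          ext q
          simp only [mem_preimage, mem_ofPred_eq, Nat.forall_lt_succ_left, glueAux, cons,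
            Nat.rec_zero, if_neg he, mem_prod, mem_univ, true_and, hB]
        rw [e2, Measure.prod_prod, measure_univ, one_mul, this]
        rfl
    simp_rw [key]
    rw [lintegral_add_left (measurable_const.indicator ((ht 0).inter hle)),
      lintegral_indicator_const ((ht 0).inter hle), lintegral_indicator_const hlt,
      Finset.prod_range_succ', ← hQ, mul_comm (nu1 d B), mul_assoc, ← mul_add,
      mul_comm (nu1 d B), ← nu1_memoryless hs (ht 0)]
    congr 1
    have : {e : ℝ × (Fin d × Bool) | s < e.1} = {e : ℝ × (Fin d × Bool) | e.1 ≤ s}ᶜ := by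
      ext; simp
    rw [this]
    exact measure_inter_add_sdiff _ hle

lemma mp_glue {s : ℝ} (hs : 0 ≤ s) : MeasurePreserving
    (fun q : Clock d × Clock d => glue s q.1 q.2) ((clockLaw d).prod (clockLaw d)) (clockLaw d) := by
  refine ⟨measurable_glue s, eq_clockLaw fun n t ht => ?_⟩
  rw [Measure.map_apply (measurable_glue s) (measurableSet_box n t ht)]
  exact glue_box n s hs t ht

lemma box_Iic (n : ℕ) {t : ℝ} (ht : 0 ≤ t) :
    clockLaw d {w | ∀ i < n, (w i).1 ≤ t} = ENNReal.ofReal ((1 - Real.exp (-t)) ^ n) := by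
  have := box_range (d := d) n (fun _ => {e | e.1 ∈ Iic t})
    (fun _ => measurable_fst measurableSet_Iic)
  rw [nu1_fst, exp_Iic, if_pos ht, Finset.prod_const, Finset.card_range,
    ← ENNReal.ofReal_pow] at this
  · exact this
  · have : Real.exp (-t) ≤ 1 := Real.exp_le_one_iff.2 (by linarith)
    linarith

lemma ae_pos : ∀ᵐ w ∂clockLaw d, ∀ i, 0 < (w i).1 := by
  rw [ae_all_iff]
  intro i
  have mp : MeasurePreserving (Function.eval i) (clockLaw d) (nu1 d) :=
    measurePreserving_eval_infinitePi (fun _ : ℕ => nu1 d) i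
  have h0 : nu1 d {e | e.1 ∈ Iic 0} = 0 := by rw [nu1_fst, exp_Iic]; simp
  have := mp.measure_preimage (s := {e | e.1 ∈ Iic 0})
    (measurable_fst measurableSet_Iic).nullMeasurableSet
  rw [h0] at this
  rw [ae_iff]
  convert this using 2
  ext w; simp [Function.eval]

lemma q_nonneg {t : ℝ} (ht : 0 ≤ t) : 0 ≤ 1 - Real.exp (-t) := by
  have : Real.exp (-t) ≤ 1 := Real.exp_le_one_iff.2 (by linarith)
  linarith

lemma q_lt_one (t : ℝ) : 1 - Real.exp (-t) < 1 := by linarith [Real.exp_pos (-t)]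

lemma ae_good : ∀ᵐ w ∂clockLaw d, Good w := by
  have h2 : ∀ᵐ w ∂clockLaw d, ∀ t : ℕ, ¬ ∀ i, (w i).1 ≤ (t : ℝ) := by
    rw [ae_all_iff]
    intro t
    rw [ae_iff]
    refine le_antisymm ?_ zero_le
    have hl : Tendsto (fun n : ℕ => ENNReal.ofReal ((1 - Real.exp (-(t : ℝ))) ^ n)) atTop (𝓝 0) := by
      rw [← ENNReal.ofReal_zero]
      exact ENNReal.tendsto_ofReal
        (tendsto_pow_atTop_nhds_zero_of_lt_one (q_nonneg (Nat.cast_nonneg t)) (q_lt_one _))
    refine ge_of_tendsto' hl fun n => ?_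
    rw [← box_Iic (d := d) n (Nat.cast_nonneg t)]
    refine measure_mono fun w hw i _ => ?_
    exact (not_not.1 hw) i
  filter_upwards [ae_pos, h2] with w hw h
  refine ⟨hw, fun t => ?_⟩
  obtain ⟨m, hm⟩ := exists_nat_ge t
  have := h m
  push Not at this
  obtain ⟨i, hi⟩ := this
  refine ⟨i + 1, ?_⟩
  rw [jumpTime_succ]
  have : 0 ≤ jumpTime w i := Finset.sum_nonneg fun j _ => (hw j).le
  linarith

lemma tail_jumpCount (n : ℕ) {t : ℝ} (ht : 0 ≤ t) :
    (clockLaw d).real {w | n ≤ jumpCount w t} ≤ (1 - Real.exp (-t)) ^ n := by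
  have h : clockLaw d {w | n ≤ jumpCount w t} ≤ clockLaw d {w | ∀ i < n, (w i).1 ≤ t} := by
    refine measure_mono_ae ?_
    filter_upwards [ae_good] with w hw h i hi
    have h1 : jumpTime w n ≤ t := (hw.le_jumpCount_iff ht).1 h
    have h2 : jumpTime w (i + 1) ≤ jumpTime w n := hw.strictMono.monotone hi
    rw [jumpTime_succ] at h2
    have : 0 ≤ jumpTime w i := Finset.sum_nonneg fun j _ => (hw.1 j).le
    linarith
  rw [box_Iic n ht] at h
  exact ENNReal.toReal_le_of_le_ofReal (pow_nonneg (q_nonneg ht) n) h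

lemma stay_prob {t : ℝ} (ht : 0 ≤ t) :
    Real.exp (-t) ≤ (clockLaw d).real {w | disp w t = 0} := by
  have h1 := box_range (d := d) 1 (fun _ => {e | e.1 ∈ Ioi t})
    (fun _ => measurable_fst measurableSet_Ioi)
  rw [nu1_fst, exp_Ioi ht, Finset.prod_const, Finset.card_range, pow_one] at h1
  have h : clockLaw d {w | ∀ i < 1, w i ∈ {e : ℝ × (Fin d × Bool) | e.1 ∈ Ioi t}} ≤
      clockLaw d {w | disp w t = 0} := by
    refine measure_mono_ae ?_
    filter_upwards [ae_good] with w hw h
    have h0 : t < (w 0).1 := h 0 one_pos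
    have : jumpCount w t = 0 := hw.jumpCount_eq (by simpa using ht) (by simpa [jumpTime_succ])
    change disp w t = 0
    simp [disp, this]
  rw [h1] at h
  exact (ENNReal.ofReal_le_iff_le_toReal (measure_ne_top _ _)).1 h

lemma step_prob (e : Fin d × Bool) : 0 < (clockLaw d).real {w | disp w 1 = step e} := by
  have hm : ∀ i : ℕ, MeasurableSet (Nat.casesOn i (Iic 1 ×ˢ {e}) (fun _ => {e | e.1 ∈ Ioi 1}) :
      Set (ℝ × (Fin d × Bool))) := by
    intro i
    cases i with
    | zero => exact measurableSet_Iic.prod (measurableSet_singleton e)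
    | succ i => exact measurable_fst measurableSet_Ioi
  have h1 := box_range (d := d) 2 _ hm
  have h : clockLaw d {w | ∀ i < 2, w i ∈ (Nat.casesOn i (Iic 1 ×ˢ {e})
      (fun _ => {e | e.1 ∈ Ioi 1}) : Set (ℝ × (Fin d × Bool)))} ≤
      clockLaw d {w | disp w 1 = step e} := by
    refine measure_mono_ae ?_
    filter_upwards [ae_good] with w hw h
    have h0 : (w 0).1 ≤ 1 := (h 0 (by norm_num)).1
    have h0' : (w 0).2 = e := (h 0 (by norm_num)).2
    have h1 : 1 < (w 1).1 := h 1 (by norm_num)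
    have : jumpCount w 1 = 1 := hw.jumpCount_eq (by simpa [jumpTime_succ] using h0)
      (by simp only [jumpTime_succ, jumpTime_zero]; linarith [hw.1 0])
    change disp w 1 = step e
    simp [disp, this, h0']
  rw [h1, Finset.prod_range_succ, Finset.prod_range_one] at h
  refine ENNReal.toReal_pos (ne_of_gt (lt_of_lt_of_le ?_ h)) (measure_ne_top _ _)
  refine ENNReal.mul_pos (ne_of_gt ?_) (ne_of_gt ?_)
  · change 0 < nu1 d (Iic 1 ×ˢ {e})
    rw [nu1, Measure.prod_prod, exp_Iic, if_pos zero_le_one, uniformOn_univ]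
    refine ENNReal.mul_pos (ne_of_gt ?_) (ne_of_gt ?_)
    · rw [ENNReal.ofReal_pos]
      have : Real.exp (-1) < 1 := Real.exp_lt_one_iff.2 (by norm_num)
      linarith
    · simp [ENNReal.mul_eq_top]
  · change 0 < nu1 d {e | e.1 ∈ Ioi 1}
    rw [nu1_fst, exp_Ioi zero_le_one, ENNReal.ofReal_pos]
    exact Real.exp_pos _

omit [NeZero d] in
lemma measurable_flip : Measurable (flip (d := d)) := by
  refine measurable_pi_iff.2 fun n => ?_
  unfold flip
  refine Measurable.prodMk (by fun_prop) (Measurable.prodMk (by fun_prop) ?_)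
  exact (measurable_of_countable (fun b : Bool => !b)).comp (by fun_prop)

lemma mp_flip : MeasurePreserving (flip (d := d)) (clockLaw d) (clockLaw d) := by
  refine ⟨measurable_flip, ?_⟩
  have hg : Measurable fun e : Fin d × Bool => (e.1, !e.2) := measurable_of_countable _
  have h1 : (uniformOn (univ : Set (Fin d × Bool))).map (fun e => (e.1, !e.2)) = uniformOn univ := by
    refine Measure.ext_of_singleton fun e => ?_
    rw [Measure.map_apply hg (measurableSet_singleton e)]
    have : (fun e : Fin d × Bool => (e.1, !e.2)) ⁻¹' {e} = {(e.1, !e.2)} := by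
      ext u
      obtain ⟨a, b⟩ := u
      obtain ⟨a', b'⟩ := e
      cases b <;> cases b' <;> simp
    rw [this, uniformOn_univ, uniformOn_univ]; simp
  have h2 : (nu1 d).map (Prod.map id fun e : Fin d × Bool => (e.1, !e.2)) = nu1 d := by
    rw [nu1, ← Measure.map_prod_map _ _ measurable_id hg, h1, Measure.map_id]
  have h3 := Measure.infinitePi_map_pi (fun _ : ℕ => nu1 d)
    (f := fun _ => Prod.map id fun e : Fin d × Bool => (e.1, !e.2))
    (fun _ => measurable_id.prodMap hg)
  simp_rw [h2] at h3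
  exact h3

end Pool.Agent.MP_0e9fac_pr

end

-- part MP_0e9fac_pr.Semigroup
section

/-! The semigroup of the walk. -/

set_option autoImplicit false
open MeasureTheory ProbabilityTheory Filter Set
open scoped Classical ENNReal Topology

namespace Pool.Agent.MP_0e9fac_pr

variable {d : ℕ}

/-- The semigroup. -/
noncomputable def Pt (t : ℝ) (f : Site d → ℝ) (x : Site d) : ℝ :=
  ∫ w, f (x + disp w t) ∂clockLaw d

/-- The indicator of a site. -/
noncomputable def dl (y : Site d) : Site d → ℝ := fun x => ind (x = y)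

/-- Nonnegative and summable. -/
structure NS (f : Site d → ℝ) : Prop where
  nonneg : ∀ x, 0 ≤ f x
  summable : Summable f

variable {f g : Site d → ℝ}

lemma NS.le_tsum (hf : NS f) (x : Site d) : f x ≤ ∑' y, f y :=
  hf.summable.le_tsum x fun y _ => hf.nonneg y

lemma NS.tsum_nonneg (hf : NS f) : 0 ≤ ∑' y, f y := _root_.tsum_nonneg hf.nonneg

lemma NS.bm (hf : NS f) : BM f :=
  BM.of_countable (C := ∑' y, f y) fun x => by rw [abs_of_nonneg (hf.nonneg x)]; exact hf.le_tsum x

lemma hasSum_dl (y : Site d) : HasSum (dl y) 1 := by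
  have := hasSum_single (f := dl y) y fun x hx => ind_neg hx
  rwa [show dl y y = 1 from ind_pos rfl] at this

lemma ns_dl (y : Site d) : NS (dl y) := ⟨fun _ => ind_nonneg _, (hasSum_dl y).summable⟩

lemma NS.sum {ι : Type*} (s : Finset ι) {F : ι → Site d → ℝ} (h : ∀ i ∈ s, NS (F i)) :
    NS fun x => ∑ i ∈ s, F i x :=
  ⟨fun x => Finset.sum_nonneg fun i hi => (h i hi).nonneg x,
    summable_sum fun i hi => (h i hi).summable⟩

lemma NS.sq (hf : NS f) {b : ℝ} (hb : ∀ x, f x ≤ b) :
    NS (fun x => f x ^ 2) ∧ ∑' x, f x ^ 2 ≤ b * ∑' x, f x := by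
  have h1 : ∀ x, f x ^ 2 ≤ b * f x := fun x => by
    rw [pow_two]; exact mul_le_mul_of_nonneg_right (hb x) (hf.nonneg x)
  have hs : Summable fun x => f x ^ 2 :=
    Summable.of_nonneg_of_le (fun x => sq_nonneg _) h1 (hf.summable.mul_left b)
  refine ⟨⟨fun x => sq_nonneg _, hs⟩, ?_⟩
  rw [← tsum_mul_left]
  exact hs.tsum_le_tsum h1 (hf.summable.mul_left b)

lemma bm_disp (hf : BM f) (x : Site d) (t : ℝ) : BM fun w : Clock d => f (x + disp w t) :=
  hf.comp ((measurable_disp t).const_add x)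

variable [NeZero d]

lemma abs_Pt_le {C : ℝ} (h : ∀ x, |f x| ≤ C) (t : ℝ) (x : Site d) : |Pt t f x| ≤ C :=
  abs_integral_le fun _ => h _

lemma BM.Pt (hf : BM f) (t : ℝ) : BM (Pt t f) := by
  obtain ⟨C, hC⟩ := hf.bdd
  exact BM.of_countable (abs_Pt_le hC t)

omit [NeZero d] in
lemma Pt_nonneg (h : ∀ x, 0 ≤ f x) (t : ℝ) (x : Site d) : 0 ≤ Pt t f x :=
  integral_nonneg fun _ => h _

lemma Pt_mono (hf : BM f) (hg : BM g) (h : ∀ x, f x ≤ g x) (t : ℝ) (x : Site d) :
    Pt t f x ≤ Pt t g x :=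
  (bm_disp hf x t).integral_mono (bm_disp hg x t) (Eventually.of_forall fun _ => h _)

lemma Pt_le {b : ℝ} (hf : BM f) (h : ∀ x, f x ≤ b) (t : ℝ) (x : Site d) : Pt t f x ≤ b := by
  simpa [Pt] using Pt_mono hf (BM.const b) h t x

omit [NeZero d] in
lemma Pt_const_mul (c : ℝ) (t : ℝ) (x : Site d) : Pt t (fun y => c * f y) x = c * Pt t f x :=
  integral_const_mul _ _

lemma Pt_sum {ι : Type*} (s : Finset ι) {F : ι → Site d → ℝ} (h : ∀ i ∈ s, BM (F i)) (t : ℝ)
    (x : Site d) : Pt t (fun y => ∑ i ∈ s, F i y) x = ∑ i ∈ s, Pt t (F i) x :=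
  integral_finsetSum _ fun i hi => (bm_disp (h i hi) x t).integrable

lemma Pt_zero (x : Site d) : Pt 0 f x = f x := by
  unfold Pt
  rw [integral_congr_ae (g := fun _ => f x)]
  · simp
  · filter_upwards [ae_good] with w hw
    rw [hw.disp_zero, add_zero]

lemma integral_glue {s t : ℝ} (hs : 0 ≤ s) (ht : 0 ≤ t) {G : Site d × Site d → ℝ} (hG : BM G) :
    ∫ w, G (disp w s, disp w (s + t)) ∂clockLaw d =
      ∫ w, ∫ w', G (disp w s, disp w s + disp w' t) ∂clockLaw d ∂clockLaw d := by
  rw [integral_eq_iter (mp_glue hs)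
    (hG.comp ((measurable_disp s).prodMk (measurable_disp (s + t))))]
  refine integral_congr_ae ?_
  filter_upwards [ae_good] with w hw
  refine integral_congr_ae ?_
  filter_upwards [ae_good] with w' hw'
  rw [disp_glue_le hw hw' hs hs le_rfl, disp_glue_add hw hw' hs ht]

lemma Pt_add (hf : BM f) {s t : ℝ} (hs : 0 ≤ s) (ht : 0 ≤ t) (x : Site d) :
    Pt (s + t) f x = Pt s (Pt t f) x := by
  have := integral_glue (d := d) hs ht (G := fun q => f (x + q.2))
    (hf.comp (measurable_of_countable _))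
  simp only [← add_assoc] at this
  exact this

lemma sum_Pt_le (hf : NS f) (t : ℝ) (F : Finset (Site d)) : ∑ z ∈ F, Pt t f z ≤ ∑' y, f y := by
  unfold Pt
  rw [← integral_finsetSum _ fun z _ => (bm_disp hf.bm z t).integrable]
  refine le_trans ((BM.sum F fun z _ => bm_disp hf.bm z t).integral_mono (BM.const (∑' y, f y))
    (Eventually.of_forall fun w => ?_)) (by simp)
  have := hf.summable.sum_le_tsum (F.map (addRightEmbedding (disp w t))) fun y _ => hf.nonneg y
  simpa [Finset.sum_map] using this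

lemma NS.Pt (hf : NS f) (t : ℝ) : NS (Pt t f) :=
  ⟨Pt_nonneg hf.nonneg t, summable_of_sum_le (Pt_nonneg hf.nonneg t) (sum_Pt_le hf t)⟩

lemma hasSum_Pt (hf : NS f) (t : ℝ) : HasSum (Pt t f) (∑' y, f y) := by
  have h := hasSum_integral_of_summable_integral_norm (μ := clockLaw d)
    (F := fun z w => f (z + disp w t)) (fun z => (bm_disp hf.bm z t).integrable) (by
      refine (hf.Pt t).summable.congr fun z => ?_
      unfold Pt
      congr 1
      ext w
      rw [Real.norm_of_nonneg (hf.nonneg _)])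
  have e : ∀ w : Clock d, ∑' z, f (z + disp w t) = ∑' y, f y := fun w =>
    (Equiv.addRight (disp w t)).tsum_eq f
  simp_rw [e] at h
  rw [integral_const, probReal_univ, one_smul] at h
  exact h

lemma tsum_Pt (hf : NS f) (t : ℝ) : ∑' x, Pt t f x = ∑' y, f y := (hasSum_Pt hf t).tsum_eq

lemma Pt_le_of_dl (hf : NS f) {t a : ℝ} (ha : ∀ x y : Site d, Pt t (dl y) x ≤ a) (x : Site d) :
    Pt t f x ≤ a * ∑' y, f y := by
  have h0 : ∀ y, 0 ≤ Pt t (dl y) x := fun y => Pt_nonneg (ns_dl y).nonneg t x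
  have hs : Summable fun y => f y * Pt t (dl y) x :=
    Summable.of_nonneg_of_le (fun y => mul_nonneg (hf.nonneg y) (h0 y))
      (fun y => mul_le_mul_of_nonneg_left (ha x y) (hf.nonneg y)) (hf.summable.mul_right a)
  have h := hasSum_integral_of_summable_integral_norm (μ := clockLaw d)
    (F := fun y w => f y * dl y (x + disp w t))
    (fun y => ((bm_disp (ns_dl y).bm x t).const_mul _).integrable) (by
      refine hs.congr fun y => ?_
      unfold Pt
      rw [← integral_const_mul]
      congr 1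
      ext w
      rw [Real.norm_of_nonneg (mul_nonneg (hf.nonneg _) ((ns_dl y).nonneg _))])
  have e : ∀ w : Clock d, ∑' y, f y * dl y (x + disp w t) = f (x + disp w t) := fun w => by
    rw [tsum_eq_single (x + disp w t)]
    · simp [dl, ind]
    · intro y hy; simp [dl, ind, hy.symm]
  simp_rw [e, integral_const_mul] at h
  refine hasSum_le (fun y => ?_) h ((hf.summable.hasSum.mul_left a))
  rw [mul_comm a]
  exact mul_le_mul_of_nonneg_left (ha x y) (hf.nonneg y)

lemma Pt_dl_self {t : ℝ} (ht : 0 ≤ t) (x : Site d) : Real.exp (-t) ≤ Pt t (dl x) x := by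
  refine (stay_prob (d := d) ht).trans (le_of_eq ?_)
  rw [← integral_ind (p := fun w : Clock d => disp w t = 0)
    (measurable_disp t (measurableSet_singleton 0))]
  unfold Pt dl
  congr 1
  ext w
  exact ind_congr (by simp)

lemma integral_flip {G : Site d → ℝ} (t : ℝ) :
    ∫ w, G (disp w t) ∂clockLaw d = ∫ w, G (- disp w t) ∂clockLaw d := by
  rw [← integral_mp mp_flip (f := fun w => G (disp w t))
    ((measurable_of_countable G).comp (measurable_disp t))]
  simp only [disp_flip]

/-- A summable function on the integers. -/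
lemma summable_int_geom {r : ℝ} (h0 : 0 ≤ r) (h1 : r < 1) :
    Summable fun n : ℤ => r ^ n.natAbs := by
  refine Summable.of_nat_of_neg ?_ ?_ <;> simpa using summable_geometric_of_lt_one h0 h1

/-- The weight used to bound the range of a walk during a unit time interval. -/
noncomputable def phi (x : Site d) : ℝ := (9 / 10 : ℝ) ^ nrm x

omit [NeZero d] in
lemma ns_phi : NS (phi (d := d)) := by
  have h0 : ∀ x : Site d, 0 ≤ phi x := fun x => by unfold phi; positivity
  have hs := summable_int_geom (r := 9 / 10) (by norm_num) (by norm_num)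
  refine ⟨h0, summable_of_sum_le h0 (c := (∑' n : ℤ, (9 / 10 : ℝ) ^ n.natAbs) ^ d) fun u => ?_⟩
  have hsub : u ⊆ Fintype.piFinset fun i => u.image fun x => x i := by
    intro x hx
    rw [Fintype.mem_piFinset]
    exact fun i => Finset.mem_image_of_mem _ hx
  refine (Finset.sum_le_sum_of_subset_of_nonneg hsub fun x _ _ => h0 x).trans ?_
  have e : ∀ x : Site d, phi x = ∏ i, (9 / 10 : ℝ) ^ (x i).natAbs := fun x => by
    rw [phi, nrm, Finset.prod_pow_eq_pow_sum]
  simp_rw [e]
  rw [← Finset.prod_univ_sum (fun i => u.image fun x => x i) fun _ n => (9 / 10 : ℝ) ^ n.natAbs]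
  refine (Finset.prod_le_prod (fun i _ => Finset.sum_nonneg fun _ _ => by positivity)
    fun i _ => hs.sum_le_tsum _ fun _ _ => by positivity).trans (le_of_eq ?_)
  simp

lemma tail_three (n : ℕ) :
    ∫ w, ind (n ≤ 3 * jumpCount w 1) ∂clockLaw d ≤ (9 / 10 : ℝ) ^ n := by
  rw [integral_ind (measurableSet_le measurable_const ((measurable_jumpCount 1).const_mul 3))]
  have h1 : {w : Clock d | n ≤ 3 * jumpCount w 1} ⊆ {w | (n + 2) / 3 ≤ jumpCount w 1} := by
    intro w hw
    simp only [mem_ofPred_eq] at hw ⊢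
    omega
  refine (measureReal_mono h1).trans ((tail_jumpCount _ zero_le_one).trans ?_)
  have h2 : 1 - Real.exp (-1) ≤ (9 / 10 : ℝ) ^ 3 := by
    have h3 : Real.exp 1 < 2.7182818286 := Real.exp_one_lt_d9
    have h4 : Real.exp (-1) * Real.exp 1 = 1 := by rw [← Real.exp_add]; simp
    nlinarith [Real.exp_pos (-1)]
  refine (pow_le_pow_left₀ (q_nonneg zero_le_one) h2 _).trans ?_
  rw [← pow_mul]
  exact pow_le_pow_of_le_one (by norm_num) (by norm_num) (by omega)

end Pool.Agent.MP_0e9fac_pr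

end

-- part MP_0e9fac_pr.System
section

/-! The finite systems: measurability, restarting at a deterministic time, comparison with the
system without annihilation. -/

set_option autoImplicit false
open MeasureTheory ProbabilityTheory Filter Set
open scoped Classical ENNReal Topology

namespace Pool.Agent.MP_0e9fac_pr

variable {d : ℕ} [P : Prio d]

section meas
variable {Ω : Type*} [MeasurableSpace Ω]

lemma measurable_card_filter (B : Finset (Site d)) {q : Ω → Site d → Prop}
    (hq : ∀ v, MeasurableSet {ω | q ω v}) : Measurable fun ω => (B.filter (q ω)).card := by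
  simp_rw [Finset.card_filter]
  exact Finset.measurable_sum _ fun v _ => Measurable.ite (hq v) measurable_const measurable_const

lemma measurable_resolve {c : Ω → Site d → Bool} {x : Ω → Site d → Site d}
    {A : Ω → Finset (Site d)} (hc : Measurable c) (hx : Measurable x) (hA : Measurable A) :
    Measurable fun ω => resolve P.pr (c ω) (x ω) (A ω) := by
  refine measurable_index (f := fun B ω => resolve P.pr (c ω) (x ω) B) hA fun B => ?_
  rw [measurable_finset_iff]
  intro w
  simp_rw [mem_resolve]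
  have e1 : ∀ v, MeasurableSet {ω | x ω v = x ω w} := fun v =>
    measurableSet_eq_fun ((measurable_pi_apply v).comp hx) ((measurable_pi_apply w).comp hx)
  have e2 : ∀ v, MeasurableSet {ω | c ω v = c ω w} := fun v =>
    measurableSet_eq_fun ((measurable_pi_apply v).comp hc) ((measurable_pi_apply w).comp hc)
  refine measurable_const.and (measurableSet_setOfPred.1 (measurableSet_le ?_ ?_))
  · convert measurable_card_filter B (q := fun ω v => x ω v = x ω w ∧ c ω v ≠ c ω w)
      fun v => (e1 v).inter (e2 v).compl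
  · convert measurable_card_filter B
      (q := fun ω v => x ω v = x ω w ∧ c ω v = c ω w ∧ P.pr v < P.pr w)
      fun v => (e1 v).inter ((e2 v).inter (MeasurableSet.const _))

lemma measurable_grid {c : Ω → Site d → Bool} {X : Ω → ℝ → Site d → Site d}
    {A : Ω → Finset (Site d)} (hc : Measurable c) (hX : ∀ r, Measurable fun ω => X ω r)
    (hA : Measurable A) (δ : ℝ) (i : ℕ) : Measurable fun ω => grid (c ω) (X ω) (A ω) δ i := by
  induction i with
  | zero => exact hA
  | succ i ih => exact measurable_resolve hc (hX _) ih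

lemma measurableSet_mem {A : Ω → Finset (Site d)} (hA : Measurable A) (w : Site d) :
    MeasurableSet {ω | w ∈ A ω} := measurableSet_setOfPred.2 (measurable_finset_iff.1 hA w)

lemma bm_sum_mem {A : Ω → Finset (Site d)} (hA : Measurable A) {F : Finset (Site d)}
    (hF : ∀ ω, A ω ⊆ F) {G : Site d → Ω → ℝ} (hG : ∀ w, BM (G w)) :
    BM fun ω => ∑ w ∈ A ω, G w ω := by
  have : (fun ω => ∑ w ∈ A ω, G w ω) = fun ω => ∑ w ∈ F, if w ∈ A ω then G w ω else 0 := by
    ext ω
    rw [Finset.sum_ite_mem, Finset.inter_eq_right.2 (hF ω)]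
  rw [this]
  exact BM.sum F fun w _ => BM.ite (measurableSet_mem hA w) (hG w) (BM.const 0)

lemma bm_sg : BM sg := BM.of_countable (C := 1) fun b => (abs_sg b).le

end meas

lemma measurable_col : Measurable (col (d := d)) := by
  unfold col; fun_prop

lemma measurable_pos (t : ℝ) : Measurable fun ω : Conf d => pos ω t := by
  refine measurable_pi_iff.2 fun z => ?_
  exact ((measurable_disp t).comp (by fun_prop)).const_add z

lemma measurable_al (F : Finset (Site d)) (t : ℝ) : Measurable fun ω : Conf d => al ω F t := by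
  rw [measurable_finset_iff]
  intro w
  simp_rw [al, Finset.mem_filter, eventually_atTop]
  refine measurable_const.and (Measurable.exists fun N => Measurable.forall fun m =>
    measurable_const.imp ?_)
  exact measurable_finset_iff.1
    (measurable_grid measurable_col measurable_pos measurable_const _ _) w

/-- Signed sum over the particles alive at time `t`. -/
noncomputable def SF (F : Finset (Site d)) (t : ℝ) (g : Site d → ℝ) (ω : Conf d) : ℝ :=
  SS (col ω) (pos ω t) (al ω F t) g

/-- Sum over the particles of colour `κ` alive at time `t`. -/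
noncomputable def UF (κ : Bool) (F : Finset (Site d)) (t : ℝ) (g : Site d → ℝ) (ω : Conf d) : ℝ :=
  UU κ (col ω) (pos ω t) (al ω F t) g

lemma bm_pos {g : Site d → ℝ} (hg : BM g) (t : ℝ) (w : Site d) :
    BM fun ω : Conf d => g (pos ω t w) :=
  hg.comp ((measurable_pi_apply w).comp (measurable_pos t))

lemma bm_sg_col (w : Site d) : BM fun ω : Conf d => sg (col ω w) :=
  bm_sg.comp ((measurable_pi_apply w).comp measurable_col)

lemma measurableSet_col (w : Site d) (κ : Bool) : MeasurableSet {ω : Conf d | col ω w = κ} :=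
  ((measurable_pi_apply w).comp measurable_col) (measurableSet_singleton κ)

lemma bm_SF {g : Site d → ℝ} (hg : BM g) (F : Finset (Site d)) (t : ℝ) : BM (SF F t g) :=
  bm_sum_mem (measurable_al F t) (fun _ => al_subset t) fun w => (bm_sg_col w).mul (bm_pos hg t w)

lemma bm_UF {g : Site d → ℝ} (hg : BM g) (κ : Bool) (F : Finset (Site d)) (t : ℝ) :
    BM (UF κ F t g) :=
  bm_sum_mem (measurable_al F t) (fun _ => al_subset t) fun w =>
    BM.ite (measurableSet_col w κ) (bm_pos hg t w) (BM.const 0)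

lemma UF_nonneg {g : Site d → ℝ} (hg : ∀ y, 0 ≤ g y) (κ : Bool) (F : Finset (Site d)) (t : ℝ)
    (ω : Conf d) : 0 ≤ UF κ F t g ω := UU_nonneg hg

lemma dependsOn_UF (g : Site d → ℝ) (κ : Bool) (F : Finset (Site d)) (t : ℝ) :
    DependsOn (UF κ F t g) F := by
  intro ω ω' h
  unfold UF UU
  rw [al_depends t h]
  refine Finset.sum_congr rfl fun w hw => ?_
  have := h w (al_subset t hw)
  simp only [col, pos, this]

/-- The configuration that follows `q.1` up to time `s` and `q.2` afterwards. -/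
noncomputable def Gam (s : ℝ) (q : Conf d × Conf d) : Conf d :=
  fun z => ((q.1 z).1, glue s (q.1 z).2 (q.2 z).2)

section det
variable {ω ω' : Conf d} (h : GoodC ω) (h' : GoodC ω') {s : ℝ} (hs : 0 ≤ s)

lemma col_Gam : col (Gam s (ω, ω')) = col ω := rfl

include h h' hs

lemma good_Gam : GoodC (Gam s (ω, ω')) := fun z => good_glue (h z) (h' z) hs

lemma pos_Gam_le {r : ℝ} (h0 : 0 ≤ r) (hr : r ≤ s) : pos (Gam s (ω, ω')) r = pos ω r := by
  funext z
  simp only [pos, Gam, disp_glue_le (h z) (h' z) hs h0 hr]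

lemma pos_Gam_add {r : ℝ} (h0 : 0 ≤ r) :
    pos (Gam s (ω, ω')) (s + r) = fun z => pos ω s z + disp (ω' z).2 r := by
  funext z
  simp only [pos, Gam, disp_glue_add (h z) (h' z) hs h0, add_assoc]

lemma al_Gam_le (F : Finset (Site d)) {r : ℝ} (h0 : 0 ≤ r) (hr : r ≤ s) :
    al (Gam s (ω, ω')) F r = al ω F r :=
  al_congr h0 (fun _ _ => rfl) fun u hu hur z _ => by rw [pos_Gam_le h h' hs hu (hur.trans hr)]

lemma UF_Gam_le (κ : Bool) (F : Finset (Site d)) (g : Site d → ℝ) {r : ℝ} (h0 : 0 ≤ r)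
    (hr : r ≤ s) : UF κ F r g (Gam s (ω, ω')) = UF κ F r g ω := by
  unfold UF
  rw [al_Gam_le h h' hs F h0 hr, pos_Gam_le h h' hs h0 hr, col_Gam]

lemma SF_Gam_le (F : Finset (Site d)) (g : Site d → ℝ) {r : ℝ} (h0 : 0 ≤ r)
    (hr : r ≤ s) : SF F r g (Gam s (ω, ω')) = SF F r g ω := by
  unfold SF
  rw [al_Gam_le h h' hs F h0 hr, pos_Gam_le h h' hs h0 hr, col_Gam]

lemma al_Gam_subset (F : Finset (Site d)) {r : ℝ} (h0 : 0 ≤ r) :
    al (Gam s (ω, ω')) F (s + r) ⊆ al ω F s := by
  rw [← al_Gam_le h h' hs F hs le_rfl]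
  exact al_anti (good_Gam h h' hs) hs (by linarith)

end det

/-- The law of one particle. -/
noncomputable def nu (d : ℕ) (p : unitInterval) : Measure (Bool × Clock d) :=
  (bernoulliMeasure true false p).prod (clockLaw d)

lemma law_eq (p : unitInterval) : law d p = PP (Site d) (nu d p) := rfl

variable [NeZero d] (p : unitInterval)

instance : IsProbabilityMeasure (nu d p) := by unfold nu; infer_instance

instance : IsProbabilityMeasure (law d p) := by rw [law_eq]; infer_instance

lemma mp_snd : MeasurePreserving Prod.snd (nu d p) (clockLaw d) := measurePreserving_snd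

lemma mp_Gam {s : ℝ} (hs : 0 ≤ s) :
    MeasurePreserving (Gam s) ((law d p).prod (law d p)) (law d p) := by
  have h1 : MeasurePreserving (fun q : (Bool × Clock d) × (Bool × Clock d) =>
      (q.1.1, glue s q.1.2 q.2.2)) ((nu d p).prod (nu d p)) (nu d p) :=
    ((MeasurePreserving.id (bernoulliMeasure true false p)).prod (mp_glue hs)).comp
      ((measurePreserving_prodAssoc (bernoulliMeasure true false p) (clockLaw d) (clockLaw d)).comp
        ((MeasurePreserving.id (nu d p)).prod (mp_snd p)))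
  exact mp_pair (nu d p) fun _ => h1

lemma ae_goodC : ∀ᵐ ω ∂law d p, GoodC ω := by
  refine ae_all_iff.2 fun z => ?_
  exact ((mp_snd p).comp (measurePreserving_eval_infinitePi (fun _ : Site d => nu d p) z)
    ).quasiMeasurePreserving.ae ae_good

lemma bm_Gam {Φ : Conf d → ℝ} (hΦ : BM Φ) {s : ℝ} (hs : 0 ≤ s) (ω : Conf d) :
    BM fun ω' => Φ (Gam s (ω, ω')) :=
  hΦ.comp ((mp_Gam (d := d) 0 hs).measurable.comp measurable_prodMk_left)

lemma le_of_glue {Φ Ψ : Conf d → ℝ} (hΦ : BM Φ) (hΨ : BM Ψ) {s : ℝ} (hs : 0 ≤ s)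
    (h : ∀ ω, GoodC ω → ∫ ω', Φ (Gam s (ω, ω')) ∂law d p ≤ Ψ ω) :
    ∫ ω, Φ ω ∂law d p ≤ ∫ ω, Ψ ω ∂law d p := by
  rw [integral_eq_iter (mp_Gam p hs) hΦ]
  refine ((hΦ.comp (mp_Gam p hs).measurable).integral _).integral_mono hΨ ?_
  filter_upwards [ae_goodC p] with ω hω using h ω hω

lemma ge_of_glue {Φ Ψ : Conf d → ℝ} (hΦ : BM Φ) (hΨ : BM Ψ) {s : ℝ} (hs : 0 ≤ s)
    (h : ∀ ω, GoodC ω → Ψ ω ≤ ∫ ω', Φ (Gam s (ω, ω')) ∂law d p) :
    ∫ ω, Ψ ω ∂law d p ≤ ∫ ω, Φ ω ∂law d p := by
  rw [integral_eq_iter (mp_Gam p hs) hΦ]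
  refine hΨ.integral_mono ((hΦ.comp (mp_Gam p hs).measurable).integral _) ?_
  filter_upwards [ae_goodC p] with ω hω using h ω hω

lemma eq_of_glue {Φ Ψ : Conf d → ℝ} (hΦ : BM Φ) {s : ℝ} (hs : 0 ≤ s)
    (h : ∀ ω, GoodC ω → ∫ ω', Φ (Gam s (ω, ω')) ∂law d p = Ψ ω) :
    ∫ ω, Φ ω ∂law d p = ∫ ω, Ψ ω ∂law d p := by
  rw [integral_eq_iter (mp_Gam p hs) hΦ]
  refine integral_congr_ae ?_
  filter_upwards [ae_goodC p] with ω hω using h ω hω

lemma integral_snd {G : Clock d → ℝ} (hG : Measurable G) :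
    ∫ e, G e.2 ∂nu d p = ∫ w, G w ∂clockLaw d := integral_mp (mp_snd p) hG

section cx
variable {c : Site d → Bool} {J : (Site d → Site d) → Finset (Site d) → ℝ}

omit [NeZero d] in
lemma measurable_move (x : Site d → Site d) (t : ℝ) :
    Measurable fun (ω : Conf d) (w : Site d) => x w + disp (ω w).2 t :=
  measurable_pi_iff.2 fun w => ((measurable_disp t).comp (by fun_prop)).const_add (x w)

omit [NeZero d] in
lemma bm_J {Ω : Type*} [MeasurableSpace Ω] (hJ : ∀ B, Measurable fun x => J x B)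
    {F : Finset (Site d)} {C : ℝ} (hC : ∀ x, ∀ B ⊆ F, |J x B| ≤ C)
    {X : Ω → Site d → Site d} {A : Ω → Finset (Site d)} (hX : Measurable X) (hA : Measurable A)
    (hF : ∀ ω, A ω ⊆ F) : BM fun ω => J (X ω) (A ω) :=
  ⟨measurable_index (f := fun B ω => J (X ω) B) hA fun B => (hJ B).comp hX, C,
    fun ω => hC _ _ (hF ω)⟩

lemma cx_grid (hJ : ∀ B, Measurable fun x => J x B) {F : Finset (Site d)} {C : ℝ}
    (hC : ∀ x, ∀ B ⊆ F, |J x B| ≤ C)
    (hK : ∀ t, 0 ≤ t → ∀ x, ∀ B ⊆ F,
      ∫ ω, J (fun w => x w + disp (ω w).2 t) (resolve P.pr c x B) ∂law d p ≤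
        ∫ ω, J (fun w => x w + disp (ω w).2 t) B ∂law d p)
    {δ : ℝ} (hδ : 0 ≤ δ) (m : ℕ) : ∀ x : Site d → Site d, ∀ A ⊆ F,
      ∫ ω, J (fun w => x w + disp (ω w).2 (m * δ))
        (grid c (fun r w => x w + disp (ω w).2 r) A δ m) ∂law d p ≤
      ∫ ω, J (fun w => x w + disp (ω w).2 (m * δ)) A ∂law d p := by
  induction m with
  | zero => intro x A _; exact le_rfl
  | succ m ih =>
    intro x A hA
    have b1 : BM fun ω : Conf d => J (fun w => x w + disp (ω w).2 ((m + 1 : ℕ) * δ))
        (grid c (fun r w => x w + disp (ω w).2 r) A δ (m + 1)) :=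
      bm_J hJ hC (measurable_move x _)
        (measurable_grid measurable_const (measurable_move x) measurable_const _ _)
        fun _ => (grid_subset _).trans hA
    have b2 : BM fun ω : Conf d => J (fun w => x w + disp (ω w).2 ((m + 1 : ℕ) * δ)) A :=
      bm_J hJ hC (measurable_move x _) measurable_const fun _ => hA
    have hm : (0 : ℝ) ≤ m * δ := by positivity
    have e : ((m + 1 : ℕ) : ℝ) * δ = δ + m * δ := by push_cast; ring
    rw [integral_eq_iter (mp_Gam p hδ) b2]
    refine le_of_glue p b1 ((b2.comp (mp_Gam p hδ).measurable).integral _) hδ fun ω hω => ?_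
    have k1 : ∀ ω', GoodC ω' → ∀ r, 0 ≤ r → (fun w => x w + disp (Gam δ (ω, ω') w).2 (δ + r)) =
        fun w => (x w + disp (ω w).2 δ) + disp (ω' w).2 r := by
      intro ω' hω' r hr
      funext w
      simp only [Gam, disp_glue_add (hω w) (hω' w) hδ hr, add_assoc]
    refine le_trans (le_of_eq (integral_congr_ae ?_)) (le_trans
      (ih (fun w => x w + disp (ω w).2 δ) (resolve P.pr c (fun w => x w + disp (ω w).2 δ) A)
        (resolve_subset.trans hA)) (le_trans (hK _ hm _ A hA) (le_of_eq (integral_congr_ae ?_))))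
    · filter_upwards [ae_goodC p] with ω' hω'
      rw [grid_succ', e, k1 ω' hω' _ hm]
      congr 1
      have k2 : (fun w => x w + disp (Gam δ (ω, ω') w).2 δ) = fun w => x w + disp (ω w).2 δ := by
        funext w
        simp only [Gam, disp_glue_le (hω w) (hω' w) hδ hδ le_rfl]
      rw [k2]
      refine grid_congr m (fun _ _ => rfl) fun j _ w _ => ?_
      exact congrFun (k1 ω' hω' (j * δ) (by positivity)) w
    · filter_upwards [ae_goodC p] with ω' hω'
      rw [e, k1 ω' hω' _ hm]

lemma tendsto_grid {ω : Conf d} (hω : GoodC ω) (hJ : ∀ B, Measurable fun x => J x B)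
    {F : Finset (Site d)} {C : ℝ} (hC : ∀ x, ∀ B ⊆ F, |J x B| ≤ C)
    {s t : ℝ} (hs : 0 ≤ s) (ht : 0 ≤ t) :
    Tendsto (fun m : ℕ => ∫ ω', J (fun w => pos ω s w + disp (ω' w).2 t)
      (grid (col ω) (fun r w => pos ω s w + disp (ω' w).2 r) (al ω F s) (t / m) m) ∂law d p) atTop
      (𝓝 (∫ ω', J (pos (Gam s (ω, ω')) (s + t)) (al (Gam s (ω, ω')) F (s + t)) ∂law d p)) := by
  refine tendsto_integral_of_dominated_convergence (fun _ => C) (fun m => ?_)
    (integrable_const C) (fun m => Eventually.of_forall fun ω' => ?_) ?_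
  · exact (bm_J hJ hC (measurable_move _ _)
      (measurable_grid measurable_const (measurable_move _) measurable_const _ _)
      fun _ => (grid_subset _).trans (al_subset s)).meas.aestronglyMeasurable
  · exact hC _ _ ((grid_subset _).trans (al_subset s))
  · filter_upwards [ae_goodC p] with ω' hω'
    refine tendsto_const_nhds.congr' ?_
    filter_upwards [chain (F := F) (good_Gam hω hω' hs) hs ht] with m hm
    rw [hm, pos_Gam_add hω hω' hs ht, al_Gam_le hω hω' hs F hs le_rfl, col_Gam]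
    congr 1
    refine grid_congr m (fun _ _ => rfl) fun j _ w _ => ?_
    exact congrFun (pos_Gam_add hω hω' hs (r := j * (t / m)) (by positivity)) w

lemma cx {ω : Conf d} (hω : GoodC ω) (hJ : ∀ B, Measurable fun x => J x B) {F : Finset (Site d)}
    {C : ℝ} (hC : ∀ x, ∀ B ⊆ F, |J x B| ≤ C)
    (hK : ∀ t, 0 ≤ t → ∀ x, ∀ B ⊆ F,
      ∫ ω', J (fun w => x w + disp (ω' w).2 t) (resolve P.pr (col ω) x B) ∂law d p ≤
        ∫ ω', J (fun w => x w + disp (ω' w).2 t) B ∂law d p)
    {s t : ℝ} (hs : 0 ≤ s) (ht : 0 ≤ t) :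
    ∫ ω', J (pos (Gam s (ω, ω')) (s + t)) (al (Gam s (ω, ω')) F (s + t)) ∂law d p ≤
      ∫ ω', J (fun w => pos ω s w + disp (ω' w).2 t) (al ω F s) ∂law d p := by
  have hlim := tendsto_grid p hω hJ hC hs ht
  refine le_of_tendsto hlim ?_
  filter_upwards [eventually_gt_atTop 0] with m hm0
  have hm0' : (0 : ℝ) < m := by exact_mod_cast hm0
  have := cx_grid p hJ hC hK (δ := t / m) (by positivity) m (pos ω s) (al ω F s) (al_subset s)
  rwa [mul_div_cancel₀ _ hm0'.ne'] at this

end cx

end Pool.Agent.MP_0e9fac_pr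

end

-- part MP_0e9fac_pr.Cond
section

/-! Conditional identities, discrepancies, and the densities of the infinite system. -/

set_option autoImplicit false
open MeasureTheory ProbabilityTheory Filter Set
open scoped Classical ENNReal Topology

namespace Pool.Agent.MP_0e9fac_pr

variable {d : ℕ} [P : Prio d] [NeZero d] (p : unitInterval) {g : Site d → ℝ}

omit [NeZero d] in
lemma bm_move (hg : BM g) (x : Site d) (t : ℝ) (w : Site d) :
    BM fun ω : Conf d => g (x + disp (ω w).2 t) :=
  (bm_disp hg x t).comp (φ := fun ω : Conf d => (ω w).2) (by fun_prop)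

lemma integral_clock {G : Clock d → ℝ} (hG : Measurable G) (w : Site d) :
    ∫ ω, G (ω w).2 ∂law d p = ∫ u, G u ∂clockLaw d := by
  rw [← integral_snd p hG, law_eq]
  exact integral_eval (nu d p) (g := fun e => G e.2) (hG.comp measurable_snd) w

lemma integral_move (hg : BM g) (x : Site d) (t : ℝ) (w : Site d) :
    ∫ ω, g (x + disp (ω w).2 t) ∂law d p = Pt t g x :=
  integral_clock p (bm_disp hg x t).meas w

lemma free_SS (hg : BM g) (c : Site d → Bool) (x : Site d → Site d) (B : Finset (Site d)) (t : ℝ) :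
    ∫ ω, SS c (fun w => x w + disp (ω w).2 t) B g ∂law d p = SS c x B (Pt t g) := by
  unfold SS
  rw [integral_finsetSum _ fun w _ => ((bm_move hg (x w) t w).const_mul _).integrable]
  exact Finset.sum_congr rfl fun w _ => by rw [integral_const_mul, integral_move p hg]

omit [NeZero d] in
lemma bm_free_UU (hg : BM g) (κ : Bool) (c : Site d → Bool) (x : Site d → Site d)
    (B : Finset (Site d)) (t : ℝ) :
    BM fun ω : Conf d => UU κ c (fun w => x w + disp (ω w).2 t) B g :=
  BM.sum B fun w _ => by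
    by_cases h : c w = κ
    · simpa only [if_pos h] using bm_move hg (x w) t w
    · simpa only [if_neg h] using BM.const 0

lemma free_UU (hg : BM g) (κ : Bool) (c : Site d → Bool) (x : Site d → Site d)
    (B : Finset (Site d)) (t : ℝ) :
    ∫ ω, UU κ c (fun w => x w + disp (ω w).2 t) B g ∂law d p = UU κ c x B (Pt t g) := by
  unfold UU
  rw [integral_finsetSum]
  · refine Finset.sum_congr rfl fun w _ => ?_
    by_cases h : c w = κ
    · simp only [if_pos h, integral_move p hg]
    · simp [if_neg h]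
  · intro w _
    by_cases h : c w = κ
    · simpa only [if_pos h] using (bm_move hg (x w) t w).integrable
    · simp [if_neg h]

omit [NeZero d] in
lemma measurable_SS (c : Site d → Bool) (B : Finset (Site d)) (g : Site d → ℝ) :
    Measurable fun x : Site d → Site d => SS c x B g :=
  Finset.measurable_sum _ fun w _ =>
    ((measurable_of_countable g).comp (measurable_pi_apply w)).const_mul _

omit [NeZero d] in
lemma abs_SS_le' {C : ℝ} (hg : ∀ y, |g y| ≤ C) (c : Site d → Bool) (x : Site d → Site d)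
    {F B : Finset (Site d)} (hB : B ⊆ F) : |SS c x B g| ≤ F.card * C :=
  (abs_SS_le hg).trans (mul_le_mul_of_nonneg_right (by exact_mod_cast Finset.card_le_card hB)
    ((abs_nonneg _).trans (hg 0)))

lemma cond_SF (hg : BM g) {ω : Conf d} (hω : GoodC ω) (F : Finset (Site d)) {s t : ℝ} (hs : 0 ≤ s)
    (ht : 0 ≤ t) : ∫ ω', SF F (s + t) g (Gam s (ω, ω')) ∂law d p = SF F s (Pt t g) ω := by
  obtain ⟨C, hC⟩ := hg.bdd
  have h1 := cx p (J := fun x B => SS (col ω) x B g) hω (fun B => measurable_SS _ B g) (F := F)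
    (fun x B hB => abs_SS_le' hC _ x hB)
    (fun t _ x B _ => by rw [free_SS p hg, free_SS p hg, SS_resolve]) hs ht
  have h2 := cx p (J := fun x B => - SS (col ω) x B g) hω (fun B => (measurable_SS _ B g).neg)
    (F := F) (fun x B hB => by rw [abs_neg]; exact abs_SS_le' hC _ x hB)
    (fun t _ x B _ => by
      rw [integral_neg, integral_neg, free_SS p hg, free_SS p hg, SS_resolve]) hs ht
  rw [integral_neg, integral_neg, neg_le_neg_iff] at h2
  rw [free_SS p hg] at h1 h2
  exact le_antisymm h1 h2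

lemma cond_UF_le (hg : BM g) (h0 : ∀ y, 0 ≤ g y) (κ : Bool) {ω : Conf d} (hω : GoodC ω)
    (F : Finset (Site d)) {s t : ℝ} (hs : 0 ≤ s) (ht : 0 ≤ t) :
    ∫ ω', UF κ F (s + t) g (Gam s (ω, ω')) ∂law d p ≤ UF κ F s (Pt t g) ω := by
  rw [UF, ← free_UU p hg]
  refine (bm_Gam (bm_UF hg κ F _) hs ω).integral_mono (bm_free_UU hg κ _ _ _ t) ?_
  filter_upwards [ae_goodC p] with ω' hω'
  rw [UF, pos_Gam_add hω hω' hs ht, col_Gam]
  exact UU_mono h0 (al_Gam_subset hω hω' hs F ht)

lemma exp_Pt_le (hg : BM g) (t : ℝ) (x : Site d) :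
    Real.exp (Pt t g x) ≤ Pt t (fun y => Real.exp (g y)) x := by
  set a := Pt t g x with ha
  have h1 : ∀ y, Real.exp a * (1 - a) + Real.exp a * g y ≤ Real.exp (g y) := by
    intro y
    have := Real.add_one_le_exp (g y - a)
    have e : Real.exp (g y) = Real.exp a * Real.exp (g y - a) := by rw [← Real.exp_add]; ring_nf
    rw [e]
    nlinarith [Real.exp_pos a]
  refine le_trans (le_of_eq ?_) (Pt_mono ((BM.const _).add (hg.const_mul _)) hg.exp h1 t x)
  unfold Pt
  rw [integral_add (integrable_const _) ((bm_disp hg x t).const_mul _).integrable,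
    integral_const_mul, integral_const_mul]
  have : ∫ w, g (x + disp w t) ∂clockLaw d = a := rfl
  rw [this]; simp; ring

lemma free_exp_SS (hg : BM g) (c : Site d → Bool) (x : Site d → Site d) (B : Finset (Site d))
    (t : ℝ) : ∫ ω, Real.exp (SS c (fun w => x w + disp (ω w).2 t) B g) ∂law d p =
      ∏ w ∈ B, Pt t (fun y => Real.exp (sg (c w) * g y)) (x w) := by
  unfold SS
  simp_rw [Real.exp_sum]
  rw [law_eq, integral_prod_eval (nu d p) B
    (g := fun w e => Real.exp (sg (c w) * g (x w + disp e.2 t)))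
    fun w => (((bm_disp hg (x w) t).comp measurable_snd).const_mul _).exp]
  exact Finset.prod_congr rfl fun w _ =>
    integral_snd p (((bm_disp hg (x w) t).const_mul _).exp).meas

lemma cond_exp_SF (hg : BM g) {ω : Conf d} (hω : GoodC ω) (F : Finset (Site d)) {t : ℝ}
    (ht : 0 ≤ t) : ∫ ω', Real.exp (SF F t g (Gam 0 (ω, ω'))) ∂law d p ≤
      ∏ w ∈ F, Pt t (fun y => Real.exp (sg (col ω w) * g y)) w := by
  obtain ⟨C, hC⟩ := hg.bdd
  have h1 := cx p (J := fun x B => Real.exp (SS (col ω) x B g)) hω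
    (fun B => Real.measurable_exp.comp (measurable_SS _ B g)) (F := F) (C := Real.exp (F.card * C))
    (fun x B hB => by
      rw [abs_of_pos (Real.exp_pos _)]
      exact Real.exp_le_exp.2 ((le_abs_self _).trans (abs_SS_le' hC _ x hB)))
    (fun t _ x B _ => by
      rw [free_exp_SS p hg, free_exp_SS p hg,
        ← Finset.prod_sdiff (resolve_subset (pr := P.pr) (c := col ω) (x := x) (A := B))]
      refine le_mul_of_one_le_left (Finset.prod_nonneg fun w _ =>
        Pt_nonneg (fun _ => (Real.exp_pos _).le) _ _) ?_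
      have e : SS (col ω) x (B \ resolve P.pr (col ω) x B) (Pt t g) = 0 := by
        have := SS_resolve (P := P) (c := col ω) (x := x) (A := B) (Pt t g)
        unfold SS at this ⊢
        rw [← Finset.sum_sdiff (resolve_subset (pr := P.pr) (c := col ω) (x := x) (A := B))] at this
        linarith
      rw [← Real.exp_zero, ← e, SS, Real.exp_sum]
      refine Finset.prod_le_prod (fun _ _ => (Real.exp_pos _).le) fun w _ => ?_
      rw [← Pt_const_mul]
      exact exp_Pt_le (hg.const_mul _) t _) le_rfl ht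
  rw [free_exp_SS p hg, al_zero hω, zero_add] at h1
  simp only [pos_zero hω] at h1
  exact h1

lemma integral_col (G : Bool → ℝ) (w : Site d) :
    ∫ ω, G (col ω w) ∂law d p = p * G true + (1 - p) * G false := by
  have h1 : ∫ e, G e.1 ∂nu d p = ∫ b, G b ∂bernoulliMeasure true false p :=
    integral_mp measurePreserving_fst (measurable_of_countable G)
  rw [integral_bernoulliMeasure] at h1
  rw [law_eq]
  exact (integral_eval (nu d p) (g := fun e => G e.1)
    ((measurable_of_countable G).comp measurable_fst) w).trans h1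

lemma exp_SF_le (hg : BM g) (F : Finset (Site d)) {t : ℝ} (ht : 0 ≤ t) :
    ∫ ω, Real.exp (SF F t g ω) ∂law d p ≤ ∏ w ∈ F, (p * Pt t (fun y => Real.exp (g y)) w +
      (1 - p) * Pt t (fun y => Real.exp (- g y)) w) := by
  have hb : ∀ w : Site d, BM fun b : Bool => Pt t (fun y => Real.exp (sg b * g y)) w := fun w =>
    BM.of_countable (C := |Pt t (fun y => Real.exp (sg true * g y)) w| +
      |Pt t (fun y => Real.exp (sg false * g y)) w|) fun b => by
        cases b
        · exact le_add_of_nonneg_left (abs_nonneg _)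
        · exact le_add_of_nonneg_right (abs_nonneg _)
  refine (le_of_glue p (bm_SF hg F t).exp (BM.prod F fun w _ => (hb w).comp
    ((measurable_pi_apply w).comp measurable_col)) le_rfl
    fun ω hω => cond_exp_SF p hg hω F ht).trans (le_of_eq ?_)
  rw [law_eq]
  refine (integral_prod_eval (nu d p) F
    (g := fun w e => Pt t (fun y => Real.exp (sg e.1 * g y)) w)
    fun w => (hb w).comp measurable_fst).trans (Finset.prod_congr rfl fun w _ => ?_)
  have h1 : ∫ e, Pt t (fun y => Real.exp (sg e.1 * g y)) w ∂nu d p =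
      ∫ b, Pt t (fun y => Real.exp (sg b * g y)) w ∂bernoulliMeasure true false p :=
    integral_mp measurePreserving_fst (hb w).meas
  rw [h1, integral_bernoulliMeasure]
  simp [sg]

omit [NeZero d] in
lemma SF_zero {ω : Conf d} (hω : GoodC ω) (F : Finset (Site d)) (g : Site d → ℝ) :
    SF F 0 g ω = ∑ w ∈ F, sg (col ω w) * g w := by
  simp only [SF, SS, al_zero hω, pos_zero hω]

lemma cond_SF_zero (hg : BM g) {ω : Conf d} (hω : GoodC ω) (F : Finset (Site d)) {t : ℝ}
    (ht : 0 ≤ t) : ∫ ω', SF F t g (Gam 0 (ω, ω')) ∂law d p = ∑ w ∈ F, sg (col ω w) * Pt t g w := by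
  have := cond_SF p hg hω F le_rfl ht
  rwa [zero_add, SF_zero hω] at this

lemma integral_SF (hg : BM g) (F : Finset (Site d)) {t : ℝ} (ht : 0 ≤ t) :
    ∫ ω, SF F t g ω ∂law d p = (2 * p - 1) * ∑ w ∈ F, Pt t g w := by
  rw [eq_of_glue p (bm_SF hg F t) le_rfl fun ω hω => cond_SF_zero p hg hω F ht,
    integral_finsetSum _ fun w _ => ((bm_sg_col w).mul (BM.const _)).integrable, Finset.mul_sum]
  refine Finset.sum_congr rfl fun w _ => ?_
  rw [integral_mul_const, integral_col p sg]
  simp only [sg]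
  norm_num; left; ring

/-- The value of `g` at the position of the discrepancy created by the particle `z`. -/
noncomputable def TR (z : Site d) (F : Finset (Site d)) (t : ℝ) (g : Site d → ℝ) (ω : Conf d) : ℝ :=
  sg (col ω z) * (SF (insert z F) t g ω - SF F t g ω)

omit [NeZero d] in
lemma bm_TR (hg : BM g) (z : Site d) (F : Finset (Site d)) (t : ℝ) : BM (TR z F t g) :=
  (bm_sg_col z).mul ((bm_SF hg _ t).sub (bm_SF hg _ t))

lemma cond_TR (hg : BM g) {ω : Conf d} (hω : GoodC ω) (z : Site d) (F : Finset (Site d)) {s t : ℝ}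
    (hs : 0 ≤ s) (ht : 0 ≤ t) :
    ∫ ω', TR z F (s + t) g (Gam s (ω, ω')) ∂law d p = TR z F s (Pt t g) ω := by
  unfold TR
  simp only [col_Gam]
  rw [integral_const_mul, integral_sub (bm_Gam (bm_SF hg _ _) hs ω).integrable
    (bm_Gam (bm_SF hg _ _) hs ω).integrable, cond_SF p hg hω _ hs ht, cond_SF p hg hω _ hs ht]

lemma integral_TR (hg : BM g) {z : Site d} {F : Finset (Site d)} (hz : z ∉ F) {t : ℝ} (ht : 0 ≤ t) :
    ∫ ω, TR z F t g ω ∂law d p = Pt t g z := by
  rw [eq_of_glue p (bm_TR hg z F t) le_rfl (Ψ := fun _ => Pt t g z)]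
  · simp
  · intro ω hω
    have := cond_TR p hg hω z F le_rfl ht
    rw [zero_add] at this
    rw [this, TR, SF_zero hω, SF_zero hω, Finset.sum_insert hz, add_sub_cancel_right, ← mul_assoc,
      sg_mul_self, one_mul]

lemma abs_UF_insert (hg : BM g) (h0 : ∀ y, 0 ≤ g y) (κ : Bool) {z : Site d} {F : Finset (Site d)}
    (hz : z ∉ F) {t : ℝ} (ht : 0 ≤ t) :
    ∫ ω, |UF κ (insert z F) t g ω - UF κ F t g ω| ∂law d p ≤ Pt t g z := by
  rw [← integral_TR p hg hz ht]
  refine ((bm_UF hg κ _ t).sub (bm_UF hg κ _ t)).abs.integral_mono (bm_TR hg z F t) ?_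
  filter_upwards [ae_goodC p] with ω hω
  obtain ⟨u, h1, h2, _⟩ := al_tracer hω ht hz
  refine (h2 κ g).trans (le_of_eq ?_)
  rw [abs_of_nonneg (h0 _), ← h1 g]; rfl

lemma sq_UF_insert (hg : BM g) (κ : Bool) {z : Site d} {F : Finset (Site d)}
    (hz : z ∉ F) {t : ℝ} (ht : 0 ≤ t) :
    ∫ ω, (UF κ (insert z F) t g ω - UF κ F t g ω) ^ 2 ∂law d p ≤ Pt t (fun y => g y ^ 2) z := by
  rw [← integral_TR p hg.sq hz ht]
  refine ((bm_UF hg κ _ t).sub (bm_UF hg κ _ t)).sq.integral_mono (bm_TR hg.sq z F t) ?_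
  filter_upwards [ae_goodC p] with ω hω
  obtain ⟨u, h1, h2, _⟩ := al_tracer hω ht hz
  have := h1 fun y => g y ^ 2
  exact (sq_le_sq.2 (h2 κ g)).trans (le_of_eq this.symm)

lemma abs_UF_union (hg : BM g) (h0 : ∀ y, 0 ≤ g y) (κ : Bool) (F : Finset (Site d)) {t : ℝ}
    (ht : 0 ≤ t) (S : Finset (Site d)) (hS : Disjoint S F) :
    ∫ ω, |UF κ (S ∪ F) t g ω - UF κ F t g ω| ∂law d p ≤ ∑ z ∈ S, Pt t g z := by
  induction S using Finset.induction_on with
  | empty => simp
  | insert z S hz ih =>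
    rw [Finset.disjoint_insert_left] at hS
    have hz' : z ∉ S ∪ F := by simp [hz, hS.1]
    rw [Finset.sum_insert hz, Finset.insert_union]
    refine le_trans ?_ (add_le_add (abs_UF_insert p hg h0 κ hz' ht) (ih hS.2))
    have b1 := ((bm_UF hg κ (insert z (S ∪ F)) t).sub (bm_UF hg κ (S ∪ F) t)).abs
    have b2 := ((bm_UF hg κ (S ∪ F) t).sub (bm_UF hg κ F t)).abs
    rw [← integral_add b1.integrable b2.integrable]
    exact ((bm_UF hg κ _ t).sub (bm_UF hg κ _ t)).abs.integral_mono (b1.add b2)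
      (Eventually.of_forall fun ω => abs_sub_le _ _ _)

lemma abs_UF_sub (hg : BM g) (h0 : ∀ y, 0 ≤ g y) (κ : Bool) {F F' : Finset (Site d)} (h : F ⊆ F')
    {t : ℝ} (ht : 0 ≤ t) :
    ∫ ω, |UF κ F' t g ω - UF κ F t g ω| ∂law d p ≤ ∑ z ∈ F' \ F, Pt t g z := by
  have := abs_UF_union p hg h0 κ F ht (F' \ F) Finset.sdiff_disjoint
  rwa [Finset.sdiff_union_of_subset h] at this

/-- The mean of `UF`. -/
noncomputable def uu (κ : Bool) (t : ℝ) (g : Site d → ℝ) (F : Finset (Site d)) : ℝ :=
  ∫ ω, UF κ F t g ω ∂law d p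

omit [NeZero d] in
lemma uu_nonneg (h0 : ∀ y, 0 ≤ g y) (κ : Bool) (t : ℝ) (F : Finset (Site d)) : 0 ≤ uu p κ t g F :=
  integral_nonneg (UF_nonneg h0 κ F t)

lemma sq_UF_le (hg : NS g) {b : ℝ} (hb : ∀ y, g y ≤ b) (κ : Bool) (F : Finset (Site d)) {t : ℝ}
    (ht : 0 ≤ t) : ∫ ω, UF κ F t g ω ^ 2 ∂law d p ≤ uu p κ t g F ^ 2 + b * ∑' y, g y := by
  have h := efron_stein (nu d p) F (UF κ F t g) (fun z => UF κ (F.erase z) t g)
    (bm_UF hg.bm κ F t) (fun z => bm_UF hg.bm κ _ t) (dependsOn_UF g κ F t)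
    fun z => (dependsOn_UF g κ (F.erase z) t).mono fun w hw => Finset.ne_of_mem_erase hw
  refine h.trans (add_le_add le_rfl ?_)
  refine le_trans (Finset.sum_le_sum fun z hz => ?_)
    ((sum_Pt_le (hg.sq hb).1 t F).trans (hg.sq hb).2)
  have := sq_UF_insert p hg.bm κ (Finset.notMem_erase z F) ht
  rwa [Finset.insert_erase hz] at this

lemma uu_le_sum (hg : BM g) (h0 : ∀ y, 0 ≤ g y) (κ : Bool) (F : Finset (Site d)) {t : ℝ}
    (ht : 0 ≤ t) : uu p κ t g F ≤ ∑ z ∈ F, Pt t g z := by
  have := abs_UF_sub p hg h0 κ (Finset.empty_subset F) ht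
  rw [Finset.sdiff_empty] at this
  refine le_trans (le_of_eq (integral_congr_ae (Eventually.of_forall fun ω => ?_))) this
  have e : UF κ ∅ t g ω = 0 := by
    unfold UF UU
    rw [Finset.subset_empty.1 (al_subset t)]; simp
  simp only [e, sub_zero, abs_of_nonneg (UF_nonneg h0 κ F t ω)]

lemma exists_limit (hg : NS g) (κ : Bool) {t : ℝ} (ht : 0 ≤ t) :
    ∃ L, Tendsto (uu p κ t g) atTop (𝓝 L) := by
  refine cauchySeq_tendsto_of_complete (Metric.cauchySeq_iff'.2 fun ε hε => ?_)
  obtain ⟨S, hS⟩ := summable_iff_vanishing_norm.1 (hg.Pt t).summable ε hε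
  refine ⟨S, fun F hF => ?_⟩
  rw [Real.dist_eq, uu, uu, ← integral_sub (bm_UF hg.bm κ F t).integrable
    (bm_UF hg.bm κ S t).integrable]
  refine lt_of_le_of_lt (abs_integral_le_integral_abs.trans
    ((abs_UF_sub p hg.bm hg.nonneg κ hF ht).trans (le_abs_self _))) (hS _ Finset.sdiff_disjoint)

/-- The grid system started from given colours and positions. -/
noncomputable def WW (κ : Bool) (g : Site d → ℝ) (δ : ℝ) (m : ℕ) (c : Site d → Bool)
    (x : Site d → Site d) (A : Finset (Site d)) (ω : Conf d) : ℝ :=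
  UU κ c (fun w => x w + disp (ω w).2 (m * δ)) (grid c (fun r w => x w + disp (ω w).2 r) A δ m) g

omit [NeZero d] in
lemma measurable_UU (κ : Bool) (c : Site d → Bool) (B : Finset (Site d)) (g : Site d → ℝ) :
    Measurable fun x : Site d → Site d => UU κ c x B g :=
  Finset.measurable_sum _ fun w _ => by
    by_cases h : c w = κ
    · simp only [if_pos h]
      exact (measurable_of_countable g).comp (measurable_pi_apply w)
    · simp only [if_neg h]; exact measurable_const

omit [NeZero d] in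
lemma abs_UU_le' {C : ℝ} (hg : ∀ y, |g y| ≤ C) (κ : Bool) (c : Site d → Bool) (x : Site d → Site d)
    {F B : Finset (Site d)} (hB : B ⊆ F) : |UU κ c x B g| ≤ F.card * C :=
  (abs_UU_le hg).trans (mul_le_mul_of_nonneg_right (by exact_mod_cast Finset.card_le_card hB)
    ((abs_nonneg _).trans (hg 0)))

omit [NeZero d] in
lemma bm_WW (hg : BM g) (κ : Bool) (δ : ℝ) (m : ℕ) (c : Site d → Bool)
    (x : Site d → Site d) (A : Finset (Site d)) : BM (WW κ g δ m c x A) := by
  obtain ⟨C, hC⟩ := hg.bdd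
  exact bm_J (J := fun x B => UU κ c x B g) (fun B => measurable_UU κ c B g) (F := A)
    (fun x B hB => abs_UU_le' hC κ c x hB) (measurable_move x _)
    (measurable_grid measurable_const (measurable_move x) measurable_const _ _)
    fun _ => grid_subset _

omit [NeZero d] in
lemma WW_Gam (κ : Bool) {δ : ℝ} (hδ : 0 ≤ δ) (m : ℕ) (c : Site d → Bool)
    (x : Site d → Site d) (A : Finset (Site d)) {ω ω' : Conf d} (hω : GoodC ω) (hω' : GoodC ω') :
    WW κ g δ (m + 1) c x A (Gam δ (ω, ω')) = WW κ g δ m c (fun w => x w + disp (ω w).2 δ)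
      (resolve P.pr c (fun w => x w + disp (ω w).2 δ) A) ω' := by
  have hm : (0 : ℝ) ≤ m * δ := by positivity
  have e : ((m + 1 : ℕ) : ℝ) * δ = δ + m * δ := by push_cast; ring
  have k1 : ∀ r, 0 ≤ r → (fun w => x w + disp (Gam δ (ω, ω') w).2 (δ + r)) =
      fun w => (x w + disp (ω w).2 δ) + disp (ω' w).2 r := by
    intro r hr
    funext w
    simp only [Gam, disp_glue_add (hω w) (hω' w) hδ hr, add_assoc]
  unfold WW
  rw [grid_succ', e, k1 _ hm]
  congr 1
  have k2 : (fun w => x w + disp (Gam δ (ω, ω') w).2 δ) = fun w => x w + disp (ω w).2 δ := by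
    funext w
    simp only [Gam, disp_glue_le (hω w) (hω' w) hδ hδ le_rfl]
  rw [k2]
  refine grid_congr m (fun _ _ => rfl) fun j _ w _ => ?_
  exact congrFun (k1 (j * δ) (by positivity)) w

lemma mp_reindex {f : Site d → Site d} (hf : Function.Injective f) :
    MeasurePreserving (fun (ω : Conf d) z => ω (f z)) (law d p) (law d p) :=
  ⟨by fun_prop, Measure.map_infinitePi_infinitePi_of_inj (P := fun _ : Site d => nu d p) hf⟩

omit P in
lemma WW_indep (P Q : Prio d) (hg : BM g) (κ : Bool) {δ : ℝ} (hδ : 0 ≤ δ) (m : ℕ) :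
    ∀ (c : Site d → Bool) (x : Site d → Site d) (A : Finset (Site d))
      (c' : Site d → Bool) (x' : Site d → Site d) (A' : Finset (Site d)), Same c x A c' x' A' →
      ∫ ω, WW (P := P) κ g δ m c x A ω ∂law d p = ∫ ω, WW (P := Q) κ g δ m c' x' A' ω ∂law d p := by
  induction m with
  | zero =>
    intro c x A c' x' A' h
    obtain ⟨τ, rfl, h2⟩ := h.exists_equiv
    simp only [WW, grid]
    rw [free_UU p hg, free_UU p hg]
    simp only [UU, Finset.sum_map, Equiv.coe_toEmbedding]
    exact Finset.sum_congr rfl fun w hw => by rw [(h2 w hw).1, (h2 w hw).2]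
  | succ m ih =>
    intro c x A c' x' A' h
    obtain ⟨τ, rfl, h2⟩ := h.exists_equiv
    have mp := mp_reindex p τ.symm.injective
    have b1 := bm_WW (P := P) hg κ δ (m + 1) c x A
    have b2 := bm_WW (P := Q) hg κ δ (m + 1) c' x' (A.map τ.toEmbedding)
    rw [← integral_mp mp b2.meas, integral_eq_iter (mp_Gam p hδ) b1,
      integral_eq_iter (mp_Gam p hδ) (b2.comp mp.measurable)]
    refine integral_congr_ae ?_
    filter_upwards [ae_goodC p] with ω hω
    have hs : Same c (fun w => x w + disp (ω w).2 δ) A c'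
        (fun w => x' w + disp (ω (τ.symm w)).2 δ) (A.map τ.toEmbedding) :=
      same_of_equiv τ fun w hw => by simp only [Equiv.symm_apply_apply, h2 w hw, and_self]
    have h3 := ih _ _ _ _ _ _ (hs.resolve (P := P) (Q := Q))
    rw [← integral_mp mp (bm_WW (P := Q) hg κ δ m _ _ _).meas] at h3
    refine (integral_congr_ae ?_).trans (h3.trans (integral_congr_ae ?_))
    · filter_upwards [ae_goodC p] with ω' hω' using WW_Gam (P := P) κ hδ m c x A hω hω'
    · filter_upwards [ae_goodC p] with ω' hω'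
      exact (WW_Gam (P := Q) κ hδ m c' x' _ (ω := fun z => ω (τ.symm z))
        (ω' := fun z => ω' (τ.symm z)) (fun z => hω _) fun z => hω' _).symm

lemma tendsto_WW (hg : BM g) (κ : Bool) {t : ℝ} (ht : 0 ≤ t) (F : Finset (Site d)) {ω : Conf d}
    (hω : GoodC ω) : Tendsto (fun m : ℕ => ∫ ω', WW κ g (t / m) m (col ω) (pos ω 0) F ω' ∂law d p)
      atTop (𝓝 (∫ ω', UF κ F t g (Gam 0 (ω, ω')) ∂law d p)) := by
  obtain ⟨C, hC⟩ := hg.bdd
  have h := tendsto_grid p (J := fun x B => UU κ (col ω) x B g) hω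
    (fun B => measurable_UU κ _ B g) (F := F) (fun x B hB => abs_UU_le' hC κ _ x hB) le_rfl ht
  rw [zero_add, al_zero hω] at h
  refine h.congr' ?_
  filter_upwards [eventually_gt_atTop 0] with m hm0
  have hm0' : (0 : ℝ) < m := by exact_mod_cast hm0
  simp only [WW, mul_div_cancel₀ _ hm0'.ne']

omit P in
lemma uu_indep (P Q : Prio d) (hg : BM g) (κ : Bool) {t : ℝ} (ht : 0 ≤ t) (F : Finset (Site d)) :
    uu (P := P) p κ t g F = uu (P := Q) p κ t g F := by
  unfold uu
  rw [integral_eq_iter (mp_Gam p le_rfl) (bm_UF (P := P) hg κ F t),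
    integral_eq_iter (mp_Gam p le_rfl) (bm_UF (P := Q) hg κ F t)]
  refine integral_congr_ae ?_
  filter_upwards [ae_goodC p] with ω hω
  refine tendsto_nhds_unique (tendsto_WW (P := P) p hg κ ht F hω)
    ((tendsto_WW (P := Q) p hg κ ht F hω).congr fun m => ?_)
  exact WW_indep p Q P hg κ (by positivity) m _ _ _ _ _ _ fun _ _ => rfl

lemma uu_shift (g : Site d → ℝ) (hg : BM g) (κ : Bool) {t : ℝ} (ht : 0 ≤ t) (a : Site d)
    (F : Finset (Site d)) :
    uu p κ t g (F.map (addRightEmbedding a)) = uu p κ t (fun x => g (x + a)) F := by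
  have mp := mp_reindex p (f := fun z => z - a) sub_left_injective
  rw [uu, ← integral_mp mp (bm_UF hg κ _ t).meas,
    uu_indep p P ⟨fun w => P.pr (w + a), P.inj.comp (add_left_injective a)⟩
      (hg.comp (measurable_of_countable _)) κ ht]
  refine integral_congr_ae (Eventually.of_forall fun ω => ?_)
  simp only [UF, UU, al_shift ⟨fun w => P.pr (w + a), P.inj.comp (add_left_injective a)⟩ P a
    fun _ => rfl, Finset.sum_map, addRightEmbedding_apply, col, pos, add_sub_cancel_right]
  refine Finset.sum_congr rfl fun w _ => ?_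
  rw [add_right_comm]

/-- The density of the particles of colour `κ` at time `t` in the infinite system. -/
noncomputable def rho (d : ℕ) [Prio d] (p : unitInterval) (κ : Bool) (t : ℝ) : ℝ :=
  limUnder atTop (uu p κ t (dl (0 : Site d)))

lemma tendsto_rho_dl (κ : Bool) {t : ℝ} (ht : 0 ≤ t) (a : Site d) :
    Tendsto (uu p κ t (dl a)) atTop (𝓝 (rho d p κ t)) := by
  have h0 : Tendsto (uu p κ t (dl (0 : Site d))) atTop (𝓝 (rho d p κ t)) :=
    tendsto_nhds_limUnder (exists_limit p (ns_dl 0) κ ht)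
  obtain ⟨L, hL⟩ := exists_limit p (ns_dl a) κ ht
  have h1 : Tendsto (fun F : Finset (Site d) => F.map (addRightEmbedding a)) atTop atTop :=
    tendsto_atTop_finset_of_monotone (fun _ _ h => Finset.map_subset_map.2 h)
      fun x => ⟨{x - a}, by simp⟩
  have h2 := hL.comp h1
  have e : uu p κ t (dl a) ∘ (fun F : Finset (Site d) => F.map (addRightEmbedding a)) =
      uu p κ t (dl 0) := by
    funext F
    rw [Function.comp, uu_shift p _ (ns_dl a).bm _ ht]
    congr 1
    funext x
    exact ind_congr (by simp)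
  rw [e] at h2
  rwa [tendsto_nhds_unique h0 h2]

lemma uu_dl_le_one (κ : Bool) {t : ℝ} (ht : 0 ≤ t) (a : Site d) (F : Finset (Site d)) :
    uu p κ t (dl a) F ≤ 1 :=
  (uu_le_sum p (ns_dl a).bm (ns_dl a).nonneg κ F ht).trans
    ((sum_Pt_le (ns_dl a) t F).trans (hasSum_dl a).tsum_eq.le)

lemma uu_eq_tsum (hg : NS g) (κ : Bool) {t : ℝ} (ht : 0 ≤ t) (F : Finset (Site d)) :
    uu p κ t g F = ∑' y, g y * uu p κ t (dl y) F := by
  have h0 : ∀ y, 0 ≤ uu p κ t (dl y) F := fun y => uu_nonneg p (ns_dl y).nonneg κ t F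
  have hs : Summable fun y => g y * uu p κ t (dl y) F :=
    Summable.of_nonneg_of_le (fun y => mul_nonneg (hg.nonneg y) (h0 y))
      (fun y => mul_le_of_le_one_right (hg.nonneg y) (uu_dl_le_one p κ ht y F)) hg.summable
  have h := hasSum_integral_of_summable_integral_norm (μ := law d p)
    (F := fun y ω => g y * UF κ F t (dl y) ω)
    (fun y => ((bm_UF (ns_dl y).bm κ F t).const_mul _).integrable) (by
      refine hs.congr fun y => ?_
      unfold uu
      rw [← integral_const_mul]
      congr 1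
      ext ω
      rw [Real.norm_of_nonneg (mul_nonneg (hg.nonneg _) (UF_nonneg (ns_dl y).nonneg κ F t ω))])
  have e : ∀ ω : Conf d, ∑' y, g y * UF κ F t (dl y) ω = UF κ F t g ω := fun ω => by
    unfold UF UU
    simp_rw [Finset.mul_sum]
    refine HasSum.tsum_eq (hasSum_sum fun w _ => ?_)
    split_ifs with hc
    · have := hasSum_single (f := fun y => g y * dl y (pos ω t w)) (pos ω t w)
        fun y hy => by simp [dl, ind, hy.symm]
      simpa [dl, ind] using this
    · simp
  simp_rw [e, integral_const_mul] at h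
  exact h.tsum_eq.symm

lemma tendsto_uu (hg : NS g) (κ : Bool) {t : ℝ} (ht : 0 ≤ t) :
    Tendsto (uu p κ t g) atTop (𝓝 (rho d p κ t * ∑' y, g y)) := by
  have := tendsto_tsum_of_dominated_convergence (𝓕 := atTop)
    (f := fun (F : Finset (Site d)) y => g y * uu p κ t (dl y) F)
    (g := fun y => g y * rho d p κ t) hg.summable
    (fun y => (tendsto_rho_dl p κ ht y).const_mul _) (Eventually.of_forall fun F y => by
      rw [Real.norm_of_nonneg (mul_nonneg (hg.nonneg y) (uu_nonneg p (ns_dl y).nonneg κ t F))]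
      exact mul_le_of_le_one_right (hg.nonneg y) (uu_dl_le_one p κ ht y F))
  rw [tsum_mul_right, mul_comm] at this
  exact this.congr fun F => (uu_eq_tsum p hg κ ht F).symm

lemma rho_nonneg (κ : Bool) {t : ℝ} (ht : 0 ≤ t) : 0 ≤ rho d p κ t :=
  ge_of_tendsto' (tendsto_rho_dl p κ ht 0) fun F => uu_nonneg p (ns_dl 0).nonneg κ t F

lemma rho_le_one (κ : Bool) {t : ℝ} (ht : 0 ≤ t) : rho d p κ t ≤ 1 :=
  le_of_tendsto' (tendsto_rho_dl p κ ht 0) fun F => uu_dl_le_one p κ ht 0 F

lemma uu_add_le (hg : NS g) (κ : Bool) {s t : ℝ} (hs : 0 ≤ s) (ht : 0 ≤ t) (F : Finset (Site d)) :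
    uu p κ (s + t) g F ≤ uu p κ s (Pt t g) F :=
  le_of_glue p (bm_UF hg.bm κ F _) (bm_UF (hg.Pt t).bm κ F _) hs
    fun _ hω => cond_UF_le p hg.bm hg.nonneg κ hω F hs ht

lemma rho_anti (κ : Bool) {s t : ℝ} (hs : 0 ≤ s) (hst : s ≤ t) : rho d p κ t ≤ rho d p κ s := by
  have h1 := tendsto_uu p ((ns_dl (0 : Site d)).Pt (t - s)) κ hs
  rw [tsum_Pt (ns_dl 0), (hasSum_dl 0).tsum_eq, mul_one] at h1
  refine le_of_tendsto_of_tendsto' (tendsto_rho_dl p κ (hs.trans hst) 0) h1 fun F => ?_
  have := uu_add_le p (ns_dl (0 : Site d)) κ hs (sub_nonneg.2 hst) F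
  rwa [add_sub_cancel] at this

lemma rho_sub {t : ℝ} (ht : 0 ≤ t) : rho d p true t - rho d p false t = 2 * p - 1 := by
  have h1 := (tendsto_rho_dl (d := d) p true ht 0).sub (tendsto_rho_dl p false ht 0)
  have h2 : Tendsto (fun F : Finset (Site d) => (2 * (p : ℝ) - 1) * ∑ w ∈ F, Pt t (dl 0) w) atTop
      (𝓝 ((2 * p - 1) * ∑' y, dl (0 : Site d) y)) :=
    Tendsto.const_mul _ (hasSum_Pt (ns_dl 0) t)
  rw [(hasSum_dl 0).tsum_eq, mul_one] at h2
  refine tendsto_nhds_unique h1 (h2.congr fun F => ?_)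
  rw [← integral_SF p (ns_dl 0).bm F ht, uu, uu, ← integral_sub
    (bm_UF (ns_dl 0).bm _ F t).integrable (bm_UF (ns_dl 0).bm _ F t).integrable]
  exact integral_congr_ae (Eventually.of_forall fun ω => SS_eq_UU _)

end Pool.Agent.MP_0e9fac_pr

end

-- part MP_0e9fac_pr.Stab
section

/-! Existence of the infinite system. -/

set_option autoImplicit false
open MeasureTheory ProbabilityTheory Filter Set
open scoped Classical ENNReal Topology

namespace Pool.Agent.MP_0e9fac_pr

variable {d : ℕ} [P : Prio d]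

lemma cube_mono : Monotone (cube d) := by
  intro m n h x hx
  rw [cube, Fintype.mem_piFinset] at hx ⊢
  intro i
  have := hx i
  rw [Finset.mem_Icc] at this ⊢
  omega

lemma tendsto_cube : Tendsto (cube d) atTop atTop :=
  tendsto_atTop_finset_of_monotone cube_mono fun x => ⟨nrm x, by
    rw [cube, Fintype.mem_piFinset]
    intro i
    have := natAbs_le_nrm x i
    rw [Finset.mem_Icc]
    omega⟩

lemma count_eq {ω : Conf d} (hω : GoodC ω) (n : ℕ) (κ : Bool) {t : ℝ} (ht : 0 ≤ t) (x : Site d) :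
    (count P.pr ω n κ t x : ℝ) = UF κ (cube d n) t (dl x) ω := by
  rw [count, UF, UU, al_eq hω ht, Finset.card_filter]
  push_cast
  refine Finset.sum_congr rfl fun w _ => ?_
  by_cases h1 : (ω w).1 = κ <;> by_cases h2 : pos ω t w = x <;> simp [col, dl, ind, h1, h2]

lemma UF_eq_max {ω : Conf d} (hω : GoodC ω) (F : Finset (Site d)) (κ : Bool) {t : ℝ} (ht : 0 ≤ t)
    (x : Site d) : UF κ F t (dl x) ω = max (sg κ * SF F t (dl x) ω) 0 := by
  have h1 := UF_nonneg (ns_dl x).nonneg true F t ω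
  have h2 := UF_nonneg (ns_dl x).nonneg false F t ω
  have h3 : SF F t (dl x) ω = UF true F t (dl x) ω - UF false F t (dl x) ω := SS_eq_UU _
  have h4 : UF true F t (dl x) ω = 0 ∨ UF false F t (dl x) ω = 0 := by
    by_contra hh
    push Not at hh
    obtain ⟨v, hv, hv'⟩ := Finset.exists_ne_zero_of_sum_ne_zero hh.1
    obtain ⟨w, hw, hw'⟩ := Finset.exists_ne_zero_of_sum_ne_zero hh.2
    have a1 : col ω v = true := by by_contra h; exact hv' (if_neg h)
    have a2 : col ω w = false := by by_contra h; exact hw' (if_neg h)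
    rw [if_pos a1] at hv'
    rw [if_pos a2] at hw'
    have b1 : pos ω t v = x := by by_contra h; exact hv' (ind_neg h)
    have b2 : pos ω t w = x := by by_contra h; exact hw' (ind_neg h)
    have := al_mono hω ht v hv w hw (b1.trans b2.symm)
    rw [a1, a2] at this
    exact absurd this (by simp)
  rw [h3]
  cases κ <;> rcases h4 with h | h <;> simp [sg, h, h1, h2]

variable [NeZero d] (p : unitInterval)

lemma hit_finite {z : Site d} {F : Finset (Site d)} (hz : z ∉ F) (x : Site d) {T : ℝ} (hT : 0 ≤ T)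
    {s : ℕ → ℝ} (hs : Monotone s) (h0 : 0 ≤ s 0) (m : ℕ) (hm : s m ≤ T) :
    (law d p).real {ω | ∃ i < m, TR z F (s i) (dl x) ω ≠ 0} ≤ Real.exp T * Pt T (dl x) z := by
  have hb : ∀ t, BM (TR z F t (dl x)) := fun t => bm_TR (ns_dl x).bm z F t
  have hm1 : ∀ i, MeasurableSet {ω | TR z F (s i) (dl x) ω ≠ 0} := fun i =>
    ((hb _).meas (measurableSet_singleton 0)).compl
  have hm2 : ∀ j, MeasurableSet {ω | ∃ i < j, TR z F (s i) (dl x) ω ≠ 0} := fun j =>
    measurableSet_setOfPred.2 (Measurable.exists fun i =>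
      measurable_const.and (measurableSet_setOfPred.1 (hm1 i)))
  have hm3 : ∀ j, MeasurableSet {ω | (¬ ∃ i < j, TR z F (s i) (dl x) ω ≠ 0) ∧
      TR z F (s j) (dl x) ω ≠ 0} := fun j => (hm2 j).compl.inter (hm1 j)
  have key : ∀ j ≤ m, ∫ ω, Real.exp (-T) * ind (∃ i < j, TR z F (s i) (dl x) ω ≠ 0) ∂law d p ≤
      ∫ ω, ind (∃ i < j, TR z F (s i) (dl x) ω ≠ 0) * TR z F T (dl x) ω ∂law d p := by
    intro j
    induction j with
    | zero => intro _; simp [ind]
    | succ j ih =>
      intro hj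
      have hj0 : 0 ≤ s j := h0.trans (hs (Nat.zero_le j))
      have hjT : s j ≤ T := (hs (by omega)).trans hm
      have e : ∀ ω, ind (∃ i < j + 1, TR z F (s i) (dl x) ω ≠ 0) =
          ind (∃ i < j, TR z F (s i) (dl x) ω ≠ 0) +
            ind ((¬ ∃ i < j, TR z F (s i) (dl x) ω ≠ 0) ∧ TR z F (s j) (dl x) ω ≠ 0) := by
        intro ω
        rw [ind_congr Nat.exists_lt_succ_right]
        by_cases a : (∃ i < j, TR z F (s i) (dl x) ω ≠ 0) <;>
          by_cases b : TR z F (s j) (dl x) ω ≠ 0 <;> simp only [ind, a, b] <;> simp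
      simp_rw [e, mul_add, add_mul]
      rw [integral_add ((BM.ind (hm2 j)).const_mul _).integrable
          ((BM.ind (hm3 j)).const_mul _).integrable,
        integral_add ((BM.ind (hm2 j)).mul (hb T)).integrable
          ((BM.ind (hm3 j)).mul (hb T)).integrable]
      refine add_le_add (ih (by omega)) ?_
      refine ge_of_glue p ((BM.ind (hm3 j)).mul (hb T)) ((BM.ind (hm3 j)).const_mul _) hj0
        fun ω hω => ?_
      have e2 : ∫ ω', ind ((¬ ∃ i < j, TR z F (s i) (dl x) (Gam (s j) (ω, ω')) ≠ 0) ∧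
          TR z F (s j) (dl x) (Gam (s j) (ω, ω')) ≠ 0) * TR z F T (dl x) (Gam (s j) (ω, ω'))
            ∂law d p =
          ind ((¬ ∃ i < j, TR z F (s i) (dl x) ω ≠ 0) ∧ TR z F (s j) (dl x) ω ≠ 0) *
            TR z F (s j) (Pt (T - s j) (dl x)) ω := by
        rw [← cond_TR p (ns_dl x).bm hω z F hj0 (sub_nonneg.2 hjT), add_sub_cancel,
          ← integral_const_mul]
        refine integral_congr_ae ?_
        filter_upwards [ae_goodC p] with ω' hω'
        have e3 : ∀ i ≤ j, TR z F (s i) (dl x) (Gam (s j) (ω, ω')) = TR z F (s i) (dl x) ω := by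
          intro i hi
          have hi0 : 0 ≤ s i := h0.trans (hs (Nat.zero_le i))
          rw [TR, SF_Gam_le hω hω' hj0 _ _ hi0 (hs hi), SF_Gam_le hω hω' hj0 _ _ hi0 (hs hi)]
          rfl
        congr 1
        refine ind_congr (and_congr (not_congr (exists_congr fun i => and_congr_right fun hi => ?_)) ?_)
        · rw [e3 i hi.le]
        · rw [e3 j le_rfl]
      rw [e2]
      by_cases hH : (¬ ∃ i < j, TR z F (s i) (dl x) ω ≠ 0) ∧ TR z F (s j) (dl x) ω ≠ 0
      · rw [ind_pos hH, mul_one, one_mul]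
        obtain ⟨u, h1, _⟩ := al_tracer hω hj0 hz
        have a1 : TR z F (s j) (dl x) ω = dl x (pos ω (s j) u) := h1 _
        have a2 : TR z F (s j) (Pt (T - s j) (dl x)) ω = Pt (T - s j) (dl x) (pos ω (s j) u) := h1 _
        have a3 : pos ω (s j) u = x := by
          by_contra hh
          exact hH.2 (a1.trans (ind_neg hh))
        rw [a2, a3]
        exact (Real.exp_le_exp.2 (by linarith)).trans (Pt_dl_self (sub_nonneg.2 hjT) x)
      · rw [ind_neg hH, mul_zero, zero_mul]
  have h1 := key m le_rfl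
  rw [integral_const_mul, integral_ind (hm2 m)] at h1
  have h2 : ∫ ω, ind (∃ i < m, TR z F (s i) (dl x) ω ≠ 0) * TR z F T (dl x) ω ∂law d p ≤
      Pt T (dl x) z := by
    rw [← integral_TR p (ns_dl x).bm hz hT]
    refine ((BM.ind (hm2 m)).mul (hb T)).integral_mono (hb T) ?_
    filter_upwards [ae_goodC p] with ω hω
    obtain ⟨u, h1, _⟩ := al_tracer hω hT hz
    have a1 : TR z F T (dl x) ω = dl x (pos ω T u) := h1 _
    exact mul_le_of_le_one_left (a1 ▸ ind_nonneg _) (ind_le_one _)
  have h3 := mul_le_mul_of_nonneg_left (h1.trans h2) (Real.exp_pos T).le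
  rwa [← mul_assoc, ← Real.exp_add, add_neg_cancel, Real.exp_zero, one_mul] at h3

lemma hit_bound {z : Site d} {F : Finset (Site d)} (hz : z ∉ F) (x : Site d) {T : ℝ} (hT : 0 < T) :
    (law d p).real {ω | GoodC ω ∧ ∃ t, 0 ≤ t ∧ t < T ∧
      SF (insert z F) t (dl x) ω ≠ SF F t (dl x) ω} ≤ Real.exp T * Pt T (dl x) z := by
  have h := measure_eventually_le (μ := law d p)
    (V := fun m : ℕ => {ω | ∃ i < m, TR z F (i * (T / m)) (dl x) ω ≠ 0})
    (c := Real.exp T * Pt T (dl x) z) (by
      filter_upwards [eventually_gt_atTop 0] with m hm0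
      have hm0' : (0 : ℝ) < m := by exact_mod_cast hm0
      refine hit_finite p hz x hT.le (s := fun i => i * (T / m)) (fun a b hab => ?_) (by simp) m ?_
      · exact mul_le_mul_of_nonneg_right (by exact_mod_cast hab) (by positivity)
      · rw [mul_div_cancel₀ _ hm0'.ne'])
  refine (measureReal_mono ?_).trans h
  rintro ω ⟨hω, t, ht0, htT, hne⟩
  obtain ⟨ε, hε, h1⟩ := al_right (F := F) hω ht0
  obtain ⟨ε', hε', h2⟩ := al_right (F := insert z F) hω ht0
  have hpos : 0 < min (min ε ε') (T - t) := lt_min (lt_min hε hε') (sub_pos.2 htT)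
  have := (tendsto_const_div_atTop_nhds_zero_nat T).eventually (gt_mem_nhds hpos)
  filter_upwards [this, eventually_gt_atTop 0] with m hm hm0
  have hm0' : (0 : ℝ) < m := by exact_mod_cast hm0
  have hδ : 0 < T / m := by positivity
  set i := ⌈t / (T / m)⌉₊ with hi
  have i1 : t ≤ i * (T / m) := by rw [← div_le_iff₀ hδ]; exact Nat.le_ceil _
  have i2 : i * (T / m) < t + T / m := by
    have := Nat.ceil_lt_add_one (div_nonneg ht0 hδ.le)
    have h3 := mul_lt_mul_of_pos_right this hδ
    rwa [add_mul, one_mul, div_mul_cancel₀ _ hδ.ne'] at h3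
  have b1 := lt_of_lt_of_le hm ((min_le_left _ _).trans (min_le_left _ _))
  have b2 := lt_of_lt_of_le hm ((min_le_left _ _).trans (min_le_right _ _))
  have b3 := lt_of_lt_of_le hm (min_le_right _ _)
  refine ⟨i, ?_, ?_⟩
  · have : (i : ℝ) * (T / m) < m * (T / m) := by
      rw [mul_div_cancel₀ _ hm0'.ne']; linarith
    exact_mod_cast lt_of_mul_lt_mul_right this hδ.le
  · obtain ⟨c1, c2⟩ := h1 _ i1 (by linarith)
    obtain ⟨c3, c4⟩ := h2 _ i1 (by linarith)
    have d1 : SF F (i * (T / m)) (dl x) ω = SF F t (dl x) ω := by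
      unfold SF SS
      rw [c1]
      exact Finset.sum_congr rfl fun w hw => by rw [c2 w (al_subset t hw)]
    have d2 : SF (insert z F) (i * (T / m)) (dl x) ω = SF (insert z F) t (dl x) ω := by
      unfold SF SS
      rw [c3]
      exact Finset.sum_congr rfl fun w hw => by rw [c4 w (al_subset t hw)]
    rw [TR, d1, d2]
    refine mul_ne_zero ?_ (sub_ne_zero.2 hne)
    cases col ω z <;> simp [sg]

lemma hit_union (F : Finset (Site d)) (x : Site d) {T : ℝ} (hT : 0 < T) (S : Finset (Site d))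
    (hS : Disjoint S F) : (law d p).real {ω | GoodC ω ∧ ∃ t, 0 ≤ t ∧ t < T ∧
      SF (S ∪ F) t (dl x) ω ≠ SF F t (dl x) ω} ≤ Real.exp T * ∑ z ∈ S, Pt T (dl x) z := by
  induction S using Finset.induction_on with
  | empty => simp
  | insert z S hz ih =>
    rw [Finset.disjoint_insert_left] at hS
    have hz' : z ∉ S ∪ F := by simp [hz, hS.1]
    rw [Finset.sum_insert hz, Finset.insert_union, mul_add]
    refine le_trans (measureReal_mono ?_) ((measureReal_union_le _ _).trans
      (add_le_add (hit_bound p hz' x hT) (ih hS.2)))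
    rintro ω ⟨hω, t, h0, h1, hne⟩
    by_cases h : SF (insert z (S ∪ F)) t (dl x) ω = SF (S ∪ F) t (dl x) ω
    · exact Or.inr ⟨hω, t, h0, h1, by rwa [← h]⟩
    · exact Or.inl ⟨hω, t, h0, h1, h⟩

lemma ae_stabilises : ∀ᵐ ω ∂law d p, Stabilises P.pr ω := by
  have h : ∀ (x : Site d) (T : ℕ), ∀ᵐ ω ∂law d p, ∀ᶠ n in atTop, ω ∉ {ω | GoodC ω ∧
      ∃ t, 0 ≤ t ∧ t < (T + 1 : ℝ) ∧ SF (cube d (n + 1)) t (dl x) ω ≠ SF (cube d n) t (dl x) ω} := by
    intro x T
    have hT : (0 : ℝ) < T + 1 := by positivity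
    have hf := (ns_dl x).Pt (T + 1)
    have h1 : ∀ n, 0 ≤ Real.exp (T + 1) * ∑ z ∈ cube d (n + 1) \ cube d n, Pt (T + 1) (dl x) z :=
      fun n => mul_nonneg (Real.exp_pos _).le (Finset.sum_nonneg fun z _ => hf.nonneg z)
    have hs : Summable fun n =>
        Real.exp (T + 1) * ∑ z ∈ cube d (n + 1) \ cube d n, Pt (T + 1) (dl x) z := by
      refine Summable.mul_left _ (summable_of_sum_range_le
        (c := ∑' y, Pt (T + 1) (dl x) y) (fun n => Finset.sum_nonneg fun z _ => hf.nonneg z)
        fun N => ?_)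
      simp_rw [Finset.sum_sdiff_eq_sub (cube_mono (Nat.le_succ _))]
      rw [Finset.sum_range_sub fun n => ∑ z ∈ cube d n, Pt (T + 1) (dl x) z]
      have a := hf.summable.sum_le_tsum (cube d N) fun y _ => hf.nonneg y
      have b : 0 ≤ ∑ z ∈ cube d 0, Pt (T + 1) (dl x) z := Finset.sum_nonneg fun z _ => hf.nonneg z
      linarith
    refine ae_eventually_notMem (ne_top_of_le_ne_top (hs.tsum_ofReal_ne_top)
      (ENNReal.tsum_le_tsum fun n => ?_))
    have := hit_union p (cube d n) x hT (cube d (n + 1) \ cube d n) Finset.sdiff_disjoint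
    rw [Finset.sdiff_union_of_subset (cube_mono (Nat.le_succ n))] at this
    rw [← ofReal_measureReal]
    exact ENNReal.ofReal_le_ofReal this
  filter_upwards [ae_goodC p, ae_all_iff.2 fun x => ae_all_iff.2 (h x)] with ω hω h
  intro x T
  obtain ⟨N, hN⟩ := exists_nat_ge T
  obtain ⟨m, hm⟩ := eventually_atTop.1 (h x N)
  refine ⟨m, fun n hn t ht κ => ?_⟩
  have e : SF (cube d n) t (dl x) ω = SF (cube d m) t (dl x) ω := by
    induction n, hn using Nat.le_induction with
    | base => rfl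
    | succ n hn ih =>
      rw [← ih]
      by_contra hh
      exact hm n hn ⟨hω, t, ht.1, by linarith [ht.2], hh⟩
  have : (count P.pr ω n κ t x : ℝ) = count P.pr ω m κ t x := by
    rw [count_eq hω n κ ht.1, count_eq hω m κ ht.1, UF_eq_max hω _ κ ht.1, UF_eq_max hω _ κ ht.1, e]
  exact_mod_cast this

end Pool.Agent.MP_0e9fac_pr

end

-- part MP_0e9fac_pr.Occ
section

/-! Occupation numbers, ranges and losses. -/

set_option autoImplicit false
open MeasureTheory ProbabilityTheory Filter Set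
open scoped Classical ENNReal Topology

namespace Pool.Agent.MP_0e9fac_pr

variable {d : ℕ} [P : Prio d]

/-- The occupation of `x` by the colour `κ` at the times `s + k`, `k ∈ I`. -/
noncomputable def OC (κ : Bool) (F : Finset (Site d)) (s : ℝ) (I : Finset ℕ) (x : Site d)
    (ω : Conf d) : ℝ := ∑ k ∈ I, UF κ F (s + k) (dl x) ω

lemma bm_OC (κ : Bool) (F : Finset (Site d)) (s : ℝ) (I : Finset ℕ) (x : Site d) :
    BM (OC κ F s I x) := BM.sum I fun _ _ => bm_UF (ns_dl x).bm κ F _

lemma OC_nonneg (κ : Bool) (F : Finset (Site d)) (s : ℝ) (I : Finset ℕ) (x : Site d) (ω : Conf d) :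
    0 ≤ OC κ F s I x ω := Finset.sum_nonneg fun _ _ => UF_nonneg (ns_dl x).nonneg κ F _ ω

/-- The number of jumps of the particle `w` between the times `k` and `k + 1`. -/
noncomputable def JN (k : ℝ) (w : Site d) (ω : Conf d) : ℕ :=
  jumpCount (ω w).2 (k + 1) - jumpCount (ω w).2 k

lemma measurable_JN (k : ℝ) (w : Site d) : Measurable (JN k w) :=
  ((measurable_jumpCount _).comp (by fun_prop)).sub ((measurable_jumpCount _).comp (by fun_prop))

lemma JN_Gam {ω ω' : Conf d} (h : GoodC ω) (h' : GoodC ω') {k : ℝ} (hk : 0 ≤ k) (w : Site d) :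
    JN k w (Gam k (ω, ω')) = jumpCount (ω' w).2 1 := by
  simp only [JN, Gam, jumpCount_glue_add (h w) (h' w) hk zero_le_one,
    jumpCount_glue_le (h w) (h' w) hk hk le_rfl]
  omega

lemma nrm_pos_sub {ω : Conf d} (h : GoodC ω) {k r r' : ℝ} (hk : 0 ≤ k) (h1 : k ≤ r) (h2 : r ≤ r')
    (h3 : r' ≤ k + 1) (w : Site d) : nrm (pos ω r' w - pos ω r w) ≤ JN k w ω := by
  have a := (h w).nrm_disp_sub (hk.trans h1) h2
  have b := (h w).jumpCount_mono hk h1
  have c := (h w).jumpCount_mono (hk.trans (h1.trans h2)) h3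
  simp only [pos, add_sub_add_left_eq_sub, JN]
  omega

lemma measurable_nrm_pos (k : ℝ) (w : Site d) : Measurable fun ω : Conf d => nrm (pos ω k w) :=
  (measurable_of_countable nrm).comp ((measurable_pi_apply w).comp (measurable_pos k))

variable [NeZero d] (p : unitInterval)

lemma cond_sq {ω : Conf d} (hω : GoodC ω) (κ : Bool) (F : Finset (Site d)) {s : ℝ} (hs : 0 ≤ s)
    (I : Finset ℕ) (x : Site d) {G : ℝ}
    (hY : ∀ y, ∫ w, (∑ k ∈ I, dl x (y + disp w k)) ^ 2 ∂clockLaw d ≤ G * ∑ k ∈ I, Pt k (dl x) y) :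
    ∫ ω', OC κ F s I x (Gam s (ω, ω')) ^ 2 ∂law d p ≤
      UF κ F s (fun y => ∑ k ∈ I, Pt k (dl x) y) ω ^ 2 +
        G * UF κ F s (fun y => ∑ k ∈ I, Pt k (dl x) y) ω := by
  have hb0 : ∀ y, BM fun w : Clock d => ∑ k ∈ I, dl x (y + disp w k) := fun y =>
    BM.sum I fun k _ => bm_disp (ns_dl x).bm y k
  have hb : ∀ w, BM fun e : Bool × Clock d =>
      if col ω w = κ then ∑ k ∈ I, dl x (pos ω s w + disp e.2 k) else 0 := by
    intro w
    by_cases h : col ω w = κ
    · simpa only [if_pos h] using (hb0 _).comp measurable_snd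
    · simpa only [if_neg h] using BM.const 0
  have h1 := integral_sq_sum_eval (nu d p) (al ω F s) hb
  have e1 : ∑ z ∈ al ω F s, ∫ e, (if col ω z = κ then ∑ k ∈ I, dl x (pos ω s z + disp e.2 k)
      else 0) ∂nu d p = UF κ F s (fun y => ∑ k ∈ I, Pt k (dl x) y) ω := by
    refine Finset.sum_congr rfl fun z _ => ?_
    split_ifs with h
    · rw [integral_snd p (hb0 _).meas, integral_finsetSum _ fun k _ =>
        (bm_disp (ns_dl x).bm _ _).integrable]
      rfl
    · simp
  have e2 : ∑ z ∈ al ω F s, ∫ e, (if col ω z = κ then ∑ k ∈ I, dl x (pos ω s z + disp e.2 k)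
      else 0) ^ 2 ∂nu d p ≤ G * UF κ F s (fun y => ∑ k ∈ I, Pt k (dl x) y) ω := by
    rw [UF, UU, Finset.mul_sum]
    refine Finset.sum_le_sum fun z _ => ?_
    split_ifs with h
    · rw [integral_snd p (hb0 _).sq.meas]
      exact hY _
    · simp
  rw [e1] at h1
  refine le_trans ?_ (h1.trans (add_le_add le_rfl e2))
  refine (bm_Gam (bm_OC κ F s I x).sq hs ω).integral_mono
    (BM.sum _ fun z _ => (hb z).comp (measurable_pi_apply z)).sq ?_
  filter_upwards [ae_goodC p] with ω' hω'
  refine pow_le_pow_left₀ (OC_nonneg _ _ _ _ _ _) ?_ 2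
  have : ∀ k ∈ I, UF κ F (s + k) (dl x) (Gam s (ω, ω')) ≤
      ∑ z ∈ al ω F s, if col ω z = κ then dl x (pos ω s z + disp (ω' z).2 k) else 0 := by
    intro k _
    rw [UF, pos_Gam_add hω hω' hs (Nat.cast_nonneg k), col_Gam]
    exact UU_mono (ns_dl x).nonneg (al_Gam_subset hω hω' hs F (Nat.cast_nonneg k))
  refine (Finset.sum_le_sum this).trans (le_of_eq ?_)
  rw [Finset.sum_comm]
  refine Finset.sum_congr rfl fun z _ => ?_
  split_ifs <;> simp

lemma occ_sq (I : Finset ℕ) (x : Site d) {a : ℕ → ℝ} (ha : ∀ (j : ℕ) y, Pt j (dl x) y ≤ a j) {n : ℕ}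
    (hI : ∀ k ∈ I, ∀ k' ∈ I, k' - k < n) (y : Site d) :
    ∫ w, (∑ k ∈ I, dl x (y + disp w k)) ^ 2 ∂clockLaw d ≤
      (2 * ∑ j ∈ Finset.range n, a j) * ∑ k ∈ I, Pt k (dl x) y := by
  have ha0 : ∀ j, 0 ≤ a j := fun j => (Pt_nonneg (ns_dl x).nonneg j 0).trans (ha j 0)
  have hb : ∀ k k' : ℕ, BM fun w : Clock d => dl x (y + disp w k) * dl x (y + disp w k') :=
    fun k k' => (bm_disp (ns_dl x).bm y k).mul (bm_disp (ns_dl x).bm y k')
  have h1 : ∀ k k' : ℕ, k ≤ k' → ∫ w, dl x (y + disp w k) * dl x (y + disp w k') ∂clockLaw d ≤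
      Pt k (dl x) y * a (k' - k) := by
    intro k k' hk
    have e : (k' : ℝ) = k + (k' - k : ℕ) := by rw [Nat.cast_sub hk]; ring
    have := integral_glue (d := d) (Nat.cast_nonneg k) (Nat.cast_nonneg (k' - k))
      (G := fun q => dl x (y + q.1) * dl x (y + q.2))
      (((ns_dl x).bm.comp (measurable_of_countable _)).mul
        ((ns_dl x).bm.comp (measurable_of_countable _)))
    rw [← e] at this
    simp only [integral_const_mul, ← add_assoc] at this
    rw [this, Pt, ← integral_mul_const]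
    refine ((bm_disp (ns_dl x).bm y k).mul (bm_disp ((ns_dl x).bm.Pt (k' - k : ℕ)) y k)).integral_mono
      ((bm_disp (ns_dl x).bm y k).mul (BM.const _)) (Eventually.of_forall fun w => ?_)
    exact mul_le_mul_of_nonneg_left (ha _ _) (ind_nonneg _)
  have h2 : ∀ w : Clock d, (∑ k ∈ I, dl x (y + disp w k)) ^ 2 ≤
      2 * ∑ k ∈ I, ∑ k' ∈ I.filter (k ≤ ·), dl x (y + disp w k) * dl x (y + disp w k') := by
    intro w
    have hn : ∀ k k' : ℕ, 0 ≤ dl x (y + disp w k) * dl x (y + disp w k') := fun k k' =>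
      mul_nonneg (ind_nonneg _) (ind_nonneg _)
    simp_rw [Finset.sum_filter]
    rw [pow_two, Finset.sum_mul_sum, two_mul]
    nth_rewrite 2 [Finset.sum_comm]
    rw [← Finset.sum_add_distrib]
    refine Finset.sum_le_sum fun k _ => ?_
    rw [← Finset.sum_add_distrib]
    refine Finset.sum_le_sum fun k' _ => ?_
    have a1 := hn k k'
    have a2 := mul_comm (dl x (y + disp w k)) (dl x (y + disp w k'))
    split_ifs <;> first | linarith | omega
  refine ((BM.sum I fun k _ => bm_disp (ns_dl x).bm y k).sq.integral_mono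
    ((BM.sum I fun k _ => BM.sum _ fun k' _ => hb k k').const_mul 2)
    (Eventually.of_forall h2)).trans ?_
  rw [integral_const_mul, integral_finsetSum _ fun k _ => (BM.sum _ fun k' _ => hb k k').integrable,
    mul_assoc]
  refine mul_le_mul_of_nonneg_left ?_ zero_le_two
  rw [Finset.mul_sum]
  refine Finset.sum_le_sum fun k hk => ?_
  rw [integral_finsetSum _ fun k' _ => (hb k k').integrable]
  refine (Finset.sum_le_sum fun k' hk' => h1 k k' (Finset.mem_filter.1 hk').2).trans ?_
  rw [← Finset.mul_sum, mul_comm]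
  refine mul_le_mul_of_nonneg_right ?_ (Pt_nonneg (ns_dl x).nonneg _ _)
  rw [← Finset.sum_image (s := I.filter (k ≤ ·)) (g := fun k' => k' - k) (f := a)]
  · refine Finset.sum_le_sum_of_subset_of_nonneg (fun j hj => ?_) fun j _ _ => ha0 j
    obtain ⟨k', hk', rfl⟩ := Finset.mem_image.1 hj
    exact Finset.mem_range.2 (hI k hk k' (Finset.mem_filter.1 hk').1)
  · intro u hu v hv h
    have h1 := (Finset.mem_filter.1 hu).2
    have h2 := (Finset.mem_filter.1 hv).2
    simp only at h
    omega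

lemma integral_tail (n : ℕ) (w : Site d) :
    ∫ ω, ind (n ≤ 3 * jumpCount (ω w).2 1) ∂law d p ≤ (9 / 10 : ℝ) ^ n := by
  rw [integral_clock p (G := fun u => ind (n ≤ 3 * jumpCount u 1)) (BM.ind
    (measurableSet_le measurable_const ((measurable_jumpCount 1).const_mul 3))).meas]
  exact tail_three n

omit [NeZero d] in
lemma bm_tail (n : ℕ) (w : Site d) : BM fun ω : Conf d => ind (n ≤ 3 * jumpCount (ω w).2 1) :=
  BM.ind (measurableSet_le measurable_const
    (((measurable_jumpCount 1).comp (by fun_prop)).const_mul 3))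

lemma range_bound (κ : Bool) (F : Finset (Site d)) {k : ℝ} (hk : 0 ≤ k) :
    (law d p).real {ω | ∃ w ∈ al ω F k, col ω w = κ ∧ nrm (pos ω k w) ≤ JN k w ω} ≤
      uu p κ k phi F := by
  have hm : ∀ w, MeasurableSet {ω : Conf d | nrm (pos ω k w) ≤ 3 * JN k w ω} := fun w =>
    measurableSet_le (measurable_nrm_pos k w) ((measurable_JN k w).const_mul 3)
  have hb : BM fun ω : Conf d => ∑ w ∈ al ω F k,
      if col ω w = κ then ind (nrm (pos ω k w) ≤ 3 * JN k w ω) else 0 :=
    bm_sum_mem (measurable_al F k) (fun _ => al_subset k) fun w =>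
      BM.ite (measurableSet_col w κ) (BM.ind (hm w)) (BM.const 0)
  have h0 : ∀ (ω : Conf d) w, 0 ≤ if col ω w = κ then ind (nrm (pos ω k w) ≤ 3 * JN k w ω) else 0 :=
    fun ω w => by split_ifs; exacts [ind_nonneg _, le_rfl]
  have h1 := markov (μ := law d p) hb (fun ω => Finset.sum_nonneg fun w _ => h0 ω w) one_pos
  rw [div_one] at h1
  refine le_trans (measureReal_mono ?_) (h1.trans ?_)
  · rintro ω ⟨w, hw, hc, hn⟩
    have := Finset.single_le_sum (fun w _ => h0 ω w) hw
    rwa [if_pos hc, ind_pos (by omega)] at this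
  · refine le_of_glue p hb (bm_UF ns_phi.bm κ F k) hk fun ω hω => ?_
    rw [integral_congr_ae (g := fun ω' => ∑ w ∈ al ω F k,
      if col ω w = κ then ind (nrm (pos ω k w) ≤ 3 * jumpCount (ω' w).2 1) else 0),
      integral_finsetSum]
    · refine Finset.sum_le_sum fun w _ => ?_
      split_ifs
      · exact integral_tail p _ w
      · simp
    · intro w _
      split_ifs
      · exact (bm_tail _ w).integrable
      · exact integrable_const _
    · filter_upwards [ae_goodC p] with ω' hω'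
      simp only [al_Gam_le hω hω' hk F hk le_rfl, pos_Gam_le hω hω' hk hk le_rfl, col_Gam,
        JN_Gam hω hω' hk]

lemma loss_bound (κ : Bool) (F : Finset (Site d)) {k : ℝ} (hk : 0 ≤ k) :
    uu p κ k (Pt 1 (dl 0)) F ≤ uu p κ (k + 1) (dl 0) F +
      2 * ∫ ω, UF κ F k phi ω * UF (!κ) F k phi ω ∂law d p := by
  have b1 := bm_UF ((ns_dl (0 : Site d)).Pt 1).bm κ F k
  have b2 := ((bm_UF ns_phi.bm κ F k).mul (bm_UF ns_phi.bm (!κ) F k)).const_mul 2
  have b3 := bm_UF (ns_dl (0 : Site d)).bm κ F (k + 1)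
  rw [← sub_le_iff_le_add, uu, ← integral_const_mul, ← integral_sub b1.integrable b2.integrable]
  refine ge_of_glue p b3 (b1.sub b2) hk fun ω hω => ?_
  have c1 := bm_free_UU (ns_dl (0 : Site d)).bm κ (col ω) (pos ω k) (al ω F k) 1
  have c2 : ∀ w v : Site d, BM fun ω' : Conf d => if col ω w = κ ∧ col ω v = (!κ) then
      ind (nrm (pos ω k w) + nrm (pos ω k v) ≤ 3 * jumpCount (ω' w).2 1) +
        ind (nrm (pos ω k w) + nrm (pos ω k v) ≤ 3 * jumpCount (ω' v).2 1) else 0 := by
    intro w v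
    split_ifs
    · exact (bm_tail _ w).add (bm_tail _ v)
    · exact BM.const 0
  have c3 := BM.sum (al ω F k) fun w _ => BM.sum (al ω F k) fun v _ => c2 w v
  refine le_trans ?_ ((c1.sub c3).integral_mono (bm_Gam b3 hk ω) ?_)
  · rw [integral_sub c1.integrable c3.integrable, free_UU p (ns_dl 0).bm,
      integral_finsetSum _ fun w _ => (BM.sum _ fun v _ => c2 w v).integrable]
    refine sub_le_sub_left ?_ _
    rw [UF, UF, UU, UU, Finset.sum_mul_sum, Finset.mul_sum]
    refine Finset.sum_le_sum fun w _ => ?_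
    rw [integral_finsetSum _ fun v _ => (c2 w v).integrable, Finset.mul_sum]
    refine Finset.sum_le_sum fun v _ => ?_
    by_cases h : col ω w = κ ∧ col ω v = (!κ)
    · simp only [if_pos h, if_pos h.1, if_pos h.2]
      rw [integral_add (bm_tail _ w).integrable (bm_tail _ v).integrable, phi, phi, ← pow_add,
        two_mul]
      exact add_le_add (integral_tail p _ w) (integral_tail p _ v)
    · simp only [if_neg h, integral_zero]
      refine mul_nonneg zero_le_two (mul_nonneg ?_ ?_) <;> split_ifs <;>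
        first | exact ns_phi.nonneg _ | exact le_rfl
  · filter_upwards [ae_goodC p] with ω' hω'
    have hΓ := good_Gam hω hω' hk
    have hsub := al_Gam_subset hω hω' hk F zero_le_one
    have hnn : ∀ w v : Site d, 0 ≤ if col ω w = κ ∧ col ω v = (!κ) then
        ind (nrm (pos ω k w) + nrm (pos ω k v) ≤ 3 * jumpCount (ω' w).2 1) +
          ind (nrm (pos ω k w) + nrm (pos ω k v) ≤ 3 * jumpCount (ω' v).2 1) else 0 := by
      intro w v
      split_ifs
      exacts [add_nonneg (ind_nonneg _) (ind_nonneg _), le_rfl]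
    rw [sub_le_iff_le_add, UF, pos_Gam_add hω hω' hk zero_le_one, col_Gam, UU, UU,
      ← Finset.sum_sdiff hsub, add_comm]
    refine add_le_add le_rfl (le_trans (Finset.sum_le_sum fun w hw => ?_)
      (Finset.sum_le_sum_of_subset_of_nonneg Finset.sdiff_subset
        fun w _ _ => Finset.sum_nonneg fun v _ => hnn w v))
    rw [Finset.mem_sdiff] at hw
    by_cases h : col ω w = κ ∧ pos ω k w + disp (ω' w).2 1 = 0
    · rw [if_pos h.1, show dl 0 (pos ω k w + disp (ω' w).2 1) = 1 from ind_pos h.2]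
      have hw1 : w ∈ al (Gam k (ω, ω')) F k := by rw [al_Gam_le hω hω' hk F hk le_rfl]; exact hw.1
      obtain ⟨r, r1, r2, v, hv, e1, e2⟩ := al_loss hΓ hk (by linarith) hw1 hw.2
      rw [al_Gam_le hω hω' hk F hk le_rfl] at hv
      rw [col_Gam, h.1] at e2
      have e3 : col ω v = !κ := by revert e2; cases col ω v <;> cases κ <;> simp
      refine le_trans ?_ (Finset.single_le_sum (fun v _ => hnn w v) hv)
      rw [if_pos ⟨h.1, e3⟩]
      have n1 := nrm_pos_sub hΓ hk le_rfl (by linarith) le_rfl w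
      have n2 := nrm_pos_sub hΓ hk le_rfl r1 r2 v
      have n3 := nrm_pos_sub hΓ hk r1 r2 le_rfl w
      have z1 : pos (Gam k (ω, ω')) (k + 1) w = 0 := by
        rw [pos_Gam_add hω hω' hk zero_le_one]; exact h.2
      rw [JN_Gam hω hω' hk] at n1 n2 n3
      rw [z1, zero_sub, nrm_neg] at n1 n3
      rw [pos_Gam_le hω hω' hk hk le_rfl] at n1 n2
      rw [e1, nrm_sub_comm] at n2
      have n4 := nrm_add_le (pos ω k v - pos (Gam k (ω, ω')) r w) (pos (Gam k (ω, ω')) r w)
      rw [sub_add_cancel] at n4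
      by_cases hh : jumpCount (ω' v).2 1 ≤ jumpCount (ω' w).2 1
      · rw [ind_pos (p := _ ≤ 3 * jumpCount (ω' w).2 1) (by omega)]
        exact le_add_of_nonneg_right (ind_nonneg _)
      · rw [ind_pos (p := _ ≤ 3 * jumpCount (ω' v).2 1) (by omega)]
        exact le_add_of_nonneg_left (ind_nonneg _)
    · refine le_trans (le_of_eq ?_) (Finset.sum_nonneg fun v _ => hnn w v)
      split_ifs with h1
      · exact ind_neg fun h2 => h ⟨h1, h2⟩
      · rfl

lemma prod_bound {g : Site d → ℝ} (hg : NS g) (κ : Bool) (F : Finset (Site d)) {s t : ℝ}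
    (hs : 0 ≤ s) (ht : 0 ≤ t) :
    ∫ ω, UF κ F (s + t) g ω * UF (!κ) F (s + t) g ω ∂law d p ≤
      ∫ ω, UF κ F s (Pt t g) ω * UF (!κ) F s (Pt t g) ω ∂law d p := by
  refine le_of_glue p ((bm_UF hg.bm κ F _).mul (bm_UF hg.bm (!κ) F _))
    ((bm_UF (hg.Pt t).bm κ F _).mul (bm_UF (hg.Pt t).bm (!κ) F _)) hs fun ω hω => ?_
  have c1 := bm_free_UU hg.bm κ (col ω) (pos ω s) (al ω F s) t
  have c2 := bm_free_UU hg.bm (!κ) (col ω) (pos ω s) (al ω F s) t
  rw [UF, UF, ← free_UU p hg.bm, ← free_UU p hg.bm, law_eq,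
    ← integral_mul_of_dependsOn (nu d p) c1 c2 (B := {w | col ω w = κ})]
  · refine (bm_Gam ((bm_UF hg.bm κ F _).mul (bm_UF hg.bm (!κ) F _)) hs ω).integral_mono
      (c1.mul c2) ?_
    filter_upwards [ae_goodC p] with ω' hω'
    rw [UF, UF, pos_Gam_add hω hω' hs ht, col_Gam]
    have hsub := al_Gam_subset hω hω' hs F ht
    exact mul_le_mul (UU_mono hg.nonneg hsub) (UU_mono hg.nonneg hsub) (UU_nonneg hg.nonneg)
      (UU_nonneg hg.nonneg)
  · intro x y h
    refine Finset.sum_congr rfl fun w _ => ?_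
    split_ifs with hc
    · simp only [h w hc]
    · rfl
  · intro x y h
    refine Finset.sum_congr rfl fun w _ => ?_
    split_ifs with hc
    · simp only [h w (by simp [hc])]
    · rfl

end Pool.Agent.MP_0e9fac_pr

end

-- part MP_0e9fac_pr.Heat
section

/-! Two-sided bounds for the transition probabilities at integer times. -/

set_option autoImplicit false
open MeasureTheory ProbabilityTheory Filter Set
open scoped Classical ENNReal Topology

namespace Pool.Agent.MP_0e9fac_pr

variable {d : ℕ}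

/-- The order of magnitude of the transition probabilities. -/
noncomputable def HH (d : ℕ) (k : ℝ) : ℝ := (Real.sqrt k)⁻¹ ^ d

/-- The scalar product. -/
noncomputable def dot (θ : Fin d → ℝ) (x : Site d) : ℝ := ∑ i, θ i * (x i : ℝ)

lemma dot_add (θ : Fin d → ℝ) (x y : Site d) : dot θ (x + y) = dot θ x + dot θ y := by
  simp [dot, mul_add, Finset.sum_add_distrib]

lemma dot_neg (θ : Fin d → ℝ) (x : Site d) : dot θ (-x) = - dot θ x := by simp [dot]

lemma dot_zero (θ : Fin d → ℝ) : dot θ 0 = 0 := by simp [dot]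

lemma dot_sub_left (θ θ' : Fin d → ℝ) (x : Site d) : dot (θ - θ') x = dot θ x - dot θ' x := by
  simp [dot, sub_mul, Finset.sum_sub_distrib]

lemma dot_step (θ : Fin d → ℝ) (i : Fin d) : dot θ (step (i, true)) = θ i := by
  unfold dot step
  rw [Finset.sum_eq_single i]
  · simp
  · intro b _ hb; simp [hb]
  · simp

lemma step_inj {i j : Fin d} (h : step (i, true) = step (j, true)) : i = j := by
  by_contra hij
  have := congrFun h i
  simp [step, hij] at this

/-- The characteristic function. -/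
noncomputable def psi (t : ℝ) (θ : Fin d → ℝ) : ℝ := ∫ w, Real.cos (dot θ (disp w t)) ∂clockLaw d

lemma fejer (M : ℕ) (hM : 0 < M) (x : Site d) :
    ind (x = 0) ≤ (((M : ℝ) ^ d) ^ 2)⁻¹ * ∑ j ∈ Fintype.piFinset fun _ : Fin d => Finset.range M,
      ∑ j' ∈ Fintype.piFinset fun _ : Fin d => Finset.range M,
        Real.cos (dot (fun i => ((j i : ℝ) - j' i) / M) x) := by
  set J := Fintype.piFinset fun _ : Fin d => Finset.range M
  have hM' : (0 : ℝ) < M := by exact_mod_cast hM
  by_cases hx : x = 0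
  · rw [ind_pos hx, hx]
    simp only [dot_zero, Real.cos_zero, Finset.sum_const, nsmul_eq_mul, mul_one]
    have : (J.card : ℝ) = (M : ℝ) ^ d := by simp [J]
    rw [this, ← pow_two, inv_mul_cancel₀ (by positivity)]
  · rw [ind_neg hx]
    refine mul_nonneg (by positivity) ?_
    have e : ∀ j j' : Fin d → ℕ, Real.cos (dot (fun i => ((j i : ℝ) - j' i) / M) x) =
        Real.cos (dot (fun i => (j i : ℝ) / M) x) * Real.cos (dot (fun i => (j' i : ℝ) / M) x) +
        Real.sin (dot (fun i => (j i : ℝ) / M) x) * Real.sin (dot (fun i => (j' i : ℝ) / M) x) := by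
      intro j j'
      rw [← Real.cos_sub, ← dot_sub_left]
      congr 2
      ext i
      simp [sub_div]
    simp_rw [e, Finset.sum_add_distrib, ← Finset.sum_mul_sum]
    exact add_nonneg (mul_self_nonneg _) (mul_self_nonneg _)

variable [NeZero d]

lemma integral_cos_add (α t : ℝ) (θ : Fin d → ℝ) :
    ∫ w, Real.cos (α + dot θ (disp w t)) ∂clockLaw d = Real.cos α * psi t θ := by
  have hm : Measurable fun w : Clock d => dot θ (disp w t) :=
    (measurable_of_countable (dot θ)).comp (measurable_disp t)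
  have h0 : ∫ w, Real.sin (dot θ (disp w t)) ∂clockLaw d = 0 := by
    have := integral_flip (d := d) (G := fun x => Real.sin (dot θ x)) t
    simp only [dot_neg, Real.sin_neg, integral_neg] at this
    linarith
  simp_rw [Real.cos_add]
  rw [integral_sub ((BM.cos hm).const_mul _).integrable ((BM.sin hm).const_mul _).integrable,
    integral_const_mul, integral_const_mul, h0, mul_zero, sub_zero, psi]

lemma psi_add {s t : ℝ} (hs : 0 ≤ s) (ht : 0 ≤ t) (θ : Fin d → ℝ) :
    psi (s + t) θ = psi s θ * psi t θ := by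
  have := integral_glue (d := d) hs ht (G := fun q => Real.cos (dot θ q.2))
    (BM.cos (measurable_of_countable _))
  simp only [dot_add, integral_cos_add, integral_mul_const] at this
  exact this

lemma psi_nat (k : ℕ) (θ : Fin d → ℝ) : psi k θ = psi 1 θ ^ k := by
  induction k with
  | zero =>
    have := Pt_zero (d := d) (f := fun x => Real.cos (dot θ x)) 0
    simpa [Pt, dot_zero, psi] using this
  | succ k ih => rw [Nat.cast_succ, psi_add (Nat.cast_nonneg k) zero_le_one, ih, pow_succ]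

lemma psi_one_nonneg (θ : Fin d → ℝ) : 0 ≤ psi 1 θ := by
  rw [show (1 : ℝ) = 1 / 2 + 1 / 2 by norm_num, psi_add (by norm_num) (by norm_num)]
  exact mul_self_nonneg _

lemma psi_one_le : ∃ γ > 0, ∀ θ : Fin d → ℝ, (∀ i, |θ i| ≤ 1) →
    psi 1 θ ≤ Real.exp (- (γ * ∑ i, θ i ^ 2)) := by
  obtain ⟨β, hβ, h⟩ : ∃ β > 0, ∀ i : Fin d,
      β ≤ (clockLaw d).real {w | disp w 1 = step (i, true)} := by
    obtain ⟨i, _, hi⟩ := Finset.exists_min_image Finset.univ
      (fun i : Fin d => (clockLaw d).real {w | disp w 1 = step (i, true)}) Finset.univ_nonempty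
    exact ⟨_, step_prob (i, true), fun j => hi j (Finset.mem_univ j)⟩
  refine ⟨β * (2 / Real.pi ^ 2), by positivity, fun θ hθ => ?_⟩
  have hm : Measurable fun w : Clock d => dot θ (disp w 1) :=
    (measurable_of_countable (dot θ)).comp (measurable_disp 1)
  have hi : ∀ i : Fin d, MeasurableSet {w : Clock d | disp w 1 = step (i, true)} := fun i =>
    measurable_disp 1 (measurableSet_singleton _)
  have h1 : ∀ w : Clock d, Real.cos (dot θ (disp w 1)) ≤
      1 - ∑ i, (1 - Real.cos (θ i)) * ind (disp w 1 = step (i, true)) := by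
    intro w
    by_cases hw : ∃ j, disp w 1 = step (j, true)
    · obtain ⟨j, hj⟩ := hw
      rw [Finset.sum_eq_single j, ind_pos hj, hj, dot_step]
      · linarith
      · intro b _ hb
        rw [ind_neg fun hh => hb (step_inj (hh.symm.trans hj)), mul_zero]
      · simp
    · push Not at hw
      simp [ind_neg (hw _), Real.cos_le_one]
  have h2 : psi 1 θ ≤ 1 - ∑ i, (1 - Real.cos (θ i)) *
      (clockLaw d).real {w | disp w 1 = step (i, true)} := by
    have hb := BM.sum Finset.univ fun i _ => (BM.ind (hi i)).const_mul (1 - Real.cos (θ i))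
    refine ((BM.cos hm).integral_mono ((BM.const 1).sub hb) (Eventually.of_forall h1)).trans
      (le_of_eq ?_)
    rw [integral_sub (integrable_const _) hb.integrable,
      integral_finsetSum _ fun i _ => ((BM.ind (hi i)).const_mul _).integrable]
    simp_rw [integral_const_mul, integral_ind (hi _)]
    simp
  have h3 : β * (2 / Real.pi ^ 2) * ∑ i, θ i ^ 2 ≤ ∑ i, (1 - Real.cos (θ i)) *
      (clockLaw d).real {w | disp w 1 = step (i, true)} := by
    rw [Finset.mul_sum]
    refine Finset.sum_le_sum fun i _ => ?_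
    have a := Real.cos_le_one_sub_mul_cos_sq (x := θ i) ((hθ i).trans (by linarith [Real.pi_gt_three]))
    have b : 0 ≤ 2 / Real.pi ^ 2 * θ i ^ 2 := by positivity
    calc β * (2 / Real.pi ^ 2) * θ i ^ 2 = (2 / Real.pi ^ 2 * θ i ^ 2) * β := by ring
      _ ≤ _ := mul_le_mul (by linarith) (h i) hβ.le (by linarith)
  have := Real.add_one_le_exp (- (β * (2 / Real.pi ^ 2) * ∑ i, θ i ^ 2))
  linarith

omit [NeZero d] in
lemma gauss_sum {γ : ℝ} (hγ : 0 < γ) : ∃ K > 0, ∀ (k M a : ℕ), 0 < M → M * M ≤ k →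
    ∑ b ∈ Finset.range M, Real.exp (- (k * (γ * (((a : ℝ) - b) / M) ^ 2))) ≤ K := by
  have hr0 : 0 ≤ Real.exp (-γ) := (Real.exp_pos _).le
  have hs := summable_int_geom hr0 (Real.exp_lt_one_iff.2 (by linarith))
  refine ⟨∑' n : ℤ, Real.exp (-γ) ^ n.natAbs + 1, by positivity, fun k M a hM hk => ?_⟩
  have hM' : (0 : ℝ) < M := by exact_mod_cast hM
  have hk' : (M : ℝ) * M ≤ k := by exact_mod_cast hk
  have h1 : ∀ b : ℕ, Real.exp (- (k * (γ * (((a : ℝ) - b) / M) ^ 2))) ≤
      Real.exp (-γ) ^ ((a : ℤ) - b).natAbs := by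
    intro b
    rw [← Real.exp_nat_mul, Real.exp_le_exp]
    have e1 : ((((a : ℤ) - b).natAbs : ℕ) : ℝ) ≤ ((a : ℝ) - b) ^ 2 := by
      have h3 : (((a : ℤ) - b).natAbs : ℤ) ≤ ((a : ℤ) - b) ^ 2 := Int.natAbs_le_self_sq _
      have h4 : ((((a : ℤ) - b).natAbs : ℤ) : ℝ) ≤ ((((a : ℤ) - b) ^ 2 : ℤ) : ℝ) := Int.cast_le.2 h3
      rw [Int.cast_natCast] at h4
      simpa only [Int.cast_pow, Int.cast_sub, Int.cast_natCast] using h4
    have e2 : ((a : ℝ) - b) ^ 2 ≤ k * (((a : ℝ) - b) / M) ^ 2 := by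
      rw [div_pow, ← mul_div_assoc, le_div_iff₀ (by positivity)]
      nlinarith [sq_nonneg ((a : ℝ) - b)]
    nlinarith
  refine (Finset.sum_le_sum fun b _ => h1 b).trans ?_
  have := hs.sum_le_tsum ((Finset.range M).image fun b : ℕ => (a : ℤ) - b) fun _ _ => by positivity
  rw [Finset.sum_image fun x _ y _ h => by simpa using h] at this
  linarith

lemma heat_upper : ∃ C > 0, ∀ k : ℕ, 1 ≤ k → ∀ x y : Site d, Pt k (dl y) x ≤ C * HH d k := by
  obtain ⟨γ, hγ, h1⟩ := psi_one_le (d := d)
  obtain ⟨K, hK, h2⟩ := gauss_sum hγ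
  refine ⟨(2 * K) ^ d, by positivity, fun k hk x y => ?_⟩
  set M := Nat.sqrt k with hMdef
  have hM : 0 < M := Nat.sqrt_pos.2 hk
  have hM' : (0 : ℝ) < M := by exact_mod_cast hM
  set J := Fintype.piFinset fun _ : Fin d => Finset.range M with hJ
  have hb : ∀ θ : Fin d → ℝ, BM fun w : Clock d => Real.cos (dot θ (x - y) + dot θ (disp w k)) :=
    fun θ => BM.cos (((measurable_of_countable (dot θ)).comp (measurable_disp k)).const_add _)
  have a1 : Pt k (dl y) x ≤ (((M : ℝ) ^ d) ^ 2)⁻¹ * ∑ j ∈ J, ∑ j' ∈ J,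
      Real.cos (dot (fun i => ((j i : ℝ) - j' i) / M) (x - y)) *
        psi k fun i => ((j i : ℝ) - j' i) / M := by
    simp_rw [← integral_cos_add]
    rw [Finset.sum_congr rfl fun j _ => (integral_finsetSum _ fun j' _ => (hb _).integrable).symm,
      ← integral_finsetSum _ fun j _ => (BM.sum J fun j' _ => hb _).integrable,
      ← integral_const_mul]
    refine (bm_disp (ns_dl y).bm x k).integral_mono
      ((BM.sum J fun j _ => BM.sum J fun j' _ => hb _).const_mul _) (Eventually.of_forall fun w => ?_)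
    have := fejer M hM (x - y + disp w k)
    simp only [dot_add] at this
    refine le_trans (le_of_eq (ind_congr ?_)) this
    rw [sub_add_eq_add_sub, sub_eq_zero]
  have a2 : ∀ j ∈ J, ∀ j' ∈ J, Real.cos (dot (fun i => ((j i : ℝ) - j' i) / M) (x - y)) *
      psi k (fun i => ((j i : ℝ) - j' i) / M) ≤
        ∏ i, Real.exp (- (k * (γ * (((j i : ℝ) - j' i) / M) ^ 2))) := by
    intro j hj j' hj'
    rw [hJ, Fintype.mem_piFinset] at hj hj'
    have h0 := psi_one_nonneg (d := d) fun i => ((j i : ℝ) - j' i) / M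
    rw [psi_nat]
    refine (mul_le_of_le_one_left (pow_nonneg h0 k) (Real.cos_le_one _)).trans ?_
    refine (pow_le_pow_left₀ h0 (h1 _ fun i => ?_) k).trans (le_of_eq ?_)
    · have b1 : (j i : ℝ) < M := by exact_mod_cast Finset.mem_range.1 (hj i)
      have b2 : (j' i : ℝ) < M := by exact_mod_cast Finset.mem_range.1 (hj' i)
      rw [abs_div, abs_of_pos hM', div_le_one hM', abs_le]
      constructor <;> linarith [Nat.cast_nonneg (α := ℝ) (j i), Nat.cast_nonneg (α := ℝ) (j' i)]
    · rw [← Real.exp_nat_mul, ← Real.exp_sum, Finset.mul_sum, ← Finset.sum_neg_distrib,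
        Finset.mul_sum]
      congr 1
      exact Finset.sum_congr rfl fun i _ => by ring
  have a3 : ∀ j ∈ J, ∑ j' ∈ J, ∏ i, Real.exp (- (k * (γ * (((j i : ℝ) - j' i) / M) ^ 2))) ≤ K ^ d := by
    intro j _
    rw [hJ, ← Finset.prod_univ_sum (fun _ => Finset.range M)
      fun i (b : ℕ) => Real.exp (- (k * (γ * (((j i : ℝ) - b) / M) ^ 2)))]
    refine (Finset.prod_le_prod (fun i _ => Finset.sum_nonneg fun _ _ => (Real.exp_pos _).le)
      fun i _ => h2 k M (j i) hM (Nat.sqrt_le k)).trans (le_of_eq ?_)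
    simp
  have a4 : ∑ j ∈ J, ∑ j' ∈ J, Real.cos (dot (fun i => ((j i : ℝ) - j' i) / M) (x - y)) *
      psi k (fun i => ((j i : ℝ) - j' i) / M) ≤ (M : ℝ) ^ d * K ^ d := by
    refine (Finset.sum_le_sum fun j hj =>
      (Finset.sum_le_sum fun j' hj' => a2 j hj j' hj').trans (a3 j hj)).trans (le_of_eq ?_)
    simp [hJ]
  refine a1.trans ((mul_le_mul_of_nonneg_left a4 (by positivity)).trans ?_)
  have e : (((M : ℝ) ^ d) ^ 2)⁻¹ * ((M : ℝ) ^ d * K ^ d) = (K / M) ^ d := by
    rw [div_pow]; field_simp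
  rw [e, HH, ← mul_pow]
  refine pow_le_pow_left₀ (by positivity) ?_ d
  have hk' : (0 : ℝ) < k := by exact_mod_cast hk
  have hs : Real.sqrt k ≤ 2 * M := by
    rw [Real.sqrt_le_left (by positivity)]
    have : k < (M + 1) * (M + 1) := Nat.lt_succ_sqrt k
    have h3 : (k : ℝ) < (M + 1) * (M + 1) := by exact_mod_cast this
    have h4 : (1 : ℝ) ≤ M := by exact_mod_cast hM
    nlinarith
  rw [← div_eq_mul_inv, div_le_div_iff₀ hM' (Real.sqrt_pos.2 hk')]
  nlinarith

lemma second_moment_one : ∃ σ : ℝ, 0 ≤ σ ∧ ∀ i,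
    ∫⁻ w, ENNReal.ofReal ((disp w 1 i : ℝ) ^ 2) ∂clockLaw d ≤ ENNReal.ofReal σ := by
  have hq0 := q_nonneg (t := 1) zero_le_one
  have hs := summable_pow_mul_geometric_of_norm_lt_one (R := ℝ) 2 (r := 1 - Real.exp (-1))
    (by rw [Real.norm_of_nonneg hq0]; exact q_lt_one 1)
  have hn : ∀ n : ℕ, 0 ≤ (n : ℝ) ^ 2 * (1 - Real.exp (-1)) ^ n := fun n => by positivity
  refine ⟨∑' n : ℕ, (n : ℝ) ^ 2 * (1 - Real.exp (-1)) ^ n, tsum_nonneg hn, fun i => ?_⟩
  have hm : ∀ n : ℕ, MeasurableSet {w : Clock d | n ≤ jumpCount w 1} := fun n =>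
    measurableSet_le measurable_const (measurable_jumpCount 1)
  have h1 : ∀ w : Clock d, ENNReal.ofReal ((disp w 1 i : ℝ) ^ 2) ≤
      ∑' n : ℕ, {w : Clock d | n ≤ jumpCount w 1}.indicator
        (fun _ => ENNReal.ofReal ((n : ℝ) ^ 2)) w := by
    intro w
    refine le_trans ?_ (ENNReal.le_tsum (jumpCount w 1))
    rw [indicator_of_mem (by simp)]
    refine ENNReal.ofReal_le_ofReal ?_
    have a := (natAbs_le_nrm (disp w 1) i).trans (nrm_disp_le w 1)
    have b : |(disp w 1 i : ℝ)| ≤ jumpCount w 1 := by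
      rw [← Int.cast_abs, Int.abs_eq_natAbs]
      exact_mod_cast a
    rw [← sq_abs]
    exact pow_le_pow_left₀ (abs_nonneg _) b 2
  refine (lintegral_mono h1).trans ?_
  rw [lintegral_tsum fun n => (measurable_const.indicator (hm n)).aemeasurable,
    ENNReal.ofReal_tsum_of_nonneg hn hs]
  refine ENNReal.tsum_le_tsum fun n => ?_
  rw [lintegral_indicator_const (hm n), ENNReal.ofReal_mul (by positivity), ← ofReal_measureReal]
  gcongr
  exact tail_jumpCount n zero_le_one

lemma second_moment_succ (k : ℕ) (i : Fin d) :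
    ∫⁻ w, ENNReal.ofReal ((disp w (k + 1 : ℕ) i : ℝ) ^ 2) ∂clockLaw d =
      ∫⁻ w, ENNReal.ofReal ((disp w k i : ℝ) ^ 2) ∂clockLaw d +
        ∫⁻ w, ENNReal.ofReal ((disp w 1 i : ℝ) ^ 2) ∂clockLaw d := by
  have hm : ∀ (G : Site d → ℝ≥0∞) (t : ℝ), Measurable fun w : Clock d => G (disp w t) :=
    fun G t => (measurable_of_countable G).comp (measurable_disp t)
  have mp := mp_glue (d := d) (Nat.cast_nonneg k)
  have hk := hm (fun x => ENNReal.ofReal ((x i : ℝ) ^ 2))
  rw [← mp.lintegral_comp (hk _), lintegral_prod (fun a : Clock d × Clock d =>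
    ENNReal.ofReal ((disp (glue k a.1 a.2) (k + 1 : ℕ) i : ℝ) ^ 2))
      ((hk _).comp mp.measurable).aemeasurable]
  have inner : ∀ a : ℤ, ∫⁻ w', ENNReal.ofReal (((a + disp w' 1 i : ℤ) : ℝ) ^ 2) ∂clockLaw d =
      ENNReal.ofReal ((a : ℝ) ^ 2) + ∫⁻ w, ENNReal.ofReal ((disp w 1 i : ℝ) ^ 2) ∂clockLaw d := by
    intro a
    have f1 := mp_flip.lintegral_comp (hm (fun x => ENNReal.ofReal (((a + x i : ℤ) : ℝ) ^ 2)) 1)
    simp only [disp_flip] at f1
    have two : (2 : ℝ≥0∞) ≠ 0 := two_ne_zero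
    rw [← ENNReal.mul_right_inj two ENNReal.ofNat_ne_top, two_mul]
    nth_rewrite 1 [← f1]
    rw [← lintegral_add_left (hm (fun x => ENNReal.ofReal (((a + (-x) i : ℤ) : ℝ) ^ 2)) 1)]
    have e : ∀ w : Clock d, ENNReal.ofReal (((a + (-disp w 1) i : ℤ) : ℝ) ^ 2) +
        ENNReal.ofReal (((a + disp w 1 i : ℤ) : ℝ) ^ 2) =
        2 * (ENNReal.ofReal ((a : ℝ) ^ 2) + ENNReal.ofReal ((disp w 1 i : ℝ) ^ 2)) := by
      intro w
      rw [← ENNReal.ofReal_add (sq_nonneg _) (sq_nonneg _),
        ← ENNReal.ofReal_add (sq_nonneg _) (sq_nonneg _), ← ENNReal.ofReal_ofNat 2,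
        ← ENNReal.ofReal_mul (by norm_num)]
      congr 1
      simp only [Pi.neg_apply]
      push_cast; ring
    simp_rw [e]
    rw [lintegral_const_mul _ ((hk 1).const_add _), lintegral_add_left measurable_const]
    simp
  rw [lintegral_congr_ae (g := fun w => ENNReal.ofReal ((disp w k i : ℝ) ^ 2) +
    ∫⁻ w, ENNReal.ofReal ((disp w 1 i : ℝ) ^ 2) ∂clockLaw d), lintegral_add_right _ measurable_const]
  · simp
  · filter_upwards [ae_good] with w hw
    rw [← inner]
    refine lintegral_congr_ae ?_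
    filter_upwards [ae_good] with w' hw'
    rw [Nat.cast_succ, disp_glue_add hw hw' (Nat.cast_nonneg k) zero_le_one]
    rfl

lemma second_moment : ∃ σ : ℝ, 0 ≤ σ ∧ ∀ (k : ℕ) (i : Fin d),
    ∫⁻ w, ENNReal.ofReal ((disp w k i : ℝ) ^ 2) ∂clockLaw d ≤ ENNReal.ofReal (k * σ) := by
  obtain ⟨σ, h0, h⟩ := second_moment_one (d := d)
  refine ⟨σ, h0, fun k i => ?_⟩
  induction k with
  | zero =>
    rw [lintegral_congr_ae (g := fun _ => 0)]
    · simp
    · filter_upwards [ae_good] with w hw
      simp [hw.disp_zero]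
  | succ k ih =>
    rw [second_moment_succ, Nat.cast_succ, add_mul, one_mul,
      ENNReal.ofReal_add (by positivity) h0]
    exact add_le_add ih (h i)

lemma heat_lower : ∃ c > 0, ∀ k : ℕ, 1 ≤ k → ∃ B : Finset (Site d),
    c * HH d k ≤ ∑ z ∈ B, Pt k (dl 0) z ^ 2 := by
  obtain ⟨σ, h0, h⟩ := second_moment (d := d)
  obtain ⟨A, hA⟩ := exists_nat_ge (2 * d * σ + 1)
  have hA1 : (1 : ℝ) ≤ A := le_trans (by nlinarith [Nat.cast_nonneg (α := ℝ) d]) hA
  refine ⟨1 / 4 * ((6 * A : ℝ)⁻¹) ^ d, by positivity, fun k hk => ?_⟩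
  have hk' : (1 : ℝ) ≤ k := by exact_mod_cast hk
  set R : ℕ := A * (Nat.sqrt k + 1) with hR
  have hR2 : (A : ℝ) * A * k ≤ (R : ℝ) ^ 2 := by
    have : k ≤ (Nat.sqrt k + 1) * (Nat.sqrt k + 1) := (Nat.lt_succ_sqrt k).le
    have h3 : (k : ℝ) ≤ (Nat.sqrt k + 1) * (Nat.sqrt k + 1) := by exact_mod_cast this
    rw [hR]; push_cast
    nlinarith [mul_self_nonneg (A : ℝ)]
  have hRpos : (0 : ℝ) < (R : ℝ) ^ 2 := lt_of_lt_of_le (by positivity) hR2
  have hm : ∀ i, MeasurableSet {w : Clock d | (R : ℝ) ^ 2 ≤ (disp w k i : ℝ) ^ 2} := fun i =>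
    measurableSet_le measurable_const
      ((measurable_of_countable fun x : Site d => (x i : ℝ) ^ 2).comp (measurable_disp k))
  have t1 : ∀ i, (clockLaw d).real {w | (R : ℝ) ^ 2 ≤ (disp w k i : ℝ) ^ 2} ≤ k * σ / (R : ℝ) ^ 2 := by
    intro i
    have a := mul_meas_ge_le_lintegral (μ := clockLaw d)
      (f := fun w => ENNReal.ofReal ((disp w k i : ℝ) ^ 2))
      ((measurable_of_countable fun x : Site d => ENNReal.ofReal ((x i : ℝ) ^ 2)).comp
        (measurable_disp k)) (ENNReal.ofReal ((R : ℝ) ^ 2))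
    simp_rw [ENNReal.ofReal_le_ofReal_iff (sq_nonneg _)] at a
    have b := a.trans (h k i)
    rw [← ofReal_measureReal, ← ENNReal.ofReal_mul hRpos.le,
      ENNReal.ofReal_le_ofReal_iff (by positivity)] at b
    rw [le_div_iff₀ hRpos, mul_comm]; exact b
  refine ⟨cube d R, ?_⟩
  have t2 : 1 / 2 ≤ ∑ z ∈ cube d R, Pt k (dl 0) z := by
    unfold Pt
    rw [← integral_finsetSum _ fun z _ => (bm_disp (ns_dl 0).bm z k).integrable]
    have hb := BM.sum Finset.univ fun i _ => BM.ind (hm i)
    refine le_trans ?_ (((BM.const 1).sub hb).integral_mono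
      (BM.sum _ fun z _ => bm_disp (ns_dl 0).bm z k) (Eventually.of_forall fun w => ?_))
    · rw [integral_sub (integrable_const _) hb.integrable,
        integral_finsetSum _ fun i _ => (BM.ind (hm i)).integrable]
      simp_rw [integral_ind (hm _)]
      have a := Finset.sum_le_sum fun i (_ : i ∈ Finset.univ) => t1 i
      have b : (d : ℝ) * (k * σ / (R : ℝ) ^ 2) ≤ 1 / 2 := by
        rw [← mul_div_assoc, div_le_div_iff₀ hRpos two_pos]
        have : 2 * d * σ ≤ A * A := by nlinarith
        nlinarith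
      simp only [Finset.sum_const, Finset.card_univ, Fintype.card_fin, nsmul_eq_mul] at a
      simp only [integral_const, probReal_univ, smul_eq_mul, mul_one]
      linarith
    · by_cases hw : ∃ i, (R : ℝ) ^ 2 ≤ (disp w k i : ℝ) ^ 2
      · obtain ⟨i, hi⟩ := hw
        have a := Finset.single_le_sum (f := fun i => ind ((R : ℝ) ^ 2 ≤ (disp w k i : ℝ) ^ 2))
          (fun _ _ => ind_nonneg _) (Finset.mem_univ i)
        rw [ind_pos hi] at a
        have b : 0 ≤ ∑ z ∈ cube d R, dl 0 (z + disp w k) :=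
          Finset.sum_nonneg fun _ _ => ind_nonneg _
        linarith
      · push Not at hw
        have hmem : - disp w k ∈ cube d R := by
          rw [cube, Fintype.mem_piFinset]
          intro i
          have a := abs_lt_of_sq_lt_sq (hw i) (Nat.cast_nonneg R)
          have b : |disp w k i| < R := by exact_mod_cast a
          rw [abs_lt] at b
          simp only [Pi.neg_apply, Finset.mem_Icc]
          omega
        have a := Finset.single_le_sum (f := fun z => dl 0 (z + disp w k))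
          (fun _ _ => ind_nonneg _) hmem
        rw [show dl 0 (-disp w k + disp w k) = 1 from ind_pos (by simp)] at a
        have b : 0 ≤ ∑ i, ind ((R : ℝ) ^ 2 ≤ (disp w k i : ℝ) ^ 2) :=
          Finset.sum_nonneg fun _ _ => ind_nonneg _
        linarith
  have t3 := sq_sum_le_card_mul_sum_sq (s := cube d R) (f := fun z => Pt k (dl 0) z)
  have t4 : ((cube d R).card : ℝ) ≤ (6 * A * Real.sqrt k) ^ d := by
    have : (cube d R).card = (2 * R + 1) ^ d := by
      simp only [cube, Fintype.card_piFinset, Int.card_Icc, Finset.prod_const, Finset.card_univ,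
        Fintype.card_fin]
      congr 1; omega
    rw [this]; push_cast
    refine pow_le_pow_left₀ (by positivity) ?_ d
    have a : (Nat.sqrt k : ℝ) ≤ Real.sqrt k := Real.nat_sqrt_le_real_sqrt
    have b : 1 ≤ Real.sqrt k := Real.one_le_sqrt.2 hk'
    rw [hR]; push_cast
    nlinarith
  have hs : 0 < Real.sqrt k := Real.sqrt_pos.2 (by linarith)
  have t5 : 0 ≤ ∑ z ∈ cube d R, Pt k (dl 0) z ^ 2 := Finset.sum_nonneg fun _ _ => sq_nonneg _
  have t6 : 1 / 4 ≤ (6 * A * Real.sqrt k) ^ d * ∑ z ∈ cube d R, Pt k (dl 0) z ^ 2 := by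
    have := mul_le_mul_of_nonneg_right t4 t5
    nlinarith
  rw [HH, mul_assoc, ← mul_pow, ← mul_inv, inv_pow, ← div_eq_mul_inv, div_le_iff₀ (by positivity),
    mul_comm]
  exact t6

end Pool.Agent.MP_0e9fac_pr

end
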